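import Pool.Agent.Lib.MP_6b2d39_agVn.Defs

/-!
Existence of the parameters.

PROOF (compare `exists_tor` in `Hal/Par.lean`). Let `g` be the gcd of `δ` and all `k i`, `δ = g δ'`, `k i = g k' i`, `s = g s'`,
`ζ = exp (2 π i / g)` a primitive `g`-th root of unity. `r i = 2, 3, 5, 7, 11, 13, 17, 19, 23` and `u` with
`u ^ s' = ζ / ∏ r i ^ k' i` (`IsAlgClosed.exists_pow_nat_eq`, `s' ≥ 1`); `t i = (1 + r i) / (1 - r i)`, `w = (1 + u) / (1 - u)`. Then
`1 - t i = r i * (-1 - t i)`, `-1 - t i = -2 / (1 - r i) ≠ 0`, same for `w`, `u`. `‖u‖ ≤ 1` (so `u ≠ r i`, `w ≠ t i`), `u ≠ 0`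
(so `w ≠ 1`), `w ≠ -1` always; `u ≠ 1`: if some `k i ≥ 1` then `‖u‖ < 1`, and if all `k i = 0` then `g = δ ≥ 2`, `ζ ≠ 1`
(`1 - u ≠ 0` is needed for the formulas). Ordinates: `4 r (1 + r) / (1 - r) ^ 3` are different for the nine primes (`norm_num`).
`rel`: the quotient is `(∏ r i ^ k' i * u ^ s') ^ g = ζ ^ g = 1`.
`rels`: the quotient is `∏ r i ^ x i * u ^ y = 1`. Norms, `s'`-th power: `∏ r i ^ (s' x i) = ∏ r i ^ (k' i y)`, so by unique
factorization `s' x i = k' i y` for all `i`; with `∑ x i + y = 3 a`, `3 δ' = ∑ k' i + s'`: `s' a = δ' y`. Since the gcd of `δ'` and the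
`k' i` is one, `s'` divides `y`: `y = s' j`, `x i = k' i j`, `a = δ' j`, `ζ ^ j = 1`, so `g ∣ j`, and `j ≤ g` since `y ≤ s`:
`j = 0` (`a = 0`) or `j = g` (`a = δ`).
-/

open Polynomial

set_option autoImplicit false

namespace Pool.Agent.Lib.MP_6b2d39_agVn

open Pool.Agent.Lib.MP_6b2d39_ag Pool.Agent.Lib.MP_6b2d39_agHal

/-- the first nine primes -/
private def tokE_pr : Fin 9 → ℕ := ![2, 3, 5, 7, 11, 13, 17, 19, 23]

private theorem tokE_prime (i : Fin 9) : (tokE_pr i).Prime := by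
  fin_cases i <;> simp only [tokE_pr] <;> norm_num

private theorem tokE_inj : Function.Injective tokE_pr := by
  unfold tokE_pr
  decide

private theorem tokE_pow_inj (a b : Fin 9 → ℕ) (h : ∏ i, tokE_pr i ^ a i = ∏ i, tokE_pr i ^ b i) :
    a = b := by
  have key : ∀ (c : Fin 9 → ℕ) (j : Fin 9),
      (∏ i, tokE_pr i ^ c i).factorization (tokE_pr j) = c j := by
    intro c j
    rw [Nat.factorization_prod (fun i _ => pow_ne_zero _ (tokE_prime i).ne_zero),
      Finsupp.finset_sum_apply, Finset.sum_eq_single j]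
    · rw [(tokE_prime j).factorization_pow, Finsupp.single_eq_same]
    · intro i _ hij
      rw [(tokE_prime i).factorization_pow, Finsupp.single_apply, if_neg]
      exact fun h => hij (tokE_inj h)
    · intro h
      exact absurd (Finset.mem_univ _) h
  ext j
  rw [← key a j, h, key b j]

/-- the ordinates of the nine points -/
private def tokE_od (i : Fin 9) : ℚ := 4 * (tokE_pr i : ℚ) * (1 + tokE_pr i) / (1 - tokE_pr i) ^ 3

private theorem tokE_od_inj : Function.Injective tokE_od := by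
  intro i j h
  by_contra hij
  unfold tokE_od tokE_pr at h
  fin_cases i <;> fin_cases j <;> first | exact hij rfl | (norm_num at h)

private theorem tokE_arith {δ s : ℕ} {k : Fin 9 → ℕ} (hδ : 2 ≤ δ) (hs : 1 ≤ s)
    (hd : 3 * δ = ∑ i, k i + s) : ∃ (g d s' : ℕ) (k' : Fin 9 → ℕ), 1 ≤ g ∧ δ = g * d ∧
      (∀ i, k i = g * k' i) ∧ s = g * s' ∧ 1 ≤ s' ∧ 3 * d = ∑ i, k' i + s' ∧
      (∀ m : ℕ, (∀ i, s' ∣ k' i * m) → s' ∣ d * m → s' ∣ m) ∧ ((∀ i, k' i = 0) → 2 ≤ g) := by
  have hg : 1 ≤ Nat.gcd δ (Finset.univ.gcd k) :=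
    Nat.gcd_pos_of_pos_left _ (by omega)
  obtain ⟨d, hd'⟩ := Nat.gcd_dvd_left δ (Finset.univ.gcd k)
  have hk : ∀ i, Nat.gcd δ (Finset.univ.gcd k) ∣ k i := fun i =>
    (Nat.gcd_dvd_right δ (Finset.univ.gcd k)).trans (Finset.gcd_dvd (Finset.mem_univ i))
  choose k' hk' using hk
  have hsum : ∑ i, k i = Nat.gcd δ (Finset.univ.gcd k) * ∑ i, k' i := by
    rw [Finset.mul_sum]
    exact Finset.sum_congr rfl fun i _ => hk' i
  have hsg : Nat.gcd δ (Finset.univ.gcd k) ∣ s := by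
    have h1 : Nat.gcd δ (Finset.univ.gcd k) ∣ ∑ i, k i + s := by
      rw [← hd]
      exact (Nat.gcd_dvd_left δ (Finset.univ.gcd k)).mul_left 3
    exact (Nat.dvd_add_right ⟨_, hsum⟩).1 h1
  obtain ⟨s', hs'⟩ := hsg
  have hmul : ∀ m : ℕ, (∀ i, s ∣ k i * m) → s ∣ δ * m →
      s ∣ Nat.gcd δ (Finset.univ.gcd k) * m := by
    intro m h1 h2
    rw [← Nat.gcd_mul_right]
    refine Nat.dvd_gcd h2 ?_
    have h3 : (Finset.univ.gcd fun i => k i * m) = Finset.univ.gcd k * m := by
      rw [Finset.gcd_mul_right, normalize_eq]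
    rw [← h3]
    exact Finset.dvd_gcd fun i _ => h1 i
  have hzero : (∀ i, k' i = 0) → Nat.gcd δ (Finset.univ.gcd k) = δ := by
    intro h
    have h1 : Finset.univ.gcd k = 0 := by
      rw [Finset.gcd_eq_zero_iff]
      intro i _
      rw [hk' i, h i, mul_zero]
    rw [h1, Nat.gcd_zero_right]
  generalize Nat.gcd δ (Finset.univ.gcd k) = g at *
  refine ⟨g, d, s', k', hg, hd', hk', hs', ?_, ?_, ?_, ?_⟩
  · rcases Nat.eq_zero_or_pos s' with h | h
    · rw [h, mul_zero] at hs'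
      omega
    · exact h
  · have h1 : g * (3 * d) = g * (∑ i, k' i + s') := by
      rw [mul_add, ← hsum, ← hs', ← hd, hd']
      ring
    exact Nat.eq_of_mul_eq_mul_left (by omega) h1
  · intro m h1 h2
    have h3 : s ∣ g * m := by
      apply hmul
      · intro i
        rw [hs', hk' i, mul_assoc]
        exact Nat.mul_dvd_mul_left g (h1 i)
      · rw [hs']
        have h4 : δ * m = g * (d * m) := by
          rw [← mul_assoc, ← hd']
        rw [h4]
        exact Nat.mul_dvd_mul_left g h2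
    rw [hs'] at h3
    exact Nat.dvd_of_mul_dvd_mul_left (by omega) h3
  · intro h
    rw [hzero h]
    exact hδ

theorem exists_tok {δ s : ℕ} {k : Fin 9 → ℕ} (hδ : 2 ≤ δ) (hs : 1 ≤ s)
    (hd : 3 * δ = ∑ i, k i + s) : ∃ (t : Fin 9 → ℂ) (w : ℂ), Tok δ k s t w := by
  obtain ⟨g, d, s', k', hg, hgd, hgk, hgs, hs', hd', hcop, hzero⟩ := tokE_arith hδ hs hd
  have hζ := Complex.isPrimitiveRoot_exp g (by omega)
  generalize Complex.exp (2 * Real.pi * Complex.I / g) = ζ at hζ
  have hζn : ‖ζ‖ = 1 := hζ.norm'_eq_one (by omega)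
  have hζ0 : ζ ≠ 0 := by
    intro h
    rw [h, norm_zero] at hζn
    exact zero_ne_one hζn
  let r : Fin 9 → ℂ := fun i => (tokE_pr i : ℂ)
  have hr0 : ∀ i, r i ≠ 0 := fun i => by
    change (tokE_pr i : ℂ) ≠ 0
    exact_mod_cast (tokE_prime i).ne_zero
  have hrn : ∀ i, 2 ≤ ‖r i‖ := by
    intro i
    change (2 : ℝ) ≤ ‖(tokE_pr i : ℂ)‖
    rw [Complex.norm_natCast]
    exact_mod_cast (tokE_prime i).two_le
  have hrm : ∀ i, 1 - r i ≠ 0 := by
    intro i h
    rw [sub_eq_zero] at h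
    have h1 := hrn i
    rw [← h, norm_one] at h1
    norm_num at h1
  let P : ℕ := ∏ i, tokE_pr i ^ k' i
  have hP1 : 1 ≤ P := Nat.one_le_iff_ne_zero.2
    (Finset.prod_ne_zero_iff.2 fun i _ => pow_ne_zero _ (tokE_prime i).ne_zero)
  have hPc : ∏ i, r i ^ k' i = (P : ℂ) := by
    change ∏ i, (tokE_pr i : ℂ) ^ k' i = ((∏ i, tokE_pr i ^ k' i : ℕ) : ℂ)
    push_cast
    rfl
  have hP0 : (P : ℂ) ≠ 0 := by
    have : P ≠ 0 := by omega
    exact_mod_cast this
  obtain ⟨u, hu⟩ := IsAlgClosed.exists_pow_nat_eq (ζ / (P : ℂ)) (show 0 < s' by omega)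
  have hun : ‖u‖ ^ s' * P = 1 := by
    have hPr : (P : ℝ) ≠ 0 := by
      have : P ≠ 0 := by omega
      exact_mod_cast this
    rw [← norm_pow, hu, norm_div, hζn, Complex.norm_natCast]
    field_simp
  have hu0 : u ≠ 0 := by
    intro h
    rw [h, norm_zero, zero_pow (by omega), zero_mul] at hun
    exact zero_ne_one hun
  have hule : ‖u‖ ≤ 1 := by
    by_contra h
    push Not at h
    have h1 : 1 < ‖u‖ ^ s' := one_lt_pow₀ h (by omega)
    have h2 : (1 : ℝ) ≤ P := by exact_mod_cast hP1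
    nlinarith
  have hu1 : 1 - u ≠ 0 := by
    intro h
    have h1 : u = 1 := (sub_eq_zero.1 h).symm
    rw [h1, norm_one, one_pow, one_mul] at hun
    have hP : P = 1 := by exact_mod_cast hun
    have h2 : k' = fun _ => 0 := by
      apply tokE_pow_inj
      change P = _
      rw [hP]
      simp
    have h3 := hzero fun i => congrFun h2 i
    rw [h1, one_pow, hP, Nat.cast_one, div_one] at hu
    have h4 : g ∣ 1 := by
      apply hζ.dvd_of_pow_eq_one
      rw [pow_one]
      exact hu.symm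
    have h5 := Nat.le_of_dvd one_pos h4
    omega
  let t : Fin 9 → ℂ := fun i => (1 + r i) / (1 - r i)
  have ht1 : ∀ i, 1 - t i = r i * (-1 - t i) := by
    intro i
    have := hrm i
    change 1 - (1 + r i) / (1 - r i) = r i * (-1 - (1 + r i) / (1 - r i))
    field_simp
    ring
  have ht2 : ∀ i, -1 - t i ≠ 0 := by
    intro i
    have h1 : -1 - t i = -2 / (1 - r i) := by
      have := hrm i
      change -1 - (1 + r i) / (1 - r i) = _
      field_simp
      ring
    rw [h1]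
    exact div_ne_zero (by norm_num) (hrm i)
  have hy : ∀ i, (t i) ^ 3 - t i = ((tokE_od i : ℚ) : ℂ) := by
    intro i
    have := hrm i
    have h1 : (t i) ^ 3 - t i = 4 * r i * (1 + r i) / (1 - r i) ^ 3 := by
      change ((1 + r i) / (1 - r i)) ^ 3 - (1 + r i) / (1 - r i) = _
      field_simp
      ring
    rw [h1]
    change _ = ((4 * (tokE_pr i : ℚ) * (1 + tokE_pr i) / (1 - tokE_pr i) ^ 3 : ℚ) : ℂ)
    push_cast
    rfl
  obtain ⟨w, hw⟩ : ∃ w : ℂ, w = (1 + u) / (1 - u) := ⟨_, rfl⟩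
  have hw1 : 1 - w = u * (-1 - w) := by
    rw [hw]
    field_simp
    ring
  have hw2 : -1 - w ≠ 0 := by
    have h1 : -1 - w = -2 / (1 - u) := by
      rw [hw]
      field_simp
      ring
    rw [h1]
    exact div_ne_zero (by norm_num) hu1
  have hprod : ∀ (x : Fin 9 → ℕ) (y : ℕ), (∏ i, (1 - t i) ^ x i) * (1 - w) ^ y =
      ((∏ i, r i ^ x i) * u ^ y) * ((∏ i, (-1 - t i) ^ x i) * (-1 - w) ^ y) := by
    intro x y
    have h2 : ∏ i, (1 - t i) ^ x i = (∏ i, r i ^ x i) * ∏ i, (-1 - t i) ^ x i := by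
      rw [← Finset.prod_mul_distrib]
      refine Finset.prod_congr rfl fun i _ => ?_
      rw [ht1 i, mul_pow]
    rw [h2, hw1, mul_pow]
    ring
  have hbase : (∏ i, r i ^ k' i) * u ^ s' = ζ := by
    rw [hPc, hu]
    field_simp
  have hmult : ∀ j : ℕ, (∏ i, r i ^ (k' i * j)) * u ^ (s' * j) = ζ ^ j := by
    intro j
    rw [← hbase, mul_pow, ← Finset.prod_pow, pow_mul]
    congr 1
    exact Finset.prod_congr rfl fun i _ => pow_mul _ _ _
  refine ⟨t, w, ⟨?_, ?_, ?_⟩, ?_, ?_, ?_, ?_, ?_⟩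
  · intro i h
    have h1 := ht1 i
    rw [h, sub_self] at h1
    rcases mul_eq_zero.1 h1.symm with h2 | h2
    · exact hr0 i h2
    · exact ht2 i (by rw [h]; exact h2)
  · intro i h
    apply ht2 i
    rw [h]
    ring
  · intro i j hij
    beta_reduce at hij
    rw [hy, hy] at hij
    exact tokE_od_inj (by exact_mod_cast hij)
  · intro i h
    have h1 : u = r i := by
      have h2 : (1 + u) / (1 - u) = (1 + r i) / (1 - r i) := by
        rw [← hw]
        exact h
      rw [div_eq_div_iff hu1 (hrm i)] at h2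
      linear_combination h2 / 2
    have h3 := hrn i
    rw [← h1] at h3
    linarith
  · intro h
    rw [h, sub_self] at hw1
    rcases mul_eq_zero.1 hw1.symm with h2 | h2
    · exact hu0 h2
    · exact hw2 (by rw [h]; exact h2)
  · intro h
    apply hw2
    rw [h]
    ring
  · rw [hprod]
    have h1 : (∏ i, r i ^ k i) * u ^ s = 1 := by
      have h2 := hmult g
      rw [hζ.pow_eq_one] at h2
      rw [← h2]
      congr 1
      · exact Finset.prod_congr rfl fun i _ => by rw [hgk i, mul_comm]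
      · rw [hgs, mul_comm]
    rw [h1, one_mul]
  · intro x y a _ hys hsum hrel
    rw [hprod] at hrel
    have h3 : (∏ i, (-1 - t i) ^ x i) * (-1 - w) ^ y ≠ 0 :=
      mul_ne_zero (Finset.prod_ne_zero_iff.2 fun i _ => pow_ne_zero _ (ht2 i)) (pow_ne_zero _ hw2)
    have h1 : (∏ i, r i ^ x i) * u ^ y = 1 := mul_right_cancel₀ h3 (by rw [hrel, one_mul])
    have h2 : (∏ i, tokE_pr i ^ (s' * x i) : ℕ) = ∏ i, tokE_pr i ^ (k' i * y) := by
      have h4 := congrArg norm h1
      rw [norm_mul, norm_prod, norm_pow, norm_one] at h4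
      have h5 : ∏ i, ‖r i ^ x i‖ = ((∏ i, tokE_pr i ^ x i : ℕ) : ℝ) := by
        push_cast
        refine Finset.prod_congr rfl fun i _ => ?_
        rw [norm_pow]
        change ‖(tokE_pr i : ℂ)‖ ^ x i = _
        rw [Complex.norm_natCast]
      rw [h5] at h4
      have h6 : ((∏ i, tokE_pr i ^ x i : ℕ) : ℝ) ^ s' = (P : ℝ) ^ y := by
        have h7 : (((∏ i, tokE_pr i ^ x i : ℕ) : ℝ) * ‖u‖ ^ y) ^ s' * (P : ℝ) ^ y = (P : ℝ) ^ y := by
          rw [h4, one_pow, one_mul]
        have h8 : (((∏ i, tokE_pr i ^ x i : ℕ) : ℝ) * ‖u‖ ^ y) ^ s' * (P : ℝ) ^ y =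
            ((∏ i, tokE_pr i ^ x i : ℕ) : ℝ) ^ s' * (‖u‖ ^ s' * P) ^ y := by
          rw [mul_pow, mul_pow, ← pow_mul, ← pow_mul, mul_comm y s']
          ring
        rw [h8, hun, one_pow, mul_one] at h7
        exact h7
      have h9 : (∏ i, tokE_pr i ^ x i) ^ s' = P ^ y := by exact_mod_cast h6
      change _ = (∏ i, tokE_pr i ^ k' i) ^ y at h9
      rw [← Finset.prod_pow, ← Finset.prod_pow] at h9
      have h10 : (∏ i, (tokE_pr i ^ x i) ^ s' : ℕ) = ∏ i, tokE_pr i ^ (s' * x i) :=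
        Finset.prod_congr rfl fun i _ => by rw [← pow_mul, mul_comm]
      have h11 : (∏ i, (tokE_pr i ^ k' i) ^ y : ℕ) = ∏ i, tokE_pr i ^ (k' i * y) :=
        Finset.prod_congr rfl fun i _ => by rw [← pow_mul]
      rw [← h10, h9, h11]
    have h4 : ∀ i, s' * x i = k' i * y := fun i => congrFun (tokE_pow_inj _ _ h2) i
    have h5 : s' * a = d * y := by
      have h6 : 3 * (s' * a) = 3 * (d * y) := by
        calc 3 * (s' * a) = s' * (3 * a) := by ring
          _ = s' * (∑ i, x i + y) := by rw [hsum]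
          _ = ∑ i, s' * x i + s' * y := by rw [mul_add, Finset.mul_sum]
          _ = ∑ i, k' i * y + s' * y := by rw [Finset.sum_congr rfl fun i _ => h4 i]
          _ = (∑ i, k' i + s') * y := by rw [add_mul, Finset.sum_mul]
          _ = 3 * (d * y) := by rw [← hd']; ring
      omega
    obtain ⟨j, hj⟩ := hcop y (fun i => ⟨x i, (h4 i).symm⟩) ⟨a, h5.symm⟩
    have hx : ∀ i, x i = k' i * j := by
      intro i
      apply Nat.eq_of_mul_eq_mul_left (show 0 < s' by omega)
      rw [h4 i, hj]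
      ring
    have ha : a = d * j := by
      apply Nat.eq_of_mul_eq_mul_left (show 0 < s' by omega)
      rw [h5, hj]
      ring
    have hζj : ζ ^ j = 1 := by
      rw [← hmult j, ← h1]
      congr 1
      · exact Finset.prod_congr rfl fun i _ => by rw [hx i]
      · rw [hj]
    obtain ⟨c, hc⟩ := hζ.dvd_of_pow_eq_one j hζj
    have hjg : j ≤ g := by
      rw [hj, hgs, mul_comm g s'] at hys
      exact Nat.le_of_mul_le_mul_left hys (by omega)
    rcases Nat.lt_or_ge c 1 with h6 | h6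
    · left
      have : c = 0 := by omega
      rw [ha, hc, this, mul_zero, mul_zero]
    · right
      have h7 : g ≤ j := by
        rw [hc]
        exact Nat.le_mul_of_pos_right g h6
      rw [ha, hgd, le_antisymm hjg h7, mul_comm]

end Pool.Agent.Lib.MP_6b2d39_agVn
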