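import Pool.Agent.Lib.MP_6b2d39_agVn.Surj
import Pool.Agent.Lib.MP_6b2d39_agVn.TokE

/-!
Existence of the curve in the class `3 c`.

PROOF. `d = 3 • c`, `δ = dg d = 3 dg c`, `k = mu d`, `s = sg d = 3 sg c`. `exists_tok` gives `t`, `w`. The polynomial
`q = (∏ (X - C (t i)) ^ k i) * (X - C w) ^ s` is in `RowSp (3 δ) t k` (degree `∑ k i + s = 3 δ`, gluing = `Tok.rel`). `surj` with:
`δ ≥ 3`; `k 0 < δ` (some `c i ≥ 1` with `i ≠ 1`); `k 2 = 0` or `∑ (k i - 1) < 3 (δ - 3)`: let `J ≥ 3` be the last index with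
`c J ≥ 1`: `∑ (k i - 1) = ∑ k i - J`, `3 (δ - 3) - ∑ (k i - 1) = s - 9 + J`, and `s = 3 sg c ≥ 3 (9 - J) > 9 - J` if `J < 9`,
`s ≥ 1` if `J = 9` (distinguish which of `c 9, c 8, …, c 3` is the first one that is not zero; omega).
`dim`: `pr d d = 9 pr c c ≥ 9` since some `c i ≥ 1` with `i ≠ 1, 9`, or `c 1, c 9 ≥ 1`.
-/

open Polynomial

set_option autoImplicit false

namespace Pool.Agent.Lib.MP_6b2d39_agVn

open Pool.Agent.Lib.MP_6b2d39_ag Pool.Agent.Lib.MP_6b2d39_agHal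

private theorem ce_gr {c : Fin 10 → ℕ} {i : Fin 10} (h1 : i ≠ 1) (h9 : i ≠ 9) (hc : 1 ≤ c i) :
    1 ≤ gr c i := by
  fin_cases i <;> simp [gr] at h1 h9 hc ⊢ <;> omega

private theorem ce_pr {c : Fin 10 → ℕ} (h9 : ∃ i, i ≠ 9 ∧ 1 ≤ c i) (h1 : ∃ i, i ≠ 1 ∧ 1 ≤ c i) :
    1 ≤ pr c c := by
  have key : ∃ l, 1 ≤ c l ∧ 1 ≤ gr c l := by
    obtain ⟨i, hi, hci⟩ := h9
    obtain ⟨j, hj, hcj⟩ := h1
    by_cases hi1 : i = 1
    · by_cases hj9 : j = 9
      · subst hi1 hj9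
        refine ⟨1, hci, ?_⟩
        have h : gr c 1 = c 0 + c 2 + 2 * (c 3 + c 4 + c 5 + c 6 + c 7 + c 8 + c 9) := rfl
        rw [h]
        omega
      · exact ⟨j, hcj, ce_gr hj hj9 hcj⟩
    · exact ⟨i, hci, ce_gr hi1 hi hci⟩
  obtain ⟨l, h2, h3⟩ := key
  have h4 : c l * gr c l ≤ pr c c :=
    Finset.single_le_sum (f := fun j => c j * gr c j) (fun _ _ => Nat.zero_le _)
      (Finset.mem_univ l)
  have h5 : 1 * 1 ≤ c l * gr c l := Nat.mul_le_mul h2 h3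
  omega

private theorem ce_sg {c : Fin 10 → ℕ} (h9 : ∃ i, i ≠ 9 ∧ 1 ≤ c i) : 1 ≤ sg c := by
  obtain ⟨i, hi, hci⟩ := h9
  unfold sg
  fin_cases i <;> simp at hi hci ⊢ <;> omega

private theorem ce_dg {c : Fin 10 → ℕ} (h9 : ∃ i, i ≠ 9 ∧ 1 ≤ c i) : 1 ≤ dg c := by
  obtain ⟨i, hi, hci⟩ := h9
  unfold dg
  fin_cases i <;> simp at hi hci ⊢ <;> omega

private theorem ce_mu {c : Fin 10 → ℕ} (h1 : ∃ i, i ≠ 1 ∧ 1 ≤ c i) : mu c 0 < dg c := by
  obtain ⟨i, hi, hci⟩ := h1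
  have h : mu c 0 = c 1 + c 2 + c 3 + c 4 + c 5 + c 6 + c 7 + c 8 + c 9 := rfl
  rw [h]
  unfold dg
  fin_cases i <;> simp at hi hci ⊢ <;> omega

private theorem ce_two {c : Fin 10 → ℕ} (hs : 1 ≤ sg c) :
    3 * mu c 2 = 0 ∨ ∑ i, (3 * mu c i - 1) < 3 * (3 * dg c - 3) := by
  by_cases h : mu c 2 = 0
  · left
    rw [h]
  · right
    have h2 : mu c 2 = c 3 + c 4 + c 5 + c 6 + c 7 + c 8 + c 9 := rfl
    have hsum : ∑ i, (3 * mu c i - 1) =
        (3 * (c 1 + c 2 + c 3 + c 4 + c 5 + c 6 + c 7 + c 8 + c 9) - 1) +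
        (3 * (c 2 + c 3 + c 4 + c 5 + c 6 + c 7 + c 8 + c 9) - 1) +
        (3 * (c 3 + c 4 + c 5 + c 6 + c 7 + c 8 + c 9) - 1) +
        (3 * (c 4 + c 5 + c 6 + c 7 + c 8 + c 9) - 1) +
        (3 * (c 5 + c 6 + c 7 + c 8 + c 9) - 1) +
        (3 * (c 6 + c 7 + c 8 + c 9) - 1) +
        (3 * (c 7 + c 8 + c 9) - 1) + (3 * (c 8 + c 9) - 1) + (3 * c 9 - 1) := by
      simp [mu, Fin.sum_univ_succ]
      omega
    rw [hsum]
    unfold sg at hs
    unfold dg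
    rw [h2] at h
    generalize c 0 = x0 at *
    generalize c 1 = x1 at *
    generalize c 2 = x2 at *
    generalize c 3 = x3 at *
    generalize c 4 = x4 at *
    generalize c 5 = x5 at *
    generalize c 6 = x6 at *
    generalize c 7 = x7 at *
    generalize c 8 = x8 at *
    generalize c 9 = x9 at *
    rcases Nat.eq_zero_or_pos x9 with h9 | h9
    · subst h9
      rcases Nat.eq_zero_or_pos x8 with h8 | h8
      · subst h8
        rcases Nat.eq_zero_or_pos x7 with h7 | h7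
        · subst h7
          rcases Nat.eq_zero_or_pos x6 with h6 | h6
          · subst h6
            rcases Nat.eq_zero_or_pos x5 with h5 | h5
            · subst h5
              rcases Nat.eq_zero_or_pos x4 with h4 | h4
              · subst h4
                omega
              · omega
            · omega
          · omega
        · omega
      · omega
    · omega

theorem exists_cur {c : Fin 10 → ℕ} (h9 : ∃ i, i ≠ 9 ∧ 1 ≤ c i) (h1 : ∃ i, i ≠ 1 ∧ 1 ≤ c i) :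
    ∃ (t : Fin 9 → ℂ) (w : ℂ) (G : ℂ[X][X]), Cur (3 • c) t w G := by
  have hdg : dg (3 • c) = 3 * dg c := dg_smul 3 c
  have hsg : sg (3 • c) = 3 * sg c := sg_smul 3 c
  have hmu : ∀ i, mu (3 • c) i = 3 * mu c i := fun i => by
    rw [mu_smul 3 c]
    simp
  have hd1 := ce_dg h9
  have hs1 := ce_sg h9
  have hm1 := ce_mu h1
  have hp1 := ce_pr h9 h1
  have hpr : pr (3 • c) (3 • c) = 9 * pr c c := by
    rw [pr_smul, pr_symm, pr_smul]
    ring
  obtain ⟨t, w, ht⟩ := exists_tok (δ := dg (3 • c)) (s := sg (3 • c)) (k := mu (3 • c))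
    (by omega) (by omega) (om_deg (3 • c))
  set q : ℂ[X] := (∏ i, (X - C (t i)) ^ mu (3 • c) i) * (X - C w) ^ sg (3 • c) with hq
  have hqm : q ∈ RowSp (3 * dg (3 • c)) t (mu (3 • c)) := by
    refine ⟨?_, Dvd.intro _ rfl, ?_⟩
    · rw [om_deg (3 • c)]
      refine natDegree_mul_le.trans (Nat.add_le_add ?_ ?_)
      · refine (natDegree_prod_le _ _).trans (Finset.sum_le_sum fun i _ => ?_)
        refine natDegree_pow_le.trans ?_
        rw [natDegree_X_sub_C, mul_one]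
      · refine natDegree_pow_le.trans ?_
        rw [natDegree_X_sub_C, mul_one]
    · simp only [hq, eval_mul, eval_prod, eval_pow, eval_sub, eval_X, eval_C]
      exact ht.rel
  obtain ⟨F, hF, hres⟩ := surj (δ := dg (3 • c)) (s := sg (3 • c)) (k := mu (3 • c)) ht.par
    (om_anti (3 • c)) (om_red (3 • c)) (om_deg (3 • c)) (by omega) (by omega)
    (by rw [hmu, hdg]; omega)
    (by
      have h := ce_two hs1
      simp only [hmu, hdg]
      exact h) hqm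
  exact ⟨t, w, F, ⟨by omega, by omega, by omega, ht, hF, ⟨1, one_ne_zero, by
    rw [hres, hq, C_1, one_mul]⟩⟩⟩

end Pool.Agent.Lib.MP_6b2d39_agVn
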