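import Pool.Agent.Lib.MP_6b2d39_agVn.RowsV
import Pool.Agent.Lib.MP_6b2d39_agVn.CurE

/-!
Light points kill the system `a` (first case).

PROOF. `exists_cur`, `Cur.rows` with `d = 3 • c`, `fillable_of_long`, `emp_of_fillable` (`mass` in the hypothesis), `diagram` with `f = G`,
`n = H` (`Sp` is finite dimensional, see `core_exact` in `Ten/Exact.lean`).
-/

open Polynomial

set_option autoImplicit false

namespace Pool.Agent.Lib.MP_6b2d39_agVn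

open Pool.Agent.Lib.MP_6b2d39_ag Pool.Agent.Lib.MP_6b2d39_agHal Pool.Agent.Lib.MP_6b2d39_agNf
  Pool.Agent.Lib.MP_6b2d39_agWin Pool.Agent.Lib.MP_6b2d39_agNw

theorem core_one {M : ℕ} (hM : 1 ≤ M) {c a a' : Fin 10 → ℕ} (h9 : ∃ i, i ≠ 9 ∧ 1 ≤ c i)
    (h1 : ∃ i, i ≠ 1 ∧ 1 ≤ c i) (ha : a = a' + (2 * M + 2) • (3 • c)) (hs : 1 ≤ sg a')
    (hlow : 9 * M ^ 2 + 2 * M ≤ pr a' (3 • c)) {ι : Type} [Fintype ι] [DecidableEq ι]
    {l : ι → ℕ} {J : Finset ι} (hJ : ∀ j ∈ J, l j ≤ M)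
    (hmass : (dg a + 2).choose 2 ≤ ∑ i, (mu a i + 1).choose 2 + mass l J) :
    ∃ (p : Fin 9 → ℂ × ℂ) (x y : ι → ℂ), ∀ F ∈ Sp (dg a + 1) p (mu a),
      (∀ i ∈ J, Cond (Finset.Icc 1 (l i)) (x i) (y i) F) → F = 0 := by
  obtain ⟨t, w, G, hG⟩ := exists_cur h9 h1
  obtain ⟨H, r, hl, hrow, htop, hsum⟩ := hG.rows hM ha hs hlow
  have hE : EmpP (dgm r H) l J := emp_of_fillable (fillable_of_long hl) hM hJ (by omega)
  obtain ⟨x, y, hxy⟩ := diagram (f := G) hG.irr hG.natDegree hG.dep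
    (W := Sp (dg a + 1) (fun i => gam (t i)) (mu a)) (n := H) (r := r) hrow htop hE
  exact ⟨fun i => gam (t i), x, y, hxy⟩

end Pool.Agent.Lib.MP_6b2d39_agVn
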