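import Pool.Agent.Lib.MP_6b2d39_agVn.Om

/-!
Exact degree and multiplicities of the curve.

PROOF (as in `Hal/IrrA.lean`). `res G` has degree `∑ mu d i + sg d = 3 dg d` (`om_deg`), so `G` is not of total degree
`< dg d` (`natDegree_res`); the multiplicity of the root `t i` of `res G` is `mu d i` (`w ≠ t i`, `Tok.ne`; `mult_res`).
`dvd_ten`: a divisor of `(∏ (X - C (t i)) ^ k i) * (X - C w) ^ s` (compare `dvd_prod_lin`).
-/

open Polynomial

set_option autoImplicit false

namespace Pool.Agent.Lib.MP_6b2d39_agVn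

open Pool.Agent.Lib.MP_6b2d39_ag Pool.Agent.Lib.MP_6b2d39_agHal

variable {d : Fin 10 → ℕ} {t : Fin 9 → ℂ} {w : ℂ} {G : ℂ[X][X]}

private theorem cura_ne9 (t : Fin 9 → ℂ) (k : Fin 9 → ℕ) :
    (∏ i, (X - C (t i)) ^ k i : ℂ[X]) ≠ 0 :=
  Finset.prod_ne_zero_iff.2 fun i _ => pow_ne_zero _ (X_sub_C_ne_zero (t i))

private theorem cura_ne (t : Fin 9 → ℂ) (w : ℂ) (k : Fin 9 → ℕ) (s : ℕ) :
    ((∏ i, (X - C (t i)) ^ k i) * (X - C w) ^ s : ℂ[X]) ≠ 0 :=
  mul_ne_zero (cura_ne9 t k) (pow_ne_zero _ (X_sub_C_ne_zero w))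

private theorem cura_count9 {t : Fin 9 → ℂ} (ht : Function.Injective t) (k : Fin 9 → ℕ)
    (i : Fin 9) : (∏ j, (X - C (t j)) ^ k j : ℂ[X]).roots.count (t i) = k i := by
  rw [roots_prod _ _ (cura_ne9 t k), Multiset.count_bind]
  have h1 : ∀ j : Fin 9, Multiset.count (t i) ((X - C (t j)) ^ k j : ℂ[X]).roots =
      if j = i then k j else 0 := by
    intro j
    rw [roots_pow, roots_X_sub_C, Multiset.count_nsmul, Multiset.count_singleton]
    by_cases h : j = i
    · rw [if_pos h, if_pos (by rw [h]), mul_one]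
    · rw [if_neg h, if_neg (fun h2 => h (ht h2).symm), mul_zero]
  have h2 : (Multiset.map (fun j => Multiset.count (t i) ((X - C (t j)) ^ k j : ℂ[X]).roots)
      (Finset.univ : Finset (Fin 9)).val).sum = ∑ j : Fin 9, if j = i then k j else 0 := by
    rw [Multiset.map_congr rfl fun j _ => h1 j]
    rfl
  rw [h2, Finset.sum_ite_eq' Finset.univ i, if_pos (Finset.mem_univ i)]

private theorem cura_count9w {t : Fin 9 → ℂ} {w : ℂ} (hw : ∀ i, w ≠ t i) (k : Fin 9 → ℕ) :
    (∏ j, (X - C (t j)) ^ k j : ℂ[X]).roots.count w = 0 := by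
  rw [roots_prod _ _ (cura_ne9 t k), Multiset.count_bind]
  have h1 : ∀ j : Fin 9, Multiset.count w ((X - C (t j)) ^ k j : ℂ[X]).roots = 0 := by
    intro j
    rw [roots_pow, roots_X_sub_C, Multiset.count_nsmul, Multiset.count_singleton,
      if_neg (hw j), mul_zero]
  have h2 : (Multiset.map (fun j => Multiset.count w ((X - C (t j)) ^ k j : ℂ[X]).roots)
      (Finset.univ : Finset (Fin 9)).val).sum = ∑ j : Fin 9, 0 := by
    rw [Multiset.map_congr rfl fun j _ => h1 j]
    rfl
  rw [h2, Finset.sum_const_zero]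

private theorem cura_count {t : Fin 9 → ℂ} (ht : Function.Injective t) {w : ℂ}
    (hw : ∀ i, w ≠ t i) (k : Fin 9 → ℕ) (s : ℕ) (i : Fin 9) :
    ((∏ j, (X - C (t j)) ^ k j) * (X - C w) ^ s : ℂ[X]).roots.count (t i) = k i := by
  rw [roots_mul (cura_ne t w k s), Multiset.count_add, cura_count9 ht, roots_pow, roots_X_sub_C,
    Multiset.count_nsmul, Multiset.count_singleton, if_neg (hw i).symm, mul_zero, add_zero]

private theorem cura_countw {t : Fin 9 → ℂ} {w : ℂ}
    (hw : ∀ i, w ≠ t i) (k : Fin 9 → ℕ) (s : ℕ) :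
    ((∏ j, (X - C (t j)) ^ k j) * (X - C w) ^ s : ℂ[X]).roots.count w = s := by
  rw [roots_mul (cura_ne t w k s), Multiset.count_add, cura_count9w hw, roots_pow, roots_X_sub_C,
    Multiset.count_nsmul, Multiset.count_singleton, if_pos rfl, mul_one, zero_add]

private theorem cura_deg (t : Fin 9 → ℂ) (w : ℂ) (k : Fin 9 → ℕ) (s : ℕ) :
    ((∏ j, (X - C (t j)) ^ k j) * (X - C w) ^ s : ℂ[X]).natDegree = ∑ i, k i + s := by
  rw [natDegree_mul (cura_ne9 t k) (pow_ne_zero _ (X_sub_C_ne_zero w)),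
    natDegree_prod _ _ fun i _ => pow_ne_zero _ (X_sub_C_ne_zero (t i)), natDegree_pow,
    natDegree_X_sub_C, mul_one]
  have h4 : ∀ i ∈ (Finset.univ : Finset (Fin 9)), ((X - C (t i)) ^ k i : ℂ[X]).natDegree = k i := by
    intro i _
    rw [natDegree_pow, natDegree_X_sub_C, mul_one]
  rw [Finset.sum_congr rfl h4]

theorem dvd_ten {t : Fin 9 → ℂ} (ht : Function.Injective t) {w : ℂ} (hw : ∀ i, w ≠ t i)
    {k : Fin 9 → ℕ} {s : ℕ} {A : ℂ[X]} (h : A ∣ (∏ i, (X - C (t i)) ^ k i) * (X - C w) ^ s) :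
    ∃ (c : ℂ) (x : Fin 9 → ℕ) (y : ℕ), c ≠ 0 ∧ (∀ i, x i ≤ k i) ∧ y ≤ s ∧
      A = C c * ((∏ i, (X - C (t i)) ^ x i) * (X - C w) ^ y) := by
  classical
  have hP := cura_ne t w k s
  have hA : A ≠ 0 := fun h0 => hP (by rw [h0] at h; exact zero_dvd_iff.1 h)
  have hle : A.roots ≤ ((∏ j, (X - C (t j)) ^ k j) * (X - C w) ^ s : ℂ[X]).roots :=
    roots.le_of_dvd hP h
  refine ⟨A.leadingCoeff, fun i => A.roots.count (t i), A.roots.count w,
    leadingCoeff_ne_zero.2 hA, fun i => ?_, ?_, ?_⟩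
  · exact le_of_le_of_eq (Multiset.count_le_of_le _ hle) (cura_count ht hw k s i)
  · exact le_of_le_of_eq (Multiset.count_le_of_le _ hle) (cura_countw hw k s)
  · have hs : (A.roots.map fun a => X - C a).prod =
        (∏ i, (X - C (t i)) ^ A.roots.count (t i)) * (X - C w) ^ A.roots.count w := by
      rw [Finset.prod_multiset_map_count]
      have h1 : A.roots.toFinset ⊆ insert w (Finset.univ.image t) := by
        intro a ha
        rw [Multiset.mem_toFinset] at ha
        have h2 := Multiset.mem_of_le hle ha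
        rw [mem_roots hP, IsRoot.def, eval_mul, eval_prod] at h2
        rcases mul_eq_zero.1 h2 with h2 | h2
        · obtain ⟨i, -, hi⟩ := Finset.prod_eq_zero_iff.1 h2
          rw [eval_pow, eval_sub, eval_X, eval_C] at hi
          have h3 : a - t i = 0 := by
            by_contra hne
            exact absurd hi (pow_ne_zero _ hne)
          exact Finset.mem_insert_of_mem
            (Finset.mem_image.2 ⟨i, Finset.mem_univ _, (sub_eq_zero.1 h3).symm⟩)
        · rw [eval_pow, eval_sub, eval_X, eval_C] at h2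
          have h3 : a - w = 0 := by
            by_contra hne
            exact absurd h2 (pow_ne_zero _ hne)
          rw [sub_eq_zero.1 h3]
          exact Finset.mem_insert_self _ _
      have h5 : w ∉ Finset.univ.image t := by
        intro h6
        obtain ⟨i, -, hi⟩ := Finset.mem_image.1 h6
        exact hw i hi.symm
      rw [Finset.prod_subset h1 fun a _ ha => by
        rw [Multiset.mem_toFinset] at ha
        rw [Multiset.count_eq_zero.2 ha, pow_zero], Finset.prod_insert h5,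
        Finset.prod_image fun i _ j _ hij => ht hij, mul_comm]
    rw [← hs]
    exact ((IsAlgClosed.splits A).eq_prod_roots)

theorem Cur.ne_zero (h : Cur d t w G) : G ≠ 0 := by
  rintro rfl
  obtain ⟨c, hc, hr⟩ := h.res
  rw [map_zero] at hr
  exact mul_ne_zero (C_ne_zero.2 hc) (cura_ne t w (mu d) (sg d)) hr.symm

theorem Cur.not_inV (h : Cur d t w G) : ¬ InV (dg d) G := by
  intro hI
  obtain ⟨c, hc, hr⟩ := h.res
  have hN := h.deg
  have h1 : dg d = (dg d - 1) + 1 := by omega
  rw [h1] at hI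
  have h2 := natDegree_res hI
  have h3 := om_deg d
  rw [hr, natDegree_C_mul hc, cura_deg] at h2
  omega

theorem Cur.not_mult (h : Cur d t w G) (i : Fin 9) : ¬ Mult (mu d i + 1) (gam (t i)) G := by
  classical
  intro hm
  obtain ⟨c, hc, hr⟩ := h.res
  have h1 := mult_res hm
  have h0 : Pool.Agent.Lib.MP_6b2d39_agHal.res G ≠ 0 := by
    rw [hr]
    exact mul_ne_zero (C_ne_zero.2 hc) (cura_ne t w (mu d) (sg d))
  have h2 := (le_rootMultiplicity_iff h0).2 h1
  rw [← count_roots, hr, roots_C_mul _ hc, cura_count h.tok.par.inj h.tok.ne] at h2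
  omega

end Pool.Agent.Lib.MP_6b2d39_agVn
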