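import Pool.Agent.Lib.MP_6b2d39_agVn.CurA

/-!
The curve is irreducible.

PROOF (as `Hal.irr`, `Hal.natDegree`, `Hal.dep` in `Hal/IrrB.lean`). `G = A B`, `a`, `b` the exact total degrees, `a + b ≤ dg d`;
`natDegree (res A) ≤ 3 a`, `natDegree (res B) ≤ 3 b` and their sum is `3 dg d`, so `natDegree (res A) = 3 a`;
`res A = C c (∏ (X - C (t i)) ^ x i) (X - C w) ^ y` (`dvd_ten`), `∑ x i + y = 3 a`, gluing (`res_glue`) and `Tok.rels`: `a = 0` or
`a = dg d`, so `A` or `B` is a constant. `natDegree`, `dep`: an irreducible polynomial in one variable has degree one, but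
`¬ InV 3 G` (`3 ≤ dg d`).
-/

open Polynomial

set_option autoImplicit false

namespace Pool.Agent.Lib.MP_6b2d39_agVn

open Pool.Agent.Lib.MP_6b2d39_ag Pool.Agent.Lib.MP_6b2d39_agHal

variable {d : Fin 10 → ℕ} {t : Fin 9 → ℂ} {w : ℂ} {G : ℂ[X][X]}

/-- A polynomial of total degree `0` is a constant. -/
private theorem curi_isUnit {A : ℂ[X][X]} (h0 : A ≠ 0) (h : InV 1 A) : IsUnit A := by
  have h1 : A = C (C ((A.coeff 0).coeff 0)) := by
    ext i j
    rcases Nat.eq_zero_or_pos i with hi | hi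
    · subst hi
      rw [coeff_C_zero]
      rcases Nat.eq_zero_or_pos j with hj | hj
      · subst hj
        rw [coeff_C_zero]
      · rw [h 0 j (by omega), coeff_C_of_ne_zero (by omega)]
    · rw [h i j (by omega), coeff_C_of_ne_zero (by omega), coeff_zero]
  have h2 : (A.coeff 0).coeff 0 ≠ 0 := by
    intro h3
    rw [h3, map_zero, map_zero] at h1
    exact h0 h1
  rw [h1, isUnit_C, isUnit_C]
  exact isUnit_iff_ne_zero.2 h2

/-- The exact total degree. -/
private theorem curi_deg {A : ℂ[X][X]} (h0 : A ≠ 0) : ∃ a, ¬ InV a A ∧ InV (a + 1) A := by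
  classical
  have hex : ∃ n, InV n A := exists_inV A
  have h1 := Nat.find_spec hex
  rcases Nat.eq_zero_or_pos (Nat.find hex) with h2 | h2
  · rw [h2] at h1
    exact absurd (InV_zero h1) h0
  · refine ⟨Nat.find hex - 1, Nat.find_min hex (by omega), ?_⟩
    rw [Nat.sub_add_cancel h2]
    exact h1

private theorem curi_lin (t : Fin 9 → ℂ) (w : ℂ) (x : Fin 9 → ℕ) (y : ℕ) {c : ℂ} (hc : c ≠ 0) :
    (C c * ((∏ i, (X - C (t i)) ^ x i) * (X - C w) ^ y)).natDegree = ∑ i, x i + y := by
  have h9 : (∏ i, (X - C (t i)) ^ x i : ℂ[X]) ≠ 0 :=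
    Finset.prod_ne_zero_iff.2 fun i _ => pow_ne_zero _ (X_sub_C_ne_zero (t i))
  rw [natDegree_C_mul hc, natDegree_mul h9 (pow_ne_zero _ (X_sub_C_ne_zero w)),
    natDegree_prod _ _ fun i _ => pow_ne_zero _ (X_sub_C_ne_zero _), natDegree_pow,
    natDegree_X_sub_C, mul_one]
  congr 1
  exact Finset.sum_congr rfl fun i _ => by rw [natDegree_pow, natDegree_X_sub_C, mul_one]

/-- one factor -/
private theorem curi_fac (h : Cur d t w G) {A B : ℂ[X][X]} {a : ℕ} (hAB : G = A * B)
    (hd : (MP_6b2d39_agHal.res A).natDegree = 3 * a) : a = 0 ∨ a = dg d := by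
  obtain ⟨c, hc, hres⟩ := h.res
  have h1 : MP_6b2d39_agHal.res A ∣ (∏ i, (X - C (t i)) ^ mu d i) * (X - C w) ^ sg d := by
    have h2 : MP_6b2d39_agHal.res A ∣
        C c * ((∏ i, (X - C (t i)) ^ mu d i) * (X - C w) ^ sg d) := by
      rw [← hres, hAB, map_mul]
      exact dvd_mul_right _ _
    have h3 : IsUnit (C c : ℂ[X]) := isUnit_C.2 (isUnit_iff_ne_zero.2 hc)
    exact (h3.dvd_mul_left).1 h2
  obtain ⟨c', x, y, hc', hx, hy, hA⟩ := dvd_ten h.tok.par.inj h.tok.ne h1
  have h2 := res_glue A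
  rw [hA, eval_mul, eval_mul, eval_mul, eval_mul, eval_C, eval_C, eval_prod, eval_prod] at h2
  simp only [eval_pow, eval_sub, eval_X, eval_C] at h2
  have h3 := mul_left_cancel₀ hc' h2
  rw [hA, curi_lin t w x y hc'] at hd
  exact h.tok.rels x y a hx hy hd h3

theorem Cur.irr (h : Cur d t w G) : Irreducible G := by
  have hG0 : G ≠ 0 := h.ne_zero
  obtain ⟨c, hc, hres⟩ := h.res
  have hN := h.deg
  have hdeg : (MP_6b2d39_agHal.res G).natDegree = 3 * dg d := by
    rw [hres, curi_lin t w (mu d) (sg d) hc, om_deg]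
  refine ⟨fun hu => ?_, fun A B hAB => ?_⟩
  · have h1 : IsUnit (MP_6b2d39_agHal.res G) := hu.map MP_6b2d39_agHal.res
    rw [natDegree_eq_zero_of_isUnit h1] at hdeg
    omega
  · have hA0 : A ≠ 0 := by
      rintro rfl
      rw [zero_mul] at hAB
      exact hG0 hAB
    have hB0 : B ≠ 0 := by
      rintro rfl
      rw [mul_zero] at hAB
      exact hG0 hAB
    obtain ⟨a, ha, ha'⟩ := curi_deg hA0
    obtain ⟨b, hb, hb'⟩ := curi_deg hB0
    have hab : a + b ≤ dg d := by
      by_contra hcon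
      push Not at hcon
      have h1 : InV (dg d + 1) (A * B) := by
        rw [← hAB]
        exact h.mem.1
      exact hb (inV_cancel ha (inV_mono hcon h1))
    have h1 := natDegree_res ha'
    have h2 := natDegree_res hb'
    have hresAB : MP_6b2d39_agHal.res A * MP_6b2d39_agHal.res B = MP_6b2d39_agHal.res G := by
      rw [hAB, map_mul]
    have hres0 : MP_6b2d39_agHal.res G ≠ 0 := by
      intro h3
      rw [h3, natDegree_zero] at hdeg
      omega
    have hrA : MP_6b2d39_agHal.res A ≠ 0 := by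
      intro h3
      rw [h3, zero_mul] at hresAB
      exact hres0 hresAB.symm
    have hrB : MP_6b2d39_agHal.res B ≠ 0 := by
      intro h3
      rw [h3, mul_zero] at hresAB
      exact hres0 hresAB.symm
    have h3 := natDegree_mul hrA hrB
    rw [hresAB, hdeg] at h3
    rcases curi_fac (a := a) h hAB (by omega) with h4 | h4
    · left
      subst h4
      exact curi_isUnit hA0 ha'
    · right
      have h5 : b = 0 := by omega
      subst h5
      exact curi_isUnit hB0 hb'

theorem Cur.natDegree (h : Cur d t w G) : G.natDegree ≠ 0 := by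
  intro h0
  obtain ⟨g, hg⟩ : ∃ g : ℂ[X], G = C g := ⟨G.coeff 0, eq_C_of_natDegree_eq_zero h0⟩
  have hirr := h.irr
  rw [hg] at hirr
  have h1 : Irreducible g := by
    refine ⟨fun hu => hirr.1 (isUnit_C.2 hu), fun a b hab => ?_⟩
    have h2 := hirr.2 (a := C a) (b := C b) (by rw [hab, C_mul])
    exact h2.imp isUnit_C.1 isUnit_C.1
  have h2 := IsAlgClosed.degree_eq_one_of_irreducible ℂ h1
  have h3 : g.natDegree = 1 := natDegree_eq_of_degree_eq_some h2
  apply h.not_inV
  intro a b hab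
  have hN := h.deg
  rw [hg]
  rcases Nat.eq_zero_or_pos a with ha | ha
  · subst ha
    rw [coeff_C_zero]
    exact coeff_eq_zero_of_natDegree_lt (by omega)
  · rw [coeff_C_of_ne_zero (by omega), coeff_zero]

theorem Cur.dep (h : Cur d t w G) : ∃ i, (G.coeff i).natDegree ≠ 0 := by
  by_contra hcon
  push Not at hcon
  have hmap : ∀ f : ℂ[X], (f.map (C : ℂ →+* ℂ[X])).map (evalRingHom (0 : ℂ)) = f := by
    intro f
    rw [Polynomial.map_map]
    have h1 : (evalRingHom (0 : ℂ)).comp (C : ℂ →+* ℂ[X]) = RingHom.id ℂ := by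
      ext x
      simp
    rw [h1, Polynomial.map_id]
  obtain ⟨f, hf⟩ : ∃ f : ℂ[X], G = f.map C := by
    refine ⟨G.map (evalRingHom (0 : ℂ)), ?_⟩
    ext1 i
    rw [Polynomial.map_map, coeff_map]
    have h1 := eq_C_of_natDegree_eq_zero (hcon i)
    rw [h1]
    simp
  have hirr := h.irr
  rw [hf] at hirr
  have h1 : Irreducible f := by
    refine ⟨fun hu => hirr.1 (hu.map (mapRingHom (C : ℂ →+* ℂ[X]))), fun a b hab => ?_⟩
    have h2 := hirr.2 (a := a.map C) (b := b.map C) (by rw [hab, Polynomial.map_mul])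
    have h3 : ∀ a : ℂ[X], IsUnit (a.map (C : ℂ →+* ℂ[X])) → IsUnit a := by
      intro a ha
      have h4 := ha.map (mapRingHom (evalRingHom (0 : ℂ)))
      rw [coe_mapRingHom, hmap] at h4
      exact h4
    exact h2.imp (h3 a) (h3 b)
  have h2 := IsAlgClosed.degree_eq_one_of_irreducible ℂ h1
  have h3 : f.natDegree = 1 := natDegree_eq_of_degree_eq_some h2
  apply h.not_inV
  intro a b hab
  have hN := h.deg
  rw [hf, coeff_map]
  rcases Nat.eq_zero_or_pos b with hb | hb
  · subst hb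
    rw [coeff_C_zero]
    exact coeff_eq_zero_of_natDegree_lt (by omega)
  · rw [coeff_C_of_ne_zero (by omega)]

end Pool.Agent.Lib.MP_6b2d39_agVn
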