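import Pool.Agent.Lib.MP_6b2d39_agTen.NineE
import Pool.Agent.Lib.MP_6b2d39_agNf.Many

/-!
Nine arbitrary multiplicities. The reduced sorted classes of nine points are the combinations with
coefficients `a j ≥ 0` of `ω 0 = H`, `ω 1 = H - E 1`, `ω 2 = 2 H - E 1 - E 2`,
`ω j = 3 H - E 1 - … - E j` (`3 ≤ j ≤ 9`): degree `dg a`, multiplicities `mu a`, anticanonical degree
`sg a`, intersection numbers `pr a b`.
-/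

open Polynomial

set_option autoImplicit false

namespace Pool.Agent.Lib.MP_6b2d39_agVn

open Pool.Agent.Lib.MP_6b2d39_ag Pool.Agent.Lib.MP_6b2d39_agHal

/-- degree -/
def dg (a : Fin 10 → ℕ) : ℕ :=
  a 0 + a 1 + 2 * a 2 + 3 * (a 3 + a 4 + a 5 + a 6 + a 7 + a 8 + a 9)

/-- multiplicities -/
def mu (a : Fin 10 → ℕ) : Fin 9 → ℕ :=
  ![a 1 + a 2 + a 3 + a 4 + a 5 + a 6 + a 7 + a 8 + a 9,
    a 2 + a 3 + a 4 + a 5 + a 6 + a 7 + a 8 + a 9,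
    a 3 + a 4 + a 5 + a 6 + a 7 + a 8 + a 9,
    a 4 + a 5 + a 6 + a 7 + a 8 + a 9,
    a 5 + a 6 + a 7 + a 8 + a 9,
    a 6 + a 7 + a 8 + a 9,
    a 7 + a 8 + a 9,
    a 8 + a 9,
    a 9]

/-- anticanonical degree -/
def sg (a : Fin 10 → ℕ) : ℕ :=
  3 * a 0 + 2 * a 1 + 4 * a 2 + 6 * a 3 + 5 * a 4 + 4 * a 5 + 3 * a 6 + 2 * a 7 + a 8

/-- the intersection numbers `ω j · b` -/
def gr (b : Fin 10 → ℕ) : Fin 10 → ℕ :=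
  ![b 0 + b 1 + 2 * b 2 + 3 * (b 3 + b 4 + b 5 + b 6 + b 7 + b 8 + b 9),
    b 0 + b 2 + 2 * (b 3 + b 4 + b 5 + b 6 + b 7 + b 8 + b 9),
    2 * b 0 + b 1 + 2 * b 2 + 4 * (b 3 + b 4 + b 5 + b 6 + b 7 + b 8 + b 9),
    3 * b 0 + 2 * b 1 + 4 * b 2 + 6 * (b 3 + b 4 + b 5 + b 6 + b 7 + b 8 + b 9),
    3 * b 0 + 2 * b 1 + 4 * b 2 + 6 * b 3 + 5 * (b 4 + b 5 + b 6 + b 7 + b 8 + b 9),
    3 * b 0 + 2 * b 1 + 4 * b 2 + 6 * b 3 + 5 * b 4 + 4 * (b 5 + b 6 + b 7 + b 8 + b 9),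
    3 * b 0 + 2 * b 1 + 4 * b 2 + 6 * b 3 + 5 * b 4 + 4 * b 5 + 3 * (b 6 + b 7 + b 8 + b 9),
    3 * b 0 + 2 * b 1 + 4 * b 2 + 6 * b 3 + 5 * b 4 + 4 * b 5 + 3 * b 6 + 2 * (b 7 + b 8 + b 9),
    3 * b 0 + 2 * b 1 + 4 * b 2 + 6 * b 3 + 5 * b 4 + 4 * b 5 + 3 * b 6 + 2 * b 7 + (b 8 + b 9),
    3 * b 0 + 2 * b 1 + 4 * b 2 + 6 * b 3 + 5 * b 4 + 4 * b 5 + 3 * b 6 + 2 * b 7 + b 8]

/-- intersection number -/
def pr (a b : Fin 10 → ℕ) : ℕ := ∑ j, a j * gr b j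

/-- The nine points `gam (t i)` and the point `gam w` of the nodal cubic: the only subclasses of
`(δ; k)` which are cut out on the cubic by these points are `0` and the class itself. -/
structure Tok (δ : ℕ) (k : Fin 9 → ℕ) (s : ℕ) (t : Fin 9 → ℂ) (w : ℂ) : Prop where
  par : Par t
  ne : ∀ i, w ≠ t i
  ne_one : w ≠ 1
  ne_neg : w ≠ -1
  rel : (∏ i, (1 - t i) ^ k i) * (1 - w) ^ s = (∏ i, (-1 - t i) ^ k i) * (-1 - w) ^ s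
  rels : ∀ (x : Fin 9 → ℕ) (y a : ℕ), (∀ i, x i ≤ k i) → y ≤ s → ∑ i, x i + y = 3 * a →
    (∏ i, (1 - t i) ^ x i) * (1 - w) ^ y = (∏ i, (-1 - t i) ^ x i) * (-1 - w) ^ y →
    a = 0 ∨ a = δ

/-- a curve `G` in the class `d` -/
structure Cur (d : Fin 10 → ℕ) (t : Fin 9 → ℂ) (w : ℂ) (G : ℂ[X][X]) : Prop where
  deg : 3 ≤ dg d
  pos : 1 ≤ sg d
  dim : 4 ≤ pr d d + sg d
  tok : Tok (dg d) (mu d) (sg d) t w
  mem : G ∈ Sp (dg d + 1) (fun i => gam (t i)) (mu d)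
  res : ∃ c : ℂ, c ≠ 0 ∧
    MP_6b2d39_agHal.res G = C c * ((∏ i, (X - C (t i)) ^ mu d i) * (X - C w) ^ sg d)

end Pool.Agent.Lib.MP_6b2d39_agVn
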