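import Pool.Agent.Lib.MP_6b2d39_agVn.Defs

/-!
From nine points and light points to general points.

PROOF. The second half of the proof of `nine_exact` in `Ten/NineE.lean` (from `hvd` on), with `S = Finset.univ.map τ` and the hypothesis `hE`
in place of `core_exact`: `u = (vd e n).toNat`, index type `Fin h ⊕ Fin u`, `J` = all `Sum.inl l`, `l ∉ S`, and all `Sum.inr k`,
`mass = L + u`; `exists_configT`, `general_nonspecial_of_le`.
-/

open Polynomial

set_option autoImplicit false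

namespace Pool.Agent.Lib.MP_6b2d39_agVn

open Pool.Agent.Lib.MP_6b2d39_ag Pool.Agent.Lib.MP_6b2d39_agWin Pool.Agent.Lib.MP_6b2d39_agNw
  Pool.Agent.Lib.MP_6b2d39_agHal Pool.Agent.Lib.MP_6b2d39_agCr

private theorem finV_split {h : ℕ} (S : Finset (Fin h)) (f : Fin h → ℕ) :
    ∑ l, f l = ∑ l ∈ S, f l + ∑ l ∈ Finset.univ.filter (fun l => l ∉ S), f l := by
  rw [← Finset.sum_filter_add_sum_filter_not Finset.univ (fun l => l ∈ S) f]
  congr 1
  apply Finset.sum_congr _ (fun _ _ => rfl)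
  ext l
  simp

private theorem finV_all {h u : ℕ} (τ : Fin 9 ↪ Fin h) {S : Finset (Fin h)}
    (hS : Finset.univ.map τ = S) :
    ((Finset.univ.filter (fun l : Fin h => l ∉ S)).map
      Function.Embedding.inl) ∪ (Finset.univ : Finset (Fin u)).map Function.Embedding.inr =
      (Finset.univ.filter (fun i : Fin h ⊕ Fin u => ∀ l, i ≠ Sum.inl (τ l))) := by
  ext i
  rw [Finset.mem_union, Finset.mem_map, Finset.mem_map, Finset.mem_filter]
  constructor
  · rintro (⟨l, hl, rfl⟩ | ⟨l, -, rfl⟩)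
    · refine ⟨Finset.mem_univ _, fun l' heq => ?_⟩
      rw [Finset.mem_filter] at hl
      apply hl.2
      have h1 : l = τ l' := Sum.inl_injective heq
      rw [h1, ← hS]
      exact Finset.mem_map_of_mem τ (Finset.mem_univ l')
    · refine ⟨Finset.mem_univ _, fun l' heq => ?_⟩
      simp at heq
  · rintro ⟨-, hi⟩
    rcases i with l | l
    · left
      refine ⟨l, ?_, rfl⟩
      rw [Finset.mem_filter]
      refine ⟨Finset.mem_univ _, fun hl => ?_⟩
      rw [← hS, Finset.mem_map] at hl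
      obtain ⟨l', -, h1⟩ := hl
      exact hi l' (by rw [h1])
    · right
      exact ⟨l, Finset.mem_univ _, rfl⟩

theorem finish {h e M : ℕ} {n : Fin h → ℕ} (hM : 1 ≤ M) (τ : Fin 9 ↪ Fin h)
    (hτ : ∀ j, j ∉ Finset.univ.map τ → n j ≤ M)
    (hE : ∀ (ι : Type) [Fintype ι] [DecidableEq ι] (l : ι → ℕ) (J : Finset ι),
      (∀ j ∈ J, l j ≤ M) → (e + 2).choose 2 ≤ ∑ i, (n (τ i) + 1).choose 2 + mass l J →
      ∃ (p : Fin 9 → ℂ × ℂ) (x y : ι → ℂ), ∀ F ∈ Sp (e + 1) p (fun i => n (τ i)),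
        (∀ i ∈ J, Cond (Finset.Icc 1 (l i)) (x i) (y i) F) → F = 0) :
    General (fun P => (Module.finrank ℂ (curves e n P) : ℤ) = max (vd e n) 0) := by
  obtain ⟨S, hS⟩ : ∃ S : Finset (Fin h), Finset.univ.map τ = S := ⟨_, rfl⟩
  have hsumS : ∀ f : Fin h → ℕ, ∑ i ∈ S, f i = ∑ i, f (τ i) := by
    intro f
    rw [← hS, Finset.sum_map]
  set A := ∑ i, (n (τ i) + 1).choose 2 with hA
  set L := ∑ l ∈ Finset.univ.filter (fun l => l ∉ S), (n l + 1).choose 2 with hL
  have hvd : vd e n = (((e + 2).choose 2 : ℕ) : ℤ) - (A : ℤ) - (L : ℤ) := by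
    have h2 := finV_split S (fun l => (n l + 1).choose 2)
    unfold vd
    have h3 : (∑ i, ((n i + 1).choose 2 : ℤ)) = ((∑ l, (n l + 1).choose 2 : ℕ) : ℤ) := by
      push_cast
      rfl
    rw [h3, h2, hsumS (fun l => (n l + 1).choose 2), ← hA, ← hL]
    push_cast
    ring
  obtain ⟨u, hu⟩ : ∃ u : ℕ, u = (vd e n).toNat := ⟨_, rfl⟩
  have hu1 : (u : ℤ) = max (vd e n) 0 := by
    rw [hu]
    exact Int.toNat_eq_max _
  have hu2 : (e + 2).choose 2 ≤ A + (L + u) := by
    have h1 : vd e n ≤ (u : ℤ) := by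
      rw [hu1]
      exact le_max_left _ _
    rw [hvd] at h1
    omega
  obtain ⟨J, hlp⟩ : ∃ J : Finset (Fin h ⊕ Fin u), J = ((Finset.univ.filter
      (fun l : Fin h => l ∉ S)).map Function.Embedding.inl) ∪
      (Finset.univ : Finset (Fin u)).map Function.Embedding.inr := ⟨_, rfl⟩
  have hlow : ∀ j ∈ J, (Sum.elim n (fun _ => 1) : Fin h ⊕ Fin u → ℕ) j ≤ M := by
    intro j hj
    rw [hlp, Finset.mem_union, Finset.mem_map, Finset.mem_map] at hj
    rcases hj with ⟨l, hl, rfl⟩ | ⟨l, -, rfl⟩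
    · rw [Finset.mem_filter] at hl
      simp only [Function.Embedding.inl_apply, Sum.elim_inl]
      apply hτ
      rw [hS]
      exact hl.2
    · simp only [Function.Embedding.inr_apply, Sum.elim_inr]
      exact hM
  have hmassJ : mass (Sum.elim n (fun _ => 1) : Fin h ⊕ Fin u → ℕ) J = L + u := by
    unfold mass
    rw [hlp, Finset.sum_union]
    · rw [Finset.sum_map, Finset.sum_map]
      simp only [Function.Embedding.inl_apply, Function.Embedding.inr_apply, Sum.elim_inl,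
        Sum.elim_inr]
      rw [← hL, Finset.sum_const, Finset.card_univ, Fintype.card_fin]
      simp
    · rw [Finset.disjoint_left]
      intro i hi hi'
      rw [Finset.mem_map] at hi hi'
      obtain ⟨a, -, rfl⟩ := hi
      obtain ⟨b, -, hb⟩ := hi'
      simp at hb
  obtain ⟨p, x, y, hE'⟩ := hE (Fin h ⊕ Fin u) (Sum.elim n (fun _ => 1)) J hlow
    (by rw [hmassJ]; exact hu2)
  rw [hlp, finV_all τ hS] at hE'
  obtain ⟨P₀, hP₀⟩ := exists_configT τ p x y hE'
  apply general_nonspecial_of_le P₀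
  rw [← hu1]
  exact_mod_cast hP₀

end Pool.Agent.Lib.MP_6b2d39_agVn
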