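import Pool.Agent.Lib.MP_6b2d39_agTen.RowsT

/-!
Few long rows of equal length, one long last row.

PROOF. `flat_fill`: for `w < M` take `A = q + 1` and `dem b = H + [b < w]` for `b < q`, `dem q = x` (`w ≤ q`): `d1` is empty, `d4`: all rows
are long, `d7`: `lam_ind` in `Nf/FillE.lean` with slope `0` (compare `two_dem` in `Ten/Fill2.lean`, where the same is done for columns).
`core_two`: `exists_hal N`, `W = Sp (d + 1) m`, `q = 2 M + 1`, `f b = finrank (quo G b W)`: `f b = N s + f (b + 1)` for `b < q`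
(`Hal.row`), `f (q + 1) = 0` (`top_one`, see `rows_two` in `Ten/RowsT.lean`), `f q ≥ s (m 8 - q N)` (`rt_low`), `f q ≤ N s` (`mono` for
`b = q - 1`: `f q - f (q + 1) ≤ f (q - 1) - f q`); `f 0 = q N s + f q = (d + 2).choose 2 - ∑ (m i + 1).choose 2`
(`Hal.finrank_quo`). `H = N s ≥ 9 M ^ 2 + 2 M` since `N > m 8 - q N`. `emp_of_fillable` and `diagram` with `n = q + 1` as in `core_exact`.
-/

open Polynomial

set_option autoImplicit false

namespace Pool.Agent.Lib.MP_6b2d39_agVn

open Pool.Agent.Lib.MP_6b2d39_ag Pool.Agent.Lib.MP_6b2d39_agWin Pool.Agent.Lib.MP_6b2d39_agNw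
  Pool.Agent.Lib.MP_6b2d39_agHal Pool.Agent.Lib.MP_6b2d39_agNf

private theorem flatV_ind (w n : ℕ) :
    ∑ x ∈ Finset.range n, (if x < w then (1 : ℤ) else 0) = (min w n : ℕ) := by
  induction n with
  | zero => simp
  | succ n ih =>
    rw [Finset.sum_range_succ, ih]
    split_ifs with h
    · have h1 : min w (n + 1) = min w n + 1 := by omega
      rw [h1]
      push_cast
      ring
    · have h1 : min w (n + 1) = min w n := by omega
      rw [h1, add_zero]

private theorem flatV_sum {m : Fin 9 → ℕ} {a : ℕ} (h : ∀ i, a ≤ m i) :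
    ∑ i, (m i - a) + 9 * a = ∑ i, m i := by
  have h1 : ∑ _i : Fin 9, a = 9 * a := by
    rw [Finset.sum_const, Finset.card_univ, Fintype.card_fin, smul_eq_mul]
  rw [← h1, ← Finset.sum_add_distrib]
  exact Finset.sum_congr rfl fun i _ => Nat.sub_add_cancel (h i)

private theorem flatV_zero {f : ℂ[X][X]} {b : ℕ} {W : Submodule ℂ ℂ[X][X]}
    (h : ∀ F : ℂ[X][X], f ^ b * F ∈ W → F = 0) : Module.finrank ℂ (quo f b W) = 0 := by
  have h1 : quo f b W = ⊥ := by
    rw [Submodule.eq_bot_iff]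
    exact fun F hF => h F hF
  rw [h1]
  exact finrank_bot ℂ _

/-- the dimension of the residual system after the full rows -/
private theorem flatV_low {N d s : ℕ} {m : Fin 9 → ℕ} {t : Fin 9 → ℂ} {G : ℂ[X][X]}
    (h : Hal N t G) (hs : 1 ≤ s) (hm : Antitone m)
    (hr : m 0 + m 1 + m 2 ≤ d) (hd : 3 * d = ∑ i, m i + s) {q : ℕ} (h1 : q * N ≤ m 8) :
    s * (m 8 - q * N) ≤
      Module.finrank ℂ (quo G q (Sp (d + 1) (fun i => gam (t i)) m)) := by
  have h0 : ∀ i, q * N ≤ m i := fun i => h1.trans (hm (Fin.le_last i))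
  have e1 := h.finrank_quo hm hr hs hd h1
  have a0 := h0 0
  have a1 := h0 1
  have a2 := h0 2
  have h4 : q * (3 * N) = 3 * (q * N) := by ring
  have h6 := flatV_sum h0
  have e2 := MP_6b2d39_agTen.chi_low1 (N := 1) (q := m 8 - q * N) (d := d - q * (3 * N))
    (m := fun i => m i - q * N) (s := s) le_rfl hs
    (fun i j hij => Nat.sub_le_sub_right (hm hij) _) (by omega) (by omega) (by omega)
  rw [one_mul] at e2
  omega

theorem flat_fill {M q H x : ℕ} (hM : 1 ≤ M) (hq : 2 * M + 1 ≤ q) (hH : 9 * M ^ 2 + 2 * M ≤ H)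
    (hx : 9 * M ^ 2 + 2 * M ≤ x) (hxH : x ≤ H) :
    Fillable M (q + 1) (fun b => if b < q then H else x) := by
  have hM' : (1 : ℤ) ≤ M := by exact_mod_cast hM
  have hH' : 9 * (M : ℤ) ^ 2 + 2 * M ≤ H := by exact_mod_cast hH
  have hx' : 9 * (M : ℤ) ^ 2 + 2 * M ≤ x := by exact_mod_cast hx
  have hxH' : (x : ℤ) ≤ H := by exact_mod_cast hxH
  intro w hw
  beta_reduce
  have hlow : ∀ b : ℕ, 9 * (M : ℤ) ^ 2 + 2 * M ≤
      (if b < q then (H : ℤ) + (if b < w then 1 else 0) else (x : ℤ)) := by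
    intro b
    split_ifs <;> linarith
  refine ⟨q + 1, fun b => if b < q then (H : ℤ) + (if b < w then 1 else 0) else (x : ℤ),
    ⟨hM, by omega, by omega, fun b hb hb' => by omega, fun b _ => ?_, fun b _ => ?_,
      fun b _ _ => hlow b, fun b hb hb' => ?_⟩, fun b _ => ?_, ?_⟩
  · split_ifs <;> omega
  · have := hlow b
    nlinarith
  · refine le_trans (le_of_eq (Lam_congr fun a ha => ?_)) (lam_ind (w := w) hb (H : ℤ) 0)
    rw [if_pos (show a < q by omega), zero_mul, sub_zero]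
  · beta_reduce
    split_ifs <;> linarith
  · rw [Finset.sum_range_succ, Finset.sum_range_succ, if_neg (lt_irrefl q), if_neg (lt_irrefl q)]
    have e1 : ∑ b ∈ Finset.range q,
        (if b < q then (H : ℤ) + (if b < w then 1 else 0) else (x : ℤ)) =
          (q : ℤ) * H + (min w q : ℕ) := by
      rw [Finset.sum_congr rfl (g := fun b => (H : ℤ) + (if b < w then 1 else 0)) fun b hb => ?_,
        Finset.sum_add_distrib, flatV_ind, Finset.sum_const, Finset.card_range, nsmul_eq_mul]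
      rw [if_pos (Finset.mem_range.1 hb)]
    have e2 : ∑ b ∈ Finset.range q, ((if b < q then H else x : ℕ) : ℤ) = (q : ℤ) * H := by
      rw [Finset.sum_congr rfl (g := fun _ => (H : ℤ)) fun b hb => ?_, Finset.sum_const,
        Finset.card_range, nsmul_eq_mul]
      rw [if_pos (Finset.mem_range.1 hb)]
    rw [e1, e2]
    have e3 : min w q = w := by omega
    rw [e3]
    ring

theorem core_two {M N d s : ℕ} {m : Fin 9 → ℕ} (hM : 1 ≤ M) (hs : 1 ≤ s) (hm : Antitone m)
    (hr : m 0 + m 1 + m 2 ≤ d) (hd : 3 * d = ∑ i, m i + s) (h1 : (2 * M + 1) * N ≤ m 8)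
    (h2 : m 8 + s < (2 * M + 2) * N) (h3 : 9 * M ^ 2 + 2 * M ≤ s * (m 8 - (2 * M + 1) * N))
    {ι : Type} [Fintype ι] [DecidableEq ι] {l : ι → ℕ} {J : Finset ι} (hJ : ∀ j ∈ J, l j ≤ M)
    (hmass : (d + 2).choose 2 ≤ ∑ i, (m i + 1).choose 2 + mass l J) :
    ∃ (p : Fin 9 → ℂ × ℂ) (x y : ι → ℂ), ∀ F ∈ Sp (d + 1) p m,
      (∀ i ∈ J, Cond (Finset.Icc 1 (l i)) (x i) (y i) F) → F = 0 := by
  obtain ⟨q, hq⟩ : ∃ q, q = 2 * M + 1 := ⟨_, rfl⟩
  have hq2 : 2 * M + 2 = q + 1 := by omega
  rw [← hq] at h1 h3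
  rw [hq2] at h2
  have hN0 : 1 ≤ N := by
    rcases Nat.eq_zero_or_pos N with h0 | h0
    · rw [h0, mul_zero] at h2
      omega
    · exact h0
  obtain ⟨t, G, hG⟩ := exists_hal N hN0
  obtain ⟨f, hf⟩ : ∃ f : ℕ → ℕ, f = fun b =>
    Module.finrank ℂ (quo G b (Sp (d + 1) (fun i => gam (t i)) m)) := ⟨_, rfl⟩
  have hrow : ∀ k : ℕ, (k + 1) * N ≤ m 8 → f k = N * s + f (k + 1) := fun k hk => by
    rw [hf]
    exact hG.row hm hr hs hd hk
  have hmono : ∀ b : ℕ, f (b + 1) + f (b + 1) ≤ f b + f (b + 2) := fun b => by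
    rw [hf]
    exact MP_6b2d39_agTen.mono hG (d + 1) b m
  have htop : f (q + 1) = 0 := by
    rw [hf]
    exact flatV_zero fun F hF => MP_6b2d39_agTen.top_one hG hm hr hd h1 h2 hF
  have hlow : s * (m 8 - q * N) ≤ f q := by
    rw [hf]
    exact flatV_low hG hs hm hr hd h1
  have hx : f q ≤ N * s := by
    obtain ⟨p, hp⟩ : ∃ p, q = p + 1 := ⟨q - 1, by omega⟩
    have e1 : f (p + 1) + f (p + 1) ≤ f p + f (p + 2) := hmono p
    have e2 := hrow p (by rw [← hp]; exact h1)
    have e3 : f (p + 2) = 0 := by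
      have e4 : p + 2 = q + 1 := by omega
      rw [e4]
      exact htop
    rw [hp]
    omega
  have key : ∀ k : ℕ, k * N ≤ m 8 → f 0 = k * (N * s) + f k := by
    intro k
    induction k with
    | zero =>
      intro _
      rw [zero_mul, zero_add]
    | succ k ih =>
      intro hk
      rw [ih ((Nat.mul_le_mul_right N (Nat.le_succ k)).trans hk), hrow k hk]
      ring
  have htot : f 0 + ∑ i, (m i + 1).choose 2 = (d + 2).choose 2 := by
    have e2 := hG.finrank_quo hm hr hs hd (k := 0) (by rw [zero_mul]; exact Nat.zero_le _)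
    simp only [zero_mul, tsub_zero] at e2
    rw [hf]
    exact e2
  have hk := key q h1
  have hsum : ∑ b ∈ Finset.range (q + 1), (if b < q then N * s else f q) = q * (N * s) + f q := by
    rw [Finset.sum_range_succ, if_neg (lt_irrefl q)]
    rw [Finset.sum_congr rfl (g := fun _ => N * s) fun b hb => ?_, Finset.sum_const,
      Finset.card_range, smul_eq_mul]
    rw [if_pos (Finset.mem_range.1 hb)]
  have hE : EmpP (dgm (fun b => if b < q then N * s else f q) (q + 1)) l J := by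
    refine emp_of_fillable (flat_fill hM (by omega) (h3.trans (hlow.trans hx))
      (h3.trans hlow) hx) hM hJ ?_
    rw [hsum, ← hk]
    omega
  have hg : ∀ b < q + 1, Module.finrank ℂ (quo G b (Sp (d + 1) (fun i => gam (t i)) m)) ≤
      (fun b => if b < q then N * s else f q) b +
        Module.finrank ℂ (quo G (b + 1) (Sp (d + 1) (fun i => gam (t i)) m)) := by
    intro b hb
    have g0 : f b ≤ (if b < q then N * s else f q) + f (b + 1) := by
      rcases Nat.lt_or_ge b q with g1 | g1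
      · rw [if_pos g1, ← hrow b ((Nat.mul_le_mul_right N g1).trans h1)]
      · have g2 : b = q := by omega
        rw [if_neg (by omega), g2]
        omega
    beta_reduce
    rw [hf] at g0
    rw [hf]
    exact g0
  obtain ⟨x', y', hxy⟩ := diagram (f := G) hG.irr hG.natDegree hG.dep
    (W := Sp (d + 1) (fun i => gam (t i)) m) (n := q + 1)
    (r := fun b => if b < q then N * s else f q) hg
    (fun F hF => MP_6b2d39_agTen.top_one hG hm hr hd h1 h2 hF) hE
  exact ⟨fun i => gam (t i), x', y', hxy⟩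

end Pool.Agent.Lib.MP_6b2d39_agVn
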