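import Pool.Agent.Lib.MP_6b2d39_agHal.Dia

/-!
Two independent multipliers increase the dimension.

PROOF. `R = AdjoinRoot f` (or the quotient ring by `Ideal.span {f}`) is a domain, an algebra over the algebraically closed field `ℂ`.
`B` = image of `V` (finite dimensional, not zero by `hV`), `B'` = image of `U`; by rank-nullity (`rb_rank` in `Hal/RowB.lean`)
`finrank B + finrank (V ⊓ mulF f) = finrank V`, same for `U`. With `u i` = image of `F i`: `u 1 B ≤ B'`, `u 2 B ≤ B'`, and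
`u 1 ≠ 0`, so `finrank (u 1 B) = finrank B`. If `finrank B' ≤ finrank B` then `B' = u 1 B`, so `u 2 B ≤ u 1 B`; hence for every `x ∈ B`
there is a unique `φ x ∈ B` with `u 2 x = u 1 (φ x)`; `φ` is a linear endomorphism of the finite dimensional space `B ≠ 0`, it has an
eigenvector `x ≠ 0` (`Module.End.exists_eigenvalue`): `u 2 x = c u 1 x`, so `u 2 = c u 1`, i.e. `f ∣ (- c) • F₁ + 1 • F₂`, contradiction
to `hind`.
-/

open Polynomial

set_option autoImplicit false

namespace Pool.Agent.Lib.MP_6b2d39_agVn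

open Pool.Agent.Lib.MP_6b2d39_ag Pool.Agent.Lib.MP_6b2d39_agHal

private theorem hopf_rank {M N : Type} [AddCommGroup M] [Module ℂ M] [AddCommGroup N]
    [Module ℂ N] (V : Submodule ℂ M) [FiniteDimensional ℂ V] (ρ : M →ₗ[ℂ] N) :
    Module.finrank ℂ (V.map ρ) + Module.finrank ℂ (V ⊓ LinearMap.ker ρ : Submodule ℂ M) =
      Module.finrank ℂ V := by
  have h1 := LinearMap.finrank_range_add_finrank_ker (ρ.comp V.subtype)
  rw [LinearMap.range_comp, Submodule.range_subtype] at h1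
  rw [← h1, LinearMap.ker_comp, ← Submodule.finrank_map_subtype_eq V (Submodule.comap _ _),
    Submodule.map_comap_subtype]

private theorem hopf_abs {A : Type} [CommRing A] [IsDomain A] [Algebra ℂ A]
    (B B' : Submodule ℂ A) [FiniteDimensional ℂ B] [FiniteDimensional ℂ B'] (u v : A)
    (h1 : ∀ x ∈ B, u * x ∈ B') (h2 : ∀ x ∈ B, v * x ∈ B') (hB : B ≠ ⊥)
    (hind : ∀ a b : ℂ, a • u + b • v = 0 → a = 0 ∧ b = 0) :
    Module.finrank ℂ B + 1 ≤ Module.finrank ℂ B' := by
  by_contra hlt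
  push Not at hlt
  have hu : u ≠ 0 := by
    rintro rfl
    exact one_ne_zero (hind 1 0 (by simp)).1
  let Lu : B →ₗ[ℂ] B' := LinearMap.codRestrict B' ((LinearMap.mulLeft ℂ u).comp B.subtype)
    (fun x => h1 x x.2)
  let Lv : B →ₗ[ℂ] B' := LinearMap.codRestrict B' ((LinearMap.mulLeft ℂ v).comp B.subtype)
    (fun x => h2 x x.2)
  have hinj : Function.Injective Lu := by
    rw [← LinearMap.ker_eq_bot, LinearMap.ker_eq_bot']
    intro x hx
    have h : u * (x : A) = 0 := congrArg Subtype.val hx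
    exact Subtype.ext ((mul_eq_zero.1 h).resolve_left hu)
  have hfin : Module.finrank ℂ B = Module.finrank ℂ B' :=
    le_antisymm (LinearMap.finrank_le_finrank_of_injective hinj) (by omega)
  have hsur : Function.Surjective Lu :=
    (LinearMap.injective_iff_surjective_of_finrank_eq_finrank hfin).1 hinj
  let e : B ≃ₗ[ℂ] B' := LinearEquiv.ofBijective Lu ⟨hinj, hsur⟩
  let φ : Module.End ℂ B := e.symm.toLinearMap.comp Lv
  haveI : Nontrivial B := (Submodule.nontrivial_iff_ne_bot).2 hB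
  obtain ⟨c, hc⟩ := Module.End.exists_eigenvalue φ
  obtain ⟨x, hx⟩ := hc.exists_hasEigenvector
  have hx1 : φ x = c • x := hx.apply_eq_smul
  have hx0 : x ≠ 0 := hx.2
  have h3 : Lv x = c • Lu x := by
    have h : e (φ x) = e (c • x) := congrArg e hx1
    rw [map_smul] at h
    have h' : e (φ x) = Lv x := e.apply_symm_apply (Lv x)
    rw [h'] at h
    exact h
  have h4 : v * (x : A) = c • (u * (x : A)) := congrArg Subtype.val h3
  have h5 : ((-c) • u + (1 : ℂ) • v) * (x : A) = 0 := by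
    rw [add_mul, smul_mul_assoc, smul_mul_assoc, h4, one_smul, neg_smul]
    exact neg_add_cancel _
  have h6 := (mul_eq_zero.1 h5).resolve_right (fun h => hx0 (Subtype.ext h))
  exact one_ne_zero (hind _ _ h6).2

theorem hopf {f : ℂ[X][X]} (hf : Irreducible f) {V U : Submodule ℂ ℂ[X][X]}
    [FiniteDimensional ℂ V] [FiniteDimensional ℂ U] {F₁ F₂ : ℂ[X][X]}
    (hind : ∀ a b : ℂ, f ∣ a • F₁ + b • F₂ → a = 0 ∧ b = 0) (h1 : ∀ H ∈ V, F₁ * H ∈ U)
    (h2 : ∀ H ∈ V, F₂ * H ∈ U) (hV : ∃ H ∈ V, ¬ f ∣ H) :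
    Module.finrank ℂ V + Module.finrank ℂ (U ⊓ mulF f : Submodule ℂ ℂ[X][X]) + 1 ≤
      Module.finrank ℂ U + Module.finrank ℂ (V ⊓ mulF f : Submodule ℂ ℂ[X][X]) := by
  haveI hp : (Ideal.span {f} : Ideal ℂ[X][X]).IsPrime :=
    (Ideal.span_singleton_prime hf.ne_zero).2 hf.prime
  let q : ℂ[X][X] →ₐ[ℂ] (ℂ[X][X] ⧸ (Ideal.span {f} : Ideal ℂ[X][X])) :=
    Ideal.Quotient.mkₐ ℂ (Ideal.span {f})
  have hq : ∀ F : ℂ[X][X], q F = 0 ↔ f ∣ F := fun F => by
    rw [← Ideal.mem_span_singleton]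
    exact Ideal.Quotient.eq_zero_iff_mem
  have hker : LinearMap.ker q.toLinearMap = mulF f := by
    ext F
    rw [LinearMap.mem_ker, mem_mulF, ← hq]
    rfl
  have hV1 := hopf_rank V q.toLinearMap
  have hU1 := hopf_rank U q.toLinearMap
  rw [hker] at hV1 hU1
  have key := hopf_abs (V.map q.toLinearMap) (U.map q.toLinearMap) (q F₁) (q F₂)
    (by
      rintro _ ⟨H, hH, rfl⟩
      exact ⟨F₁ * H, h1 H hH, map_mul q F₁ H⟩)
    (by
      rintro _ ⟨H, hH, rfl⟩
      exact ⟨F₂ * H, h2 H hH, map_mul q F₂ H⟩)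
    (by
      obtain ⟨H, hH, hH'⟩ := hV
      intro h
      have h0 : q.toLinearMap H ∈ V.map q.toLinearMap := ⟨H, hH, rfl⟩
      rw [h, Submodule.mem_bot] at h0
      exact hH' ((hq H).1 h0))
    (by
      intro a b h
      refine hind a b ((hq _).1 ?_)
      rw [map_add, map_smul, map_smul]
      exact h)
  omega

end Pool.Agent.Lib.MP_6b2d39_agVn
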