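import Pool.Agent.Lib.MP_6b2d39_agVn.NineV
import Pool.Agent.Lib.MP_6b2d39_agRef.AllR

/-!
The theorem for all systems.

PROOF. `hh_main` as in `hh_all` (`Nw/AllMu.lean`). Let `σ` sort the multiplicities. If `h < 10` or `n (σ 9) = 0` then at most nine
multiplicities are positive: `nonspecial_nine`. Otherwise `S = {σ i | i < 9}`, `M = n (σ 9) ≥ 1`, `nine_v`.
-/

open Polynomial

set_option autoImplicit false

namespace Pool.Agent.Lib.MP_6b2d39_agVn

open Pool.Agent.Lib.MP_6b2d39_ag Pool.Agent.Lib.MP_6b2d39_agWin Pool.Agent.Lib.MP_6b2d39_agNw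
  Pool.Agent.Lib.MP_6b2d39_agHal Pool.Agent.Lib.MP_6b2d39_agCr Pool.Agent.Lib.MP_6b2d39_agNf

private theorem mainv_card_le (k h : ℕ) : (Finset.univ.filter (fun i : Fin h => (i : ℕ) < k)).card ≤ k := by
  have hsub : ((Finset.univ.filter (fun i : Fin h => (i : ℕ) < k)).map Fin.valEmbedding) ⊆ Finset.range k := by
    intro x hx
    rw [Finset.mem_map] at hx
    obtain ⟨i, hi, rfl⟩ := hx
    rw [Finset.mem_range]
    exact (Finset.mem_filter.1 hi).2
  have h1 := Finset.card_le_card hsub
  rwa [Finset.card_map, Finset.card_range] at h1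

private theorem mainv_card {h : ℕ} (hh : 9 ≤ h) :
    (Finset.univ.filter (fun i : Fin h => (i : ℕ) < 9)).card = 9 := by
  apply le_antisymm (mainv_card_le 9 h)
  have hsub : Finset.range 9 ⊆ ((Finset.univ.filter (fun i : Fin h => (i : ℕ) < 9)).map Fin.valEmbedding) := by
    intro x hx
    rw [Finset.mem_range] at hx
    rw [Finset.mem_map]
    exact ⟨⟨x, by omega⟩, Finset.mem_filter.2 ⟨Finset.mem_univ _, hx⟩, rfl⟩
  have h1 := Finset.card_le_card hsub
  rwa [Finset.card_map, Finset.card_range] at h1

theorem main_v {h : ℕ} (hh : 3 ≤ h) (d : ℕ) (m : Fin h → ℕ) :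
    General (fun P => IsSpecial d m P ↔ IsMinusOneSpecial d m P) ∨
      ∃ (e : ℕ) (n : Fin h → ℕ), Relation.ReflTransGen CremonaStep (d, m) (e, n) ∧
        (∀ i, n i ≤ m i) ∧ Reduced e n ∧ General (fun P => IsSpecial e n P) ∧
        ∀ σ : Equiv.Perm (Fin h), Antitone (fun i => n (σ i)) →
          ∃ j : Fin h, (j : ℕ) = 9 ∧ 1 ≤ n (σ j) ∧
            e ^ 2 < ∑ i : Fin h, (if (i : ℕ) < 9 then n (σ i) ^ 2 else 0) +
              4000000 * n (σ j) ^ 3 := by
  rcases hh_main hh d m with h1 | ⟨e, n, hr, hred, hbad⟩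
  · exact Or.inl h1
  · refine Or.inr ⟨e, n, hr, fun i => le_of_reach hr i, hred, general_special_of_bad hbad, ?_⟩
    intro σ hσ
    have h9 : ¬ (Finset.univ.filter (fun i => 0 < n i)).card ≤ 9 := fun hc =>
      hbad (nonspecial_nine hh hred hc)
    have hsub : ∀ {k : ℕ}, k = 9 → (∀ i : Fin h, k ≤ (i : ℕ) → n (σ i) = 0) → False := by
      intro k hk hz
      apply h9
      have hle : (Finset.univ.filter (fun i => 0 < n i)) ⊆
          (Finset.univ.filter (fun i : Fin h => (i : ℕ) < k)).map σ.toEmbedding := by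
        intro i hi
        rw [Finset.mem_map_equiv, Finset.mem_filter]
        refine ⟨Finset.mem_univ _, ?_⟩
        by_contra hc
        have h0 := hz (σ.symm i) (by omega)
        rw [Equiv.apply_symm_apply] at h0
        have h1 := (Finset.mem_filter.1 hi).2
        omega
      refine (Finset.card_le_card hle).trans ?_
      rw [Finset.card_map]
      exact mainv_card_le k h |>.trans hk.le
    by_cases hh9 : h ≤ 9
    · exact (hsub rfl (fun i hi => absurd i.isLt (by omega))).elim
    · refine ⟨⟨9, by omega⟩, rfl, ?_⟩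
      have hpos : 1 ≤ n (σ ⟨9, by omega⟩) := by
        by_contra hc
        refine hsub rfl (fun i hi => ?_)
        have h1 := hσ (show (⟨9, by omega⟩ : Fin h) ≤ i from hi)
        simp only at h1
        omega
      refine ⟨hpos, ?_⟩
      by_contra hcon
      push Not at hcon
      apply hbad
      refine nine_v hh hred hpos (S := (Finset.univ.filter (fun i : Fin h => (i : ℕ) < 9)).map σ.toEmbedding)
        ?_ ?_ ?_
      · rw [Finset.card_map]
        exact mainv_card (by omega)
      · intro j hj
        have h1 : ¬ ((σ.symm j : Fin h) : ℕ) < 9 := fun hc => hj (by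
          rw [Finset.mem_map_equiv, Finset.mem_filter]
          exact ⟨Finset.mem_univ _, hc⟩)
        have h2 := hσ (show (⟨9, by omega⟩ : Fin h) ≤ σ.symm j from by
          rw [Fin.le_def]; simp only; omega)
        simp only [Equiv.apply_symm_apply] at h2
        exact h2
      · rw [Finset.sum_map]
        simp only [Equiv.coe_toEmbedding]
        rw [Finset.sum_filter]
        exact hcon

end Pool.Agent.Lib.MP_6b2d39_agVn
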