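import Pool.Agent.Lib.MP_6b2d39_agVn.Om

/-!
The class `3 c` of the curve in the first case.

PROOF. `T = 2 M + 2`, `Λ = 6 T`, `c j = a j / Λ`, `a' = a - 3 T c` (`3 T c j ≤ a j / 2`), so `2 a' j ≥ a j`. Let `B` be `ω i` with
`Λ ≤ a i`, `i ≠ 1, 9`, or `ω 1 + ω 9`. All entries of the matrix `ω i · ω j` are at most `6`, and `ω k · B ≥ 1` for all `k`; so
`ω j · a ≤ 6 B · a ≤ 6 pr c a` (`gr a j ≤ 6 * gr a i`, respectively `6 * (gr a 1 + gr a 9)`: linear in `a`, omega; `pr c a = ∑ c j gr a j`).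
`a j ≤ Λ c j + Λ`, so `pr a a = ∑ a j gr a j ≤ Λ pr c a + Λ ∑ gr a j ≤ 61 Λ pr c a`. Hence `pr a' (3 c) = 3 pr a' c ≥ (3 / 2) pr a c` (`2 a' ≥ a`)
`≥ (3 / 2) pr a a / (61 Λ) = pr a a / (488 (M + 1)) ≥ 9 M ^ 2 + 2 M` (`488 (M + 1) (9 M ^ 2 + 2 M) ≤ 488 * 2 M * 11 M ^ 2 = 10736 M ^ 3`).
`sg a' ≥ 1`: some `a i ≥ 1` with `i ≤ 8`, so `a' i ≥ 1`.
-/

open Polynomial

set_option autoImplicit false

namespace Pool.Agent.Lib.MP_6b2d39_agVn

private theorem omOne_gr (a : Fin 10 → ℕ) (i : Fin 10) (h1 : i ≠ 1) (h9 : i ≠ 9) (j : Fin 10) :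
    gr a j ≤ 6 * gr a i := by
  fin_cases i <;> first | exact absurd rfl h1 | exact absurd rfl h9 | skip
  all_goals
    fin_cases j <;> simp [gr] <;> omega

private theorem omOne_gr_two (a : Fin 10 → ℕ) (j : Fin 10) :
    gr a j ≤ 6 * (gr a 1 + gr a 9) := by
  fin_cases j <;> simp [gr] <;> omega

private theorem omOne_term_le (c b : Fin 10 → ℕ) (i : Fin 10) (hi : 1 ≤ c i) :
    gr b i ≤ pr c b := by
  have h := Finset.single_le_sum (f := fun j => c j * gr b j) (s := Finset.univ)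
    (fun j _ => Nat.zero_le _) (Finset.mem_univ i)
  have h2 : gr b i ≤ c i * gr b i := Nat.le_mul_of_pos_left _ hi
  exact le_trans h2 h

private theorem omOne_term_le_two (c b : Fin 10 → ℕ) (hi : 1 ≤ c 1) (hj : 1 ≤ c 9) :
    gr b 1 + gr b 9 ≤ pr c b := by
  have h : ∑ j ∈ ({1, 9} : Finset (Fin 10)), c j * gr b j ≤ ∑ j, c j * gr b j :=
    Finset.sum_le_sum_of_subset (Finset.subset_univ _)
  rw [Finset.sum_pair (by decide)] at h
  have h1 : gr b 1 ≤ c 1 * gr b 1 := Nat.le_mul_of_pos_left _ hi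
  have h2 : gr b 9 ≤ c 9 * gr b 9 := Nat.le_mul_of_pos_left _ hj
  exact le_trans (Nat.add_le_add h1 h2) h

private theorem omOne_pr_mono {a b : Fin 10 → ℕ} (h : ∀ j, a j ≤ b j) (d : Fin 10 → ℕ) :
    pr a d ≤ pr b d :=
  Finset.sum_le_sum (fun j _ => Nat.mul_le_mul_right _ (h j))

theorem om_one {M : ℕ} (hM : 1 ≤ M) {a : Fin 10 → ℕ} (hs : 1 ≤ sg a)
    (hA : 10736 * M ^ 3 ≤ pr a a)
    (hcase : (∃ i, i ≠ 1 ∧ i ≠ 9 ∧ 12 * (M + 1) ≤ a i) ∨
      (12 * (M + 1) ≤ a 1 ∧ 12 * (M + 1) ≤ a 9)) :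
    ∃ c a' : Fin 10 → ℕ, (∃ i, i ≠ 9 ∧ 1 ≤ c i) ∧ (∃ i, i ≠ 1 ∧ 1 ≤ c i) ∧
      a = a' + (2 * M + 2) • (3 • c) ∧ 1 ≤ sg a' ∧ 9 * M ^ 2 + 2 * M ≤ pr a' (3 • c) := by
  have hpos : 0 < 12 * (M + 1) := by omega
  obtain ⟨c, hc⟩ : ∃ c : Fin 10 → ℕ, ∀ j, c j = a j / (12 * (M + 1)) := ⟨_, fun _ => rfl⟩
  have hcl : ∀ j, 12 * (M + 1) * c j ≤ a j := fun j => by
    rw [hc j]; exact Nat.mul_div_le _ _
  have hcu : ∀ j, a j ≤ 12 * (M + 1) * c j + 12 * (M + 1) := fun j => by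
    rw [hc j]
    have := Nat.lt_mul_div_succ (a j) hpos
    have h2 : 12 * (M + 1) * (a j / (12 * (M + 1)) + 1)
        = 12 * (M + 1) * (a j / (12 * (M + 1))) + 12 * (M + 1) := by ring
    omega
  have hc1 : ∀ j, 12 * (M + 1) ≤ a j → 1 ≤ c j := fun j h => by
    rw [hc j]; exact (Nat.one_le_div_iff hpos).2 h
  obtain ⟨a', ha'⟩ : ∃ a' : Fin 10 → ℕ, ∀ j, a j = a' j + (2 * M + 2) * (3 * c j) :=
    ⟨fun j => a j - (2 * M + 2) * (3 * c j), fun j => by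
      have h1 := hcl j
      have h2 : 12 * (M + 1) * c j = 2 * ((2 * M + 2) * (3 * c j)) := by ring
      show a j = a j - (2 * M + 2) * (3 * c j) + (2 * M + 2) * (3 * c j)
      omega⟩
  have hhalf : ∀ j, a j ≤ (2 • a') j := fun j => by
    have h1 := hcl j
    have h2 : 12 * (M + 1) * c j = 2 * ((2 * M + 2) * (3 * c j)) := by ring
    have h3 := ha' j
    show a j ≤ 2 • a' j
    rw [smul_eq_mul]
    omega
  have hgr : ∀ j, gr a j ≤ 6 * pr c a := by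
    rcases hcase with ⟨i, h1, h9, hi⟩ | ⟨h1, h9⟩
    · intro j
      exact le_trans (omOne_gr a i h1 h9 j) (Nat.mul_le_mul_left _ (omOne_term_le c a i (hc1 i hi)))
    · intro j
      exact le_trans (omOne_gr_two a j)
        (Nat.mul_le_mul_left _ (omOne_term_le_two c a (hc1 1 h1) (hc1 9 h9)))
  have hsum : ∑ j, gr a j ≤ 60 * pr c a := by
    have h := Finset.sum_le_card_nsmul Finset.univ (fun j => gr a j) (6 * pr c a)
      (fun j _ => hgr j)
    simp only [Finset.card_univ, Fintype.card_fin, smul_eq_mul] at h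
    omega
  have hup : pr a a ≤ 61 * (12 * (M + 1)) * pr c a := by
    have h : pr a a ≤ ∑ j, (12 * (M + 1) * (c j * gr a j) + 12 * (M + 1) * gr a j) := by
      apply Finset.sum_le_sum
      intro j _
      have := Nat.mul_le_mul_right (gr a j) (hcu j)
      calc a j * gr a j ≤ (12 * (M + 1) * c j + 12 * (M + 1)) * gr a j := this
        _ = 12 * (M + 1) * (c j * gr a j) + 12 * (M + 1) * gr a j := by ring
    rw [Finset.sum_add_distrib, ← Finset.mul_sum, ← Finset.mul_sum] at h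
    have h2 : 12 * (M + 1) * ∑ j, gr a j ≤ 12 * (M + 1) * (60 * pr c a) :=
      Nat.mul_le_mul_left _ hsum
    have h3 : 61 * (12 * (M + 1)) * pr c a
        = 12 * (M + 1) * pr c a + 12 * (M + 1) * (60 * pr c a) := by ring
    rw [h3]
    exact le_trans h (Nat.add_le_add_left h2 _)
  have hlow : 3 * pr c a ≤ 2 * pr a' (3 • c) := by
    have h1 : pr a' (3 • c) = 3 * pr a' c := by
      rw [pr_symm, pr_smul, pr_symm]
    have h2 : pr c a ≤ 2 * pr a' c := by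
      rw [pr_symm c a, ← pr_smul]
      exact omOne_pr_mono hhalf c
    rw [h1]
    omega
  have hsg : 1 ≤ sg a' := by
    have h : sg a ≤ 2 * sg a' := by
      rw [← sg_smul]
      have := hhalf
      have h0 := this 0
      have h1 := this 1
      have h2 := this 2
      have h3 := this 3
      have h4 := this 4
      have h5 := this 5
      have h6 := this 6
      have h7 := this 7
      have h8 := this 8
      unfold sg
      omega
    omega
  refine ⟨c, a', ?_, ?_, ?_, hsg, ?_⟩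
  · rcases hcase with ⟨i, _, h9, hi⟩ | ⟨h1, _⟩
    · exact ⟨i, h9, hc1 i hi⟩
    · exact ⟨1, by decide, hc1 1 h1⟩
  · rcases hcase with ⟨i, h1, _, hi⟩ | ⟨_, h9⟩
    · exact ⟨i, h1, hc1 i hi⟩
    · exact ⟨9, by decide, hc1 9 h9⟩
  · funext j
    rw [Pi.add_apply, Pi.smul_apply, Pi.smul_apply, smul_eq_mul, smul_eq_mul]
    exact ha' j
  · by_contra hcon
    push Not at hcon
    generalize pr a' (3 • c) = X at hlow hcon
    generalize pr c a = Y at hlow hup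
    have h1 : 10736 * M ^ 3 ≤ 61 * (12 * (M + 1)) * Y := le_trans hA hup
    have h2 : 61 * (12 * (M + 1)) * Y * 3 ≤ 61 * (12 * (M + 1)) * (2 * X) := by
      calc 61 * (12 * (M + 1)) * Y * 3 = 61 * (12 * (M + 1)) * (3 * Y) := by ring
        _ ≤ _ := Nat.mul_le_mul_left _ hlow
    have h3 : X + 1 ≤ 9 * M ^ 2 + 2 * M := hcon
    have h4 : 61 * (12 * (M + 1)) * (2 * (X + 1)) ≤ 61 * (12 * (M + 1)) * (2 * (9 * M ^ 2 + 2 * M)) :=
      Nat.mul_le_mul_left _ (Nat.mul_le_mul_left _ h3)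
    have h5 : M ^ 2 ≤ M ^ 3 := Nat.pow_le_pow_right hM (by norm_num)
    have h6 : M ≤ M ^ 3 := by
      calc M = M ^ 1 := (pow_one M).symm
        _ ≤ M ^ 3 := Nat.pow_le_pow_right hM (by norm_num)
    have h7 : 61 * (12 * (M + 1)) * (2 * (9 * M ^ 2 + 2 * M))
        = 1464 * (9 * M ^ 3 + 11 * M ^ 2 + 2 * M) := by ring
    have h8 : 61 * (12 * (M + 1)) * (2 * (X + 1)) = 61 * (12 * (M + 1)) * (2 * X)
        + 1464 * (M + 1) := by ring
    omega

end Pool.Agent.Lib.MP_6b2d39_agVn
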