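import Pool.Agent.Lib.MP_6b2d39_agVn.Om

/-!
Numbers in the second and the third case.

PROOF of `om_two`: `s = sg a ≤ 30 (12 (M + 1) - 1) ≤ 720 M`. `pr a a ≤ 2 s a 9 + s ^ 2` (coefficientwise: the matrix `ω i · ω j`,
`i, j ≤ 8`, is bounded by `sg (ω i) sg (ω j)`; `ring_nf` and `positivity` or `nlinarith` on the difference), so
`s * a 9 ≥ (4000000 - 518400) / 2 * M ^ 3 = 1740800 * M ^ 3`. `ρ = (9 M ^ 2 + 2 M) / s + 1`, `N = (a 9 - ρ) / (2 M + 1)`. The condition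
`ρ + (2 M + 1) (ρ + 2 M + 1 + s) ≤ a 9` holds: times `s` the left side is at most
`4 M (11 M ^ 2 + s) + 9 M ^ 2 s + 3 M s ^ 2 ≤ 1564604 M ^ 3`. So `N ≥ ρ + 2 M + 1 + s` and `ρ ≤ a 9 - (2 M + 1) N ≤ ρ + 2 M`, hence
`a 9 - (2 M + 1) N + s < N`; `s ρ ≥ 9 M ^ 2 + 2 M`.
PROOF of `om_three`: `Λ = 12 (M + 1) ≤ 24 M`. `pr a a = 2 a 1 (gr b 1) + pr b b` for `b` = `a` without the coordinate `1`; `gr b 1 ≤ 16 Λ`,
`pr b b ≤ 308 Λ ^ 2 ≤ 177408 M ^ 2`; so `32 * 24 * M * a 1 ≥ (4000000 - 177408) M ^ 3`, `a 1 ≥ 4900 M ^ 2`, `sg a ≥ 2 a 1`, `dg a ≥ a 1`.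
-/

open Polynomial

set_option autoImplicit false

namespace Pool.Agent.Lib.MP_6b2d39_agVn

private theorem omTwo_pr (a : Fin 10 → ℕ) : pr a a ≤ 2 * sg a * a 9 + sg a ^ 2 := by
  have e : pr a a = a 0 * gr a 0 + a 1 * gr a 1 + a 2 * gr a 2 + a 3 * gr a 3 + a 4 * gr a 4
      + a 5 * gr a 5 + a 6 * gr a 6 + a 7 * gr a 7 + a 8 * gr a 8 + a 9 * gr a 9 := by
    unfold pr
    rw [Fin.sum_univ_succ, Fin.sum_univ_succ, Fin.sum_univ_succ, Fin.sum_univ_succ,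
      Fin.sum_univ_succ, Fin.sum_univ_succ, Fin.sum_univ_succ, Fin.sum_univ_succ,
      Fin.sum_univ_succ, Fin.sum_univ_succ]
    simp only [Finset.univ_eq_empty, Finset.sum_empty, add_zero]
    have h1 : Fin.succ (0 : Fin 9) = 1 := rfl
    have h2 : Fin.succ (Fin.succ (0 : Fin 8)) = 2 := rfl
    have h3 : Fin.succ (Fin.succ (Fin.succ (0 : Fin 7))) = 3 := rfl
    have h4 : Fin.succ (Fin.succ (Fin.succ (Fin.succ (0 : Fin 6)))) = 4 := rfl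
    have h5 : Fin.succ (Fin.succ (Fin.succ (Fin.succ (Fin.succ (0 : Fin 5))))) = 5 := rfl
    have h6 : Fin.succ (Fin.succ (Fin.succ (Fin.succ (Fin.succ (Fin.succ (0 : Fin 4)))))) = 6 := rfl
    have h7 : Fin.succ (Fin.succ (Fin.succ (Fin.succ (Fin.succ (Fin.succ (Fin.succ
      (0 : Fin 3))))))) = 7 := rfl
    have h8 : Fin.succ (Fin.succ (Fin.succ (Fin.succ (Fin.succ (Fin.succ (Fin.succ (Fin.succ
      (0 : Fin 2)))))))) = 8 := rfl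
    have h9 : Fin.succ (Fin.succ (Fin.succ (Fin.succ (Fin.succ (Fin.succ (Fin.succ (Fin.succ
      (Fin.succ (0 : Fin 1))))))))) = 9 := rfl
    rw [h1, h2, h3, h4, h5, h6, h7, h8, h9]
    ring
  have g0 : gr a 0 ≤ 3 * (a 9 + sg a) := by
    show a 0 + a 1 + 2 * a 2 + 3 * (a 3 + a 4 + a 5 + a 6 + a 7 + a 8 + a 9) ≤ _
    unfold sg; omega
  have g1 : gr a 1 ≤ 2 * (a 9 + sg a) := by
    show a 0 + a 2 + 2 * (a 3 + a 4 + a 5 + a 6 + a 7 + a 8 + a 9) ≤ _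
    unfold sg; omega
  have g2 : gr a 2 ≤ 4 * (a 9 + sg a) := by
    show 2 * a 0 + a 1 + 2 * a 2 + 4 * (a 3 + a 4 + a 5 + a 6 + a 7 + a 8 + a 9) ≤ _
    unfold sg; omega
  have g3 : gr a 3 ≤ 6 * (a 9 + sg a) := by
    show 3 * a 0 + 2 * a 1 + 4 * a 2 + 6 * (a 3 + a 4 + a 5 + a 6 + a 7 + a 8 + a 9) ≤ _
    unfold sg; omega
  have g4 : gr a 4 ≤ 5 * (a 9 + sg a) := by
    show 3 * a 0 + 2 * a 1 + 4 * a 2 + 6 * a 3 + 5 * (a 4 + a 5 + a 6 + a 7 + a 8 + a 9) ≤ _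
    unfold sg; omega
  have g5 : gr a 5 ≤ 4 * (a 9 + sg a) := by
    show 3 * a 0 + 2 * a 1 + 4 * a 2 + 6 * a 3 + 5 * a 4 + 4 * (a 5 + a 6 + a 7 + a 8 + a 9) ≤ _
    unfold sg; omega
  have g6 : gr a 6 ≤ 3 * (a 9 + sg a) := by
    show 3 * a 0 + 2 * a 1 + 4 * a 2 + 6 * a 3 + 5 * a 4 + 4 * a 5
      + 3 * (a 6 + a 7 + a 8 + a 9) ≤ _
    unfold sg; omega
  have g7 : gr a 7 ≤ 2 * (a 9 + sg a) := by
    show 3 * a 0 + 2 * a 1 + 4 * a 2 + 6 * a 3 + 5 * a 4 + 4 * a 5 + 3 * a 6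
      + 2 * (a 7 + a 8 + a 9) ≤ _
    unfold sg; omega
  have g8 : gr a 8 ≤ 1 * (a 9 + sg a) := by
    show 3 * a 0 + 2 * a 1 + 4 * a 2 + 6 * a 3 + 5 * a 4 + 4 * a 5 + 3 * a 6 + 2 * a 7
      + (a 8 + a 9) ≤ _
    unfold sg; omega
  have g9 : gr a 9 = sg a := rfl
  have k0 := Nat.mul_le_mul_left (a 0) g0
  have k1 := Nat.mul_le_mul_left (a 1) g1
  have k2 := Nat.mul_le_mul_left (a 2) g2
  have k3 := Nat.mul_le_mul_left (a 3) g3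
  have k4 := Nat.mul_le_mul_left (a 4) g4
  have k5 := Nat.mul_le_mul_left (a 5) g5
  have k6 := Nat.mul_le_mul_left (a 6) g6
  have k7 := Nat.mul_le_mul_left (a 7) g7
  have k8 := Nat.mul_le_mul_left (a 8) g8
  have e2 : a 0 * (3 * (a 9 + sg a)) + a 1 * (2 * (a 9 + sg a)) + a 2 * (4 * (a 9 + sg a))
      + a 3 * (6 * (a 9 + sg a)) + a 4 * (5 * (a 9 + sg a)) + a 5 * (4 * (a 9 + sg a))
      + a 6 * (3 * (a 9 + sg a)) + a 7 * (2 * (a 9 + sg a)) + a 8 * (1 * (a 9 + sg a))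
      = sg a * (a 9 + sg a) := by
    generalize hw : a 9 + sg a = w
    unfold sg
    ring
  have e3 : 2 * sg a * a 9 + sg a ^ 2 = sg a * (a 9 + sg a) + a 9 * sg a := by ring
  rw [e, g9, e3, ← e2]
  omega

private theorem omTwo_num {M s A : ℕ} (hM : 1 ≤ M) (hs : 1 ≤ s) (hs' : s ≤ 690 * M)
    (h : 4000000 * M ^ 3 ≤ 2 * s * A + s ^ 2) :
    ∃ N : ℕ, (2 * M + 1) * N ≤ A ∧ A + s < (2 * M + 2) * N ∧
      9 * M ^ 2 + 2 * M ≤ s * (A - (2 * M + 1) * N) := by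
  obtain ⟨ρ, hρ1, hρ2⟩ : ∃ ρ : ℕ, 9 * M ^ 2 + 2 * M ≤ s * ρ ∧ s * ρ ≤ 9 * M ^ 2 + 2 * M + s := by
    refine ⟨(9 * M ^ 2 + 2 * M) / s + 1, ?_, ?_⟩
    · have h1 := Nat.div_add_mod (9 * M ^ 2 + 2 * M) s
      have h2 := Nat.mod_lt (9 * M ^ 2 + 2 * M) hs
      have h3 : s * ((9 * M ^ 2 + 2 * M) / s + 1) = s * ((9 * M ^ 2 + 2 * M) / s) + s := by ring
      omega
    · have h1 := Nat.mul_div_le (9 * M ^ 2 + 2 * M) s
      have h3 : s * ((9 * M ^ 2 + 2 * M) / s + 1) = s * ((9 * M ^ 2 + 2 * M) / s) + s := by ring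
      omega
  have hM2 : M ^ 2 ≤ M ^ 3 := Nat.pow_le_pow_right hM (by norm_num)
  have hss : s ^ 2 ≤ 476100 * M ^ 2 := by
    calc s ^ 2 ≤ (690 * M) ^ 2 := Nat.pow_le_pow_left hs' 2
      _ = 476100 * M ^ 2 := by ring
  have hkey : ρ + (2 * M + 1) * (ρ + 2 * M + 1 + s) ≤ A := by
    by_contra hc
    have hc' : A ≤ ρ + (2 * M + 1) * (ρ + 2 * M + 1 + s) := by omega
    have h1 := Nat.mul_le_mul_left s hc'
    have h2 : s * (ρ + (2 * M + 1) * (ρ + 2 * M + 1 + s))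
        = (s * ρ) * (2 * M + 2) + (2 * M + 1) ^ 2 * s + (2 * M + 1) * s ^ 2 := by ring
    have h3 : (s * ρ) * (2 * M + 2) ≤ 2804 * M ^ 3 := by
      calc (s * ρ) * (2 * M + 2) ≤ (9 * M ^ 2 + 2 * M + s) * (2 * M + 2) :=
            Nat.mul_le_mul_right _ hρ2
        _ ≤ (9 * M ^ 2 + 692 * M) * (4 * M) := Nat.mul_le_mul (by omega) (by omega)
        _ = 36 * M ^ 3 + 2768 * M ^ 2 := by ring
        _ ≤ 2804 * M ^ 3 := by omega
    have h4 : (2 * M + 1) ^ 2 * s ≤ 6210 * M ^ 3 := by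
      calc (2 * M + 1) ^ 2 * s ≤ (3 * M) ^ 2 * (690 * M) :=
            Nat.mul_le_mul (Nat.pow_le_pow_left (by omega) 2) hs'
        _ = 6210 * M ^ 3 := by ring
    have h5 : (2 * M + 1) * s ^ 2 ≤ 1428300 * M ^ 3 := by
      calc (2 * M + 1) * s ^ 2 ≤ (3 * M) * (476100 * M ^ 2) := Nat.mul_le_mul (by omega) hss
        _ = 1428300 * M ^ 3 := by ring
    have h6 : 2 * s * A = 2 * (s * A) := by ring
    have h7 : 1 ≤ M ^ 3 := Nat.one_le_pow _ _ hM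
    omega
  have hp : 0 < 2 * M + 1 := by omega
  have hρA : ρ ≤ A := by omega
  have d1 := Nat.div_mul_le_self (A - ρ) (2 * M + 1)
  have d2 := Nat.lt_div_mul_add (a := A - ρ) hp
  have hN : ρ + 2 * M + 1 + s ≤ (A - ρ) / (2 * M + 1) := by
    rw [Nat.le_div_iff_mul_le hp]
    have : (ρ + 2 * M + 1 + s) * (2 * M + 1) = (2 * M + 1) * (ρ + 2 * M + 1 + s) := by ring
    omega
  generalize hNN : (A - ρ) / (2 * M + 1) = N at d1 d2 hN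
  have e1 : N * (2 * M + 1) = (2 * M + 1) * N := by ring
  rw [e1] at d1 d2
  refine ⟨N, by omega, ?_, ?_⟩
  · have e2 : (2 * M + 2) * N = (2 * M + 1) * N + N := by ring
    rw [e2]
    omega
  · have : ρ ≤ A - (2 * M + 1) * N := by omega
    exact hρ1.trans (Nat.mul_le_mul_left s this)

theorem om_two {M : ℕ} (hM : 1 ≤ M) {a : Fin 10 → ℕ} (hs : 1 ≤ sg a)
    (hA : 4000000 * M ^ 3 ≤ pr a a) (hcase : ∀ i, i ≠ 9 → a i < 12 * (M + 1)) :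
    ∃ N : ℕ, (2 * M + 1) * N ≤ a 9 ∧ a 9 + sg a < (2 * M + 2) * N ∧
      9 * M ^ 2 + 2 * M ≤ sg a * (a 9 - (2 * M + 1) * N) := by
  refine omTwo_num hM hs ?_ (hA.trans (omTwo_pr a))
  have h0 := hcase 0 (by decide)
  have h1 := hcase 1 (by decide)
  have h2 := hcase 2 (by decide)
  have h3 := hcase 3 (by decide)
  have h4 := hcase 4 (by decide)
  have h5 := hcase 5 (by decide)
  have h6 := hcase 6 (by decide)
  have h7 := hcase 7 (by decide)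
  have h8 := hcase 8 (by decide)
  unfold sg
  omega

theorem om_three {M : ℕ} (hM : 1 ≤ M) {a : Fin 10 → ℕ} (hA : 4000000 * M ^ 3 ≤ pr a a)
    (hcase : ∀ i, i ≠ 1 → a i < 12 * (M + 1)) :
    36 * M ^ 2 + 60 * M + 27 ≤ dg a ∧ 72 * M ^ 2 + 92 * M + 29 ≤ sg a := by
  have e : pr a a = a 0 * gr a 0 + a 1 * gr a 1 + a 2 * gr a 2 + a 3 * gr a 3 + a 4 * gr a 4
      + a 5 * gr a 5 + a 6 * gr a 6 + a 7 * gr a 7 + a 8 * gr a 8 + a 9 * gr a 9 := by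
    unfold pr
    rw [Fin.sum_univ_succ, Fin.sum_univ_succ, Fin.sum_univ_succ, Fin.sum_univ_succ,
      Fin.sum_univ_succ, Fin.sum_univ_succ, Fin.sum_univ_succ, Fin.sum_univ_succ,
      Fin.sum_univ_succ, Fin.sum_univ_succ]
    simp only [Finset.univ_eq_empty, Finset.sum_empty, add_zero]
    have h1 : Fin.succ (0 : Fin 9) = 1 := rfl
    have h2 : Fin.succ (Fin.succ (0 : Fin 8)) = 2 := rfl
    have h3 : Fin.succ (Fin.succ (Fin.succ (0 : Fin 7))) = 3 := rfl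
    have h4 : Fin.succ (Fin.succ (Fin.succ (Fin.succ (0 : Fin 6)))) = 4 := rfl
    have h5 : Fin.succ (Fin.succ (Fin.succ (Fin.succ (Fin.succ (0 : Fin 5))))) = 5 := rfl
    have h6 : Fin.succ (Fin.succ (Fin.succ (Fin.succ (Fin.succ (Fin.succ (0 : Fin 4)))))) = 6 := rfl
    have h7 : Fin.succ (Fin.succ (Fin.succ (Fin.succ (Fin.succ (Fin.succ (Fin.succ
      (0 : Fin 3))))))) = 7 := rfl
    have h8 : Fin.succ (Fin.succ (Fin.succ (Fin.succ (Fin.succ (Fin.succ (Fin.succ (Fin.succ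
      (0 : Fin 2)))))))) = 8 := rfl
    have h9 : Fin.succ (Fin.succ (Fin.succ (Fin.succ (Fin.succ (Fin.succ (Fin.succ (Fin.succ
      (Fin.succ (0 : Fin 1))))))))) = 9 := rfl
    rw [h1, h2, h3, h4, h5, h6, h7, h8, h9]
    ring
  obtain ⟨L, hL⟩ : ∃ L, L = 23 * M := ⟨_, rfl⟩
  have h0 : a 0 ≤ L := by have := hcase 0 (by decide); omega
  have h2 : a 2 ≤ L := by have := hcase 2 (by decide); omega
  have h3 : a 3 ≤ L := by have := hcase 3 (by decide); omega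
  have h4 : a 4 ≤ L := by have := hcase 4 (by decide); omega
  have h5 : a 5 ≤ L := by have := hcase 5 (by decide); omega
  have h6 : a 6 ≤ L := by have := hcase 6 (by decide); omega
  have h7 : a 7 ≤ L := by have := hcase 7 (by decide); omega
  have h8 : a 8 ≤ L := by have := hcase 8 (by decide); omega
  have h9 : a 9 ≤ L := by have := hcase 9 (by decide); omega
  have g1 : gr a 1 ≤ 16 * L := by
    show a 0 + a 2 + 2 * (a 3 + a 4 + a 5 + a 6 + a 7 + a 8 + a 9) ≤ _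
    omega
  have g0 : gr a 0 ≤ a 1 + 24 * L := by
    show a 0 + a 1 + 2 * a 2 + 3 * (a 3 + a 4 + a 5 + a 6 + a 7 + a 8 + a 9) ≤ _
    omega
  have g2 : gr a 2 ≤ a 1 + 32 * L := by
    show 2 * a 0 + a 1 + 2 * a 2 + 4 * (a 3 + a 4 + a 5 + a 6 + a 7 + a 8 + a 9) ≤ _
    omega
  have g3 : gr a 3 ≤ 2 * a 1 + 49 * L := by
    show 3 * a 0 + 2 * a 1 + 4 * a 2 + 6 * (a 3 + a 4 + a 5 + a 6 + a 7 + a 8 + a 9) ≤ _
    omega
  have g4 : gr a 4 ≤ 2 * a 1 + 43 * L := by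
    show 3 * a 0 + 2 * a 1 + 4 * a 2 + 6 * a 3 + 5 * (a 4 + a 5 + a 6 + a 7 + a 8 + a 9) ≤ _
    omega
  have g5 : gr a 5 ≤ 2 * a 1 + 38 * L := by
    show 3 * a 0 + 2 * a 1 + 4 * a 2 + 6 * a 3 + 5 * a 4 + 4 * (a 5 + a 6 + a 7 + a 8 + a 9) ≤ _
    omega
  have g6 : gr a 6 ≤ 2 * a 1 + 34 * L := by
    show 3 * a 0 + 2 * a 1 + 4 * a 2 + 6 * a 3 + 5 * a 4 + 4 * a 5
      + 3 * (a 6 + a 7 + a 8 + a 9) ≤ _
    omega
  have g7 : gr a 7 ≤ 2 * a 1 + 31 * L := by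
    show 3 * a 0 + 2 * a 1 + 4 * a 2 + 6 * a 3 + 5 * a 4 + 4 * a 5 + 3 * a 6
      + 2 * (a 7 + a 8 + a 9) ≤ _
    omega
  have g8 : gr a 8 ≤ 2 * a 1 + 29 * L := by
    show 3 * a 0 + 2 * a 1 + 4 * a 2 + 6 * a 3 + 5 * a 4 + 4 * a 5 + 3 * a 6 + 2 * a 7
      + (a 8 + a 9) ≤ _
    omega
  have g9 : gr a 9 ≤ 2 * a 1 + 28 * L := by
    show 3 * a 0 + 2 * a 1 + 4 * a 2 + 6 * a 3 + 5 * a 4 + 4 * a 5 + 3 * a 6 + 2 * a 7
      + a 8 ≤ _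
    omega
  have k0 := Nat.mul_le_mul h0 g0
  have k1 := Nat.mul_le_mul_left (a 1) g1
  have k2 := Nat.mul_le_mul h2 g2
  have k3 := Nat.mul_le_mul h3 g3
  have k4 := Nat.mul_le_mul h4 g4
  have k5 := Nat.mul_le_mul h5 g5
  have k6 := Nat.mul_le_mul h6 g6
  have k7 := Nat.mul_le_mul h7 g7
  have k8 := Nat.mul_le_mul h8 g8
  have k9 := Nat.mul_le_mul h9 g9
  have hpr : pr a a ≤ 32 * (L * a 1) + 308 * L ^ 2 := by
    rw [e]
    nlinarith [k0, k1, k2, k3, k4, k5, k6, k7, k8, k9]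
  have hM2 : M ^ 2 ≤ M ^ 3 := Nat.pow_le_pow_right hM (by norm_num)
  have hMM : M ≤ M ^ 2 := by nlinarith
  have h1M : 1 ≤ M ^ 2 := Nat.one_le_pow _ _ hM
  have key : 5000 * M ^ 2 ≤ a 1 := by
    by_contra hc
    have hc' : a 1 ≤ 5000 * M ^ 2 := by omega
    have q1 : L * a 1 ≤ (23 * M) * (5000 * M ^ 2) := by
      rw [hL]
      exact Nat.mul_le_mul_left _ hc'
    have q2 : (23 * M) * (5000 * M ^ 2) = 115000 * M ^ 3 := by ring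
    have q3 : L ^ 2 = 529 * M ^ 2 := by rw [hL]; ring
    rw [q2] at q1
    rw [q3] at hpr
    omega
  have hdg : a 1 ≤ dg a := by unfold dg; omega
  have hsg : 2 * a 1 ≤ sg a := by unfold sg; omega
  constructor
  · omega
  · omega

end Pool.Agent.Lib.MP_6b2d39_agVn
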