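import Pool.Agent.Lib.MP_6b2d39_agVn.FinV
import Pool.Agent.Lib.MP_6b2d39_agVn.CoreV
import Pool.Agent.Lib.MP_6b2d39_agVn.FlatV
import Pool.Agent.Lib.MP_6b2d39_agVn.OmOne
import Pool.Agent.Lib.MP_6b2d39_agVn.OmTwo

/-!
Reduced systems: nine arbitrary multiplicities, the others at most `M`.

PROOF. `exists_enum` for `S`, `m i = n (τ i)` antitone, `m 0 + m 1 + m 2 ≤ e` (`hred`); `exists_coord`: `e = dg a`, `m = mu a`;
`pr_eq`: `4000000 M ^ 3 ≤ pr a a`. If `sg a = 0`: `3 e = ∑ m i`: `finish` with `core_zero` (as in `nine_exact`: `ar_zero`, `ne_choose`: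
the mass of `J` is positive, so some `l j ≥ 1`). Otherwise: first case of `om_one`: `finish` with `core_one`; if all
`a i < 12 (M + 1)`, `i ≠ 9`: `om_two`, `finish` with `core_two` (`mu a 8 = a 9`); if all `a i < 12 (M + 1)`, `i ≠ 1`: `om_three` and
`reduced_large8` (at most eight `n i > M`) or `reduced_nine` (nine `n i > M`: then `S = {i | M < n i}`).
-/

open Polynomial

set_option autoImplicit false

namespace Pool.Agent.Lib.MP_6b2d39_agVn

open Pool.Agent.Lib.MP_6b2d39_ag Pool.Agent.Lib.MP_6b2d39_agWin Pool.Agent.Lib.MP_6b2d39_agNw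
  Pool.Agent.Lib.MP_6b2d39_agHal Pool.Agent.Lib.MP_6b2d39_agCr Pool.Agent.Lib.MP_6b2d39_agNf

private theorem nv_choose (a : ℕ) : (3 * a + 2).choose 2 = 9 * (a + 1).choose 2 + 1 := by
  have h1 : 2 * (3 * a + 2).choose 2 = (3 * a + 2) * (3 * a + 1) := by
    have h2 := Nat.choose_two_right (3 * a + 2)
    rw [h2]
    have h3 : 2 ∣ (3 * a + 2) * (3 * a + 2 - 1) := (Nat.even_mul_pred_self (3 * a + 2)).two_dvd
    rw [Nat.mul_div_cancel' h3]
    rfl
  have h2 : 2 * (a + 1).choose 2 = (a + 1) * a := by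
    have h2 := Nat.choose_two_right (a + 1)
    rw [h2]
    have h3 : 2 ∣ (a + 1) * (a + 1 - 1) := (Nat.even_mul_pred_self (a + 1)).two_dvd
    rw [Nat.mul_div_cancel' h3]
    rfl
  have h3 : (3 * a + 2) * (3 * a + 1) = 9 * ((a + 1) * a) + 2 := by ring
  omega

theorem nine_v {h : ℕ} (hh : 3 ≤ h) {e : ℕ} {n : Fin h → ℕ} (hred : Reduced e n) {M : ℕ}
    (hM : 1 ≤ M) {S : Finset (Fin h)} (hS : S.card = 9) (hSM : ∀ j, j ∉ S → n j ≤ M)
    (hA : ∑ i ∈ S, n i ^ 2 + 4000000 * M ^ 3 ≤ e ^ 2) :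
    General (fun P => (Module.finrank ℂ (curves e n P) : ℤ) = max (vd e n) 0) := by
  classical
  obtain ⟨τ, hτ, hτS⟩ := exists_enum n hS
  have hsumS : ∀ f : Fin h → ℕ, ∑ i ∈ S, f i = ∑ i, f (τ i) := by
    intro f
    rw [← hτS, Finset.sum_map]
  have hr : n (τ 0) + n (τ 1) + n (τ 2) ≤ e := by
    have h1 := hred ((Fin.castLEEmb (by norm_num : 3 ≤ 9)).trans τ)
    rw [Fin.sum_univ_three] at h1
    exact h1
  obtain ⟨a, hea, hma⟩ := exists_coord (m := fun i => n (τ i)) hτ hr
  have hmi : ∀ i, n (τ i) = mu a i := fun i => congrFun hma i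
  have hA' : 4000000 * M ^ 3 ≤ pr a a := by
    have h1 : ∑ i ∈ S, n i ^ 2 = ∑ i, mu a i * mu a i := by
      rw [hsumS (fun i => n i ^ 2)]
      refine Finset.sum_congr rfl fun i _ => ?_
      rw [hmi i]
      ring
    have h2 := pr_eq a a
    rw [h1, hea, pow_two, h2] at hA
    omega
  have hdeg : 3 * e = ∑ i, n (τ i) + sg a := by
    have h1 := om_deg a
    rw [← hea] at h1
    rw [h1, Finset.sum_congr rfl fun i _ => hmi i]
  have hτ' : ∀ j, j ∉ Finset.univ.map τ → n j ≤ M := by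
    rw [hτS]
    exact hSM
  have hmass' : ∀ {ι : Type} [Fintype ι] [DecidableEq ι] {l : ι → ℕ} {J : Finset ι},
      (e + 2).choose 2 ≤ ∑ i, (n (τ i) + 1).choose 2 + mass l J →
      (dg a + 2).choose 2 ≤ ∑ i, (mu a i + 1).choose 2 + mass l J := by
    intro ι _ _ l J h1
    rw [← hea, Finset.sum_congr rfl fun i _ => by rw [← hmi i]]
    exact h1
  rcases Nat.eq_zero_or_pos (sg a) with h0 | hs
  · refine finish hM τ hτ' ?_
    intro ι _ _ l J hJ hmass
    rw [h0, add_zero] at hdeg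
    obtain ⟨h1, h2⟩ := ar_zero (m := fun i => n (τ i)) hτ hr hdeg
    have h1 : e = 3 * n (τ 0) := h1
    have h3 : ∑ i, (n (τ i) + 1).choose 2 = 9 * (n (τ 0) + 1).choose 2 := by
      have h4 : ∀ i ∈ (Finset.univ : Finset (Fin 9)),
          (n (τ i) + 1).choose 2 = (n (τ 0) + 1).choose 2 := by
        intro i _
        have h5 : n (τ i) = n (τ 0) := h2 i
        rw [h5]
      rw [Finset.sum_congr rfl h4, Finset.sum_const, Finset.card_univ, Fintype.card_fin,
        smul_eq_mul]
    have hm0 : mass l J ≠ 0 := by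
      rw [h3, h1, nv_choose] at hmass
      omega
    unfold mass at hm0
    obtain ⟨j, hj, hj0⟩ := Finset.exists_ne_zero_of_sum_ne_zero hm0
    refine core_zero (m := fun i => n (τ i)) hτ hr hdeg ⟨j, hj, ?_⟩
    by_contra hcon
    apply hj0
    have h5 : l j = 0 := by omega
    rw [h5]
    rfl
  · by_cases hc1 : (∃ i, i ≠ 1 ∧ i ≠ 9 ∧ 12 * (M + 1) ≤ a i) ∨
      (12 * (M + 1) ≤ a 1 ∧ 12 * (M + 1) ≤ a 9)
    · have hA1 : 10736 * M ^ 3 ≤ pr a a := le_trans (Nat.mul_le_mul_right _ (by norm_num)) hA'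
      obtain ⟨c, a', h9, h1, ha, hs', hlow⟩ := om_one hM hs hA1 hc1
      refine finish hM τ hτ' ?_
      intro ι _ _ l J hJ hmass
      rw [hma, hea]
      exact core_one hM h9 h1 ha hs' hlow hJ (hmass' hmass)
    · have hc1' := not_or.1 hc1
      by_cases hc2 : ∀ i, i ≠ 9 → a i < 12 * (M + 1)
      · obtain ⟨N, k1, k2, k3⟩ := om_two hM hs hA' hc2
        refine finish hM τ hτ' ?_
        intro ι _ _ l J hJ hmass
        rw [hma, hea]
        exact core_two hM hs (om_anti a) (om_red a) (om_deg a) k1 k2 k3 hJ (hmass' hmass)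
      · have h1 : 12 * (M + 1) ≤ a 1 := by
          by_contra hcon
          apply hc2
          intro i hi
          by_contra hcon2
          rcases eq_or_ne i 1 with rfl | hi1
          · exact hcon (not_lt.1 hcon2)
          · exact hc1'.1 ⟨i, hi1, hi, not_lt.1 hcon2⟩
        have hc3 : ∀ i, i ≠ 1 → a i < 12 * (M + 1) := by
          intro i hi
          by_contra hcon
          rcases eq_or_ne i 9 with rfl | hi9
          · exact hc1'.2 ⟨h1, not_lt.1 hcon⟩
          · exact hc1'.1 ⟨i, hi, hi9, not_lt.1 hcon⟩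
        obtain ⟨k1, k2⟩ := om_three hM hA' hc3
        by_cases hcard : (Finset.univ.filter (fun i => M < n i)).card ≤ 8
        · exact reduced_large8 hh hred hM hcard (by rw [hea]; exact k1)
        · have hsub : Finset.univ.filter (fun i => M < n i) ⊆ S := by
            intro i hi
            by_contra hcon
            exact absurd (hSM i hcon) (not_le.2 (Finset.mem_filter.1 hi).2)
          have hle := Finset.card_le_card hsub
          have heq : Finset.univ.filter (fun i => M < n i) = S :=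
            Finset.eq_of_subset_of_card_le hsub (by omega)
          refine reduced_nine hh hred hM (by rw [heq]; exact hS) ?_
          rw [heq, hsumS (fun i => n i)]
          omega

end Pool.Agent.Lib.MP_6b2d39_agVn
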