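import Pool.Agent.Lib.MP_6b2d39_agVn.Defs

/-!
Coordinates of the reduced sorted classes.

PROOF. `om_anti`, `om_red`, `om_deg`: `mu a i` is the sum of the `a j`, `j > i` (unfold, `Fin` cases, omega). `exists_coord`:
`a 0 = e - m 0 - m 1 - m 2`, `a j = m (j - 1) - m j` (`1 ≤ j ≤ 8`), `a 9 = m 8`. `pr_eq`, `pr_symm`, additivity: unfold,
`Fin.sum_univ_succ`, `ring`. `om_chi`: `(n + 2).choose 2 = (n + 2)(n + 1) / 2` and `pr_eq`, `om_deg`.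
-/

open Polynomial

set_option autoImplicit false

namespace Pool.Agent.Lib.MP_6b2d39_agVn

open Pool.Agent.Lib.MP_6b2d39_ag Pool.Agent.Lib.MP_6b2d39_agHal

private theorem om_mu (a : Fin 10 → ℕ) :
    mu a 0 = a 1 + a 2 + a 3 + a 4 + a 5 + a 6 + a 7 + a 8 + a 9 ∧
    mu a 1 = a 2 + a 3 + a 4 + a 5 + a 6 + a 7 + a 8 + a 9 ∧
    mu a 2 = a 3 + a 4 + a 5 + a 6 + a 7 + a 8 + a 9 ∧
    mu a 3 = a 4 + a 5 + a 6 + a 7 + a 8 + a 9 ∧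
    mu a 4 = a 5 + a 6 + a 7 + a 8 + a 9 ∧
    mu a 5 = a 6 + a 7 + a 8 + a 9 ∧
    mu a 6 = a 7 + a 8 + a 9 ∧
    mu a 7 = a 8 + a 9 ∧
    mu a 8 = a 9 := ⟨rfl, rfl, rfl, rfl, rfl, rfl, rfl, rfl, rfl⟩

private theorem om_sum9 (f : Fin 9 → ℕ) :
    ∑ i, f i = f 0 + f 1 + f 2 + f 3 + f 4 + f 5 + f 6 + f 7 + f 8 := by
  rw [Fin.sum_univ_succ, Fin.sum_univ_eight]
  simp only [Fin.succ_zero_eq_one]
  have h : (0 : Fin 8).succ = (1 : Fin 9) ∧ (1 : Fin 8).succ = (2 : Fin 9) ∧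
      (2 : Fin 8).succ = (3 : Fin 9) ∧ (3 : Fin 8).succ = (4 : Fin 9) ∧
      (4 : Fin 8).succ = (5 : Fin 9) ∧ (5 : Fin 8).succ = (6 : Fin 9) ∧
      (6 : Fin 8).succ = (7 : Fin 9) ∧ (7 : Fin 8).succ = (8 : Fin 9) := by decide
  obtain ⟨-, h1, h2, h3, h4, h5, h6, h7⟩ := h
  rw [h1, h2, h3, h4, h5, h6, h7]
  ring

theorem om_anti (a : Fin 10 → ℕ) : Antitone (mu a) := by
  obtain ⟨h0, h1, h2, h3, h4, h5, h6, h7, h8⟩ := om_mu a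
  refine Fin.antitone_iff_succ_le.2 fun i => ?_
  fin_cases i
  · show mu a 1 ≤ mu a 0
    omega
  · show mu a 2 ≤ mu a 1
    omega
  · show mu a 3 ≤ mu a 2
    omega
  · show mu a 4 ≤ mu a 3
    omega
  · show mu a 5 ≤ mu a 4
    omega
  · show mu a 6 ≤ mu a 5
    omega
  · show mu a 7 ≤ mu a 6
    omega
  · show mu a 8 ≤ mu a 7
    omega

theorem om_red (a : Fin 10 → ℕ) : mu a 0 + mu a 1 + mu a 2 ≤ dg a := by
  obtain ⟨h0, h1, h2, h3, h4, h5, h6, h7, h8⟩ := om_mu a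
  rw [h0, h1, h2, dg]
  omega

theorem om_deg (a : Fin 10 → ℕ) : 3 * dg a = ∑ i, mu a i + sg a := by
  obtain ⟨h0, h1, h2, h3, h4, h5, h6, h7, h8⟩ := om_mu a
  rw [om_sum9, h0, h1, h2, h3, h4, h5, h6, h7, h8, dg, sg]
  omega

theorem exists_coord {e : ℕ} {m : Fin 9 → ℕ} (hm : Antitone m) (hr : m 0 + m 1 + m 2 ≤ e) :
    ∃ a : Fin 10 → ℕ, e = dg a ∧ m = mu a := by
  have h0 : m 1 ≤ m 0 := hm (by decide)
  have h1 : m 2 ≤ m 1 := hm (by decide)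
  have h2 : m 3 ≤ m 2 := hm (by decide)
  have h3 : m 4 ≤ m 3 := hm (by decide)
  have h4 : m 5 ≤ m 4 := hm (by decide)
  have h5 : m 6 ≤ m 5 := hm (by decide)
  have h6 : m 7 ≤ m 6 := hm (by decide)
  have h7 : m 8 ≤ m 7 := hm (by decide)
  obtain ⟨a, ha⟩ : ∃ a : Fin 10 → ℕ, a 0 = e - (m 0 + m 1 + m 2) ∧ a 1 = m 0 - m 1 ∧
      a 2 = m 1 - m 2 ∧ a 3 = m 2 - m 3 ∧ a 4 = m 3 - m 4 ∧ a 5 = m 4 - m 5 ∧ a 6 = m 5 - m 6 ∧
      a 7 = m 6 - m 7 ∧ a 8 = m 7 - m 8 ∧ a 9 = m 8 :=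
    ⟨![e - (m 0 + m 1 + m 2), m 0 - m 1, m 1 - m 2, m 2 - m 3, m 3 - m 4, m 4 - m 5, m 5 - m 6,
      m 6 - m 7, m 7 - m 8, m 8], rfl, rfl, rfl, rfl, rfl, rfl, rfl, rfl, rfl, rfl⟩
  obtain ⟨a0, a1, a2, a3, a4, a5, a6, a7, a8, a9⟩ := ha
  obtain ⟨k0, k1, k2, k3, k4, k5, k6, k7, k8⟩ := om_mu a
  refine ⟨a, ?_, ?_⟩
  · rw [dg]
    omega
  · funext i
    fin_cases i
    · show m 0 = mu a 0
      omega
    · show m 1 = mu a 1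
      omega
    · show m 2 = mu a 2
      omega
    · show m 3 = mu a 3
      omega
    · show m 4 = mu a 4
      omega
    · show m 5 = mu a 5
      omega
    · show m 6 = mu a 6
      omega
    · show m 7 = mu a 7
      omega
    · show m 8 = mu a 8
      omega

theorem dg_add (a b : Fin 10 → ℕ) : dg (a + b) = dg a + dg b := by
  simp only [dg, Pi.add_apply]
  ring

private theorem om_mu_ext {f g : Fin 9 → ℕ} (h : f 0 = g 0 ∧ f 1 = g 1 ∧ f 2 = g 2 ∧ f 3 = g 3 ∧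
    f 4 = g 4 ∧ f 5 = g 5 ∧ f 6 = g 6 ∧ f 7 = g 7 ∧ f 8 = g 8) : f = g := by
  obtain ⟨h0, h1, h2, h3, h4, h5, h6, h7, h8⟩ := h
  funext i
  fin_cases i
  · exact h0
  · exact h1
  · exact h2
  · exact h3
  · exact h4
  · exact h5
  · exact h6
  · exact h7
  · exact h8

theorem mu_add (a b : Fin 10 → ℕ) : mu (a + b) = mu a + mu b := by
  obtain ⟨h0, h1, h2, h3, h4, h5, h6, h7, h8⟩ := om_mu a
  obtain ⟨k0, k1, k2, k3, k4, k5, k6, k7, k8⟩ := om_mu b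
  obtain ⟨l0, l1, l2, l3, l4, l5, l6, l7, l8⟩ := om_mu (a + b)
  refine om_mu_ext ?_
  simp only [Pi.add_apply, h0, h1, h2, h3, h4, h5, h6, h7, h8, k0, k1, k2, k3, k4, k5, k6, k7,
    k8, l0, l1, l2, l3, l4, l5, l6, l7, l8]
  refine ⟨?_, ?_, ?_, ?_, ?_, ?_, ?_, ?_, trivial⟩ <;> ring

theorem sg_add (a b : Fin 10 → ℕ) : sg (a + b) = sg a + sg b := by
  simp only [sg, Pi.add_apply]
  ring

theorem dg_smul (c : ℕ) (a : Fin 10 → ℕ) : dg (c • a) = c * dg a := by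
  simp only [dg, Pi.smul_apply, smul_eq_mul]
  ring

theorem mu_smul (c : ℕ) (a : Fin 10 → ℕ) : mu (c • a) = c • mu a := by
  obtain ⟨h0, h1, h2, h3, h4, h5, h6, h7, h8⟩ := om_mu a
  obtain ⟨l0, l1, l2, l3, l4, l5, l6, l7, l8⟩ := om_mu (c • a)
  refine om_mu_ext ?_
  simp only [Pi.smul_apply, smul_eq_mul, h0, h1, h2, h3, h4, h5, h6, h7, h8, l0, l1, l2, l3, l4,
    l5, l6, l7, l8]
  refine ⟨?_, ?_, ?_, ?_, ?_, ?_, ?_, ?_, trivial⟩ <;> ring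

theorem sg_smul (c : ℕ) (a : Fin 10 → ℕ) : sg (c • a) = c * sg a := by
  simp only [sg, Pi.smul_apply, smul_eq_mul]
  ring

theorem pr_add (a b c : Fin 10 → ℕ) : pr (a + b) c = pr a c + pr b c := by
  simp only [pr, Pi.add_apply, add_mul, Finset.sum_add_distrib]

theorem pr_smul (n : ℕ) (a b : Fin 10 → ℕ) : pr (n • a) b = n * pr a b := by
  simp only [pr, Pi.smul_apply, smul_eq_mul, mul_assoc, Finset.mul_sum]

private theorem om_sum10 (f : Fin 10 → ℕ) :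
    ∑ i, f i = f 0 + f 1 + f 2 + f 3 + f 4 + f 5 + f 6 + f 7 + f 8 + f 9 := by
  rw [Fin.sum_univ_succ, om_sum9]
  have h : (0 : Fin 9).succ = (1 : Fin 10) ∧ (1 : Fin 9).succ = (2 : Fin 10) ∧
      (2 : Fin 9).succ = (3 : Fin 10) ∧ (3 : Fin 9).succ = (4 : Fin 10) ∧
      (4 : Fin 9).succ = (5 : Fin 10) ∧ (5 : Fin 9).succ = (6 : Fin 10) ∧
      (6 : Fin 9).succ = (7 : Fin 10) ∧ (7 : Fin 9).succ = (8 : Fin 10) ∧
      (8 : Fin 9).succ = (9 : Fin 10) := by decide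
  obtain ⟨h0, h1, h2, h3, h4, h5, h6, h7, h8⟩ := h
  rw [h0, h1, h2, h3, h4, h5, h6, h7, h8]
  ring

private theorem om_pr (a b : Fin 10 → ℕ) : pr a b =
    a 0 * (b 0 + b 1 + 2 * b 2 + 3 * (b 3 + b 4 + b 5 + b 6 + b 7 + b 8 + b 9)) +
    a 1 * (b 0 + b 2 + 2 * (b 3 + b 4 + b 5 + b 6 + b 7 + b 8 + b 9)) +
    a 2 * (2 * b 0 + b 1 + 2 * b 2 + 4 * (b 3 + b 4 + b 5 + b 6 + b 7 + b 8 + b 9)) +
    a 3 * (3 * b 0 + 2 * b 1 + 4 * b 2 + 6 * (b 3 + b 4 + b 5 + b 6 + b 7 + b 8 + b 9)) +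
    a 4 * (3 * b 0 + 2 * b 1 + 4 * b 2 + 6 * b 3 + 5 * (b 4 + b 5 + b 6 + b 7 + b 8 + b 9)) +
    a 5 * (3 * b 0 + 2 * b 1 + 4 * b 2 + 6 * b 3 + 5 * b 4 + 4 * (b 5 + b 6 + b 7 + b 8 + b 9)) +
    a 6 * (3 * b 0 + 2 * b 1 + 4 * b 2 + 6 * b 3 + 5 * b 4 + 4 * b 5 +
      3 * (b 6 + b 7 + b 8 + b 9)) +
    a 7 * (3 * b 0 + 2 * b 1 + 4 * b 2 + 6 * b 3 + 5 * b 4 + 4 * b 5 + 3 * b 6 +
      2 * (b 7 + b 8 + b 9)) +
    a 8 * (3 * b 0 + 2 * b 1 + 4 * b 2 + 6 * b 3 + 5 * b 4 + 4 * b 5 + 3 * b 6 + 2 * b 7 +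
      (b 8 + b 9)) +
    a 9 * (3 * b 0 + 2 * b 1 + 4 * b 2 + 6 * b 3 + 5 * b 4 + 4 * b 5 + 3 * b 6 + 2 * b 7 +
      b 8) := by
  rw [pr, om_sum10]
  rfl

theorem pr_symm (a b : Fin 10 → ℕ) : pr a b = pr b a := by
  rw [om_pr, om_pr]
  ring

theorem pr_eq (a b : Fin 10 → ℕ) : dg a * dg b = ∑ i, mu a i * mu b i + pr a b := by
  obtain ⟨h0, h1, h2, h3, h4, h5, h6, h7, h8⟩ := om_mu a
  obtain ⟨k0, k1, k2, k3, k4, k5, k6, k7, k8⟩ := om_mu b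
  rw [om_pr, om_sum9, h0, h1, h2, h3, h4, h5, h6, h7, h8, k0, k1, k2, k3, k4, k5, k6, k7, k8, dg,
    dg]
  ring

private theorem om_choose (n : ℕ) : 2 * (n + 1).choose 2 = n * n + n := by
  rw [Nat.choose_two_right, Nat.add_sub_cancel, Nat.mul_div_cancel']
  · ring
  · exact (Nat.even_mul_pred_self (n + 1)).two_dvd

/-- the Riemann-Roch number -/
theorem om_chi (a : Fin 10 → ℕ) :
    2 * (dg a + 2).choose 2 = 2 * ∑ i, (mu a i + 1).choose 2 + (pr a a + sg a + 2) := by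
  have h1 := om_choose (dg a + 1)
  have h2 : 2 * ∑ i, (mu a i + 1).choose 2 = ∑ i, mu a i * mu a i + ∑ i, mu a i := by
    rw [Finset.mul_sum, ← Finset.sum_add_distrib]
    exact Finset.sum_congr rfl fun i _ => om_choose (mu a i)
  have h3 := pr_eq a a
  have h4 := om_deg a
  rw [h2]
  have h5 : (dg a + 1) * (dg a + 1) = dg a * dg a + 2 * dg a + 1 := by ring
  rw [h5] at h1
  have h6 : dg a + 1 + 1 = dg a + 2 := rfl
  rw [h6] at h1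
  omega

end Pool.Agent.Lib.MP_6b2d39_agVn
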