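import Pool.Agent.Lib.MP_6b2d39_agVn.CurA

/-!
The systems `quo G b (Sp n m)`.

PROOF. `quo_sp` as `Hal.pow_mem` in `Hal/IrrC.lean` (`inV_cancel` with `not_inV_pow`, `mult_cancel` with `not_mult_pow`, `inV_mul`,
`inV_pow`, `mult_mul`, `mult_pow`), with truncated subtraction: if `n ≤ b * dg d`, `G ^ b * F ∈ Sp n` gives `InV (b * dg d + 0)`, so
`InV 0 F`, `F = 0` (`InV_zero`); if `m i ≤ b * mu d i` the condition at `i` is empty (`mult_zero`, `mult_anti`).
`finrank_quo`: `quo_sp`, `exact_eq` (`h.tok.par`) for the class `a'` (`om_anti`, `om_red`, `om_deg`), `om_chi`.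
`mul_quo`: if `F ∈ Sp (dg d + 1) (mu d)` and `H ∈ quo G (b + 1) W` then `F * H ∈ quo G b W`, by `quo_sp`
(`(n - (b + 1) δ) + δ ≤ n - b δ` if `(b + 1) δ ≤ n`, otherwise `H = 0`; `m i - b k i ≤ k i + (m i - (b + 1) k i)`).
-/

open Polynomial

set_option autoImplicit false

namespace Pool.Agent.Lib.MP_6b2d39_agVn

open Pool.Agent.Lib.MP_6b2d39_ag Pool.Agent.Lib.MP_6b2d39_agHal

variable {d : Fin 10 → ℕ} {t : Fin 9 → ℂ} {w : ℂ} {G : ℂ[X][X]}

theorem Cur.quo_sp (h : Cur d t w G) (n b : ℕ) (m : Fin 9 → ℕ) :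
    quo G b (Sp n (fun i => gam (t i)) m) =
      Sp (n - b * dg d) (fun i => gam (t i)) (fun i => m i - b * mu d i) := by
  have hG := mem_Sp.1 h.mem
  ext F
  rw [mem_quo, mem_Sp, mem_Sp]
  constructor
  · rintro ⟨h1, h2⟩
    refine ⟨?_, fun i => ?_⟩
    · refine inV_cancel (not_inV_pow h.not_inV b) (inV_mono ?_ h1)
      omega
    · rcases le_total (b * mu d i) (m i) with hi | hi
      · refine mult_cancel (not_mult_pow (h.not_mult i) b) ?_
        rw [Nat.add_sub_cancel' hi]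
        exact h2 i
      · have h3 : m i - b * mu d i = 0 := Nat.sub_eq_zero_of_le hi
        show Mult (m i - b * mu d i) _ F
        rw [h3]
        exact mult_zero _ F
  · rintro ⟨h1, h2⟩
    refine ⟨?_, fun i => ?_⟩
    · rcases le_total n (b * dg d) with hn | hn
      · have h3 : n - b * dg d = 0 := Nat.sub_eq_zero_of_le hn
        rw [h3] at h1
        rw [InV_zero h1, mul_zero]
        intro i j _
        simp
      · have h4 := inV_mul (inV_pow hG.1 b) h1
        rw [Nat.add_sub_cancel' hn] at h4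
        exact h4
    · have h4 : Mult (b * mu d i + (m i - b * mu d i)) (gam (t i)) (G ^ b * F) :=
        mult_mul (mult_pow (hG.2 i) b) (h2 i)
      refine mult_anti ?_ h4
      omega

theorem Cur.finrank_quo (h : Cur d t w G) {a a' : Fin 10 → ℕ} {b : ℕ} (ha : a = a' + b • d)
    (hs : 1 ≤ sg a') :
    2 * Module.finrank ℂ (quo G b (Sp (dg a + 1) (fun i => gam (t i)) (mu a))) =
      pr a' a' + sg a' + 2 := by
  have h1 : dg a = dg a' + b * dg d := by rw [ha, dg_add, dg_smul]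
  have h2 : ∀ i, mu a i = mu a' i + b * mu d i := by
    intro i
    rw [ha, mu_add, mu_smul, Pi.add_apply, Pi.smul_apply, smul_eq_mul]
  have h3 : dg a + 1 - b * dg d = dg a' + 1 := by omega
  have h4 : (fun i => mu a i - b * mu d i) = mu a' := by
    funext i
    rw [h2 i, Nat.add_sub_cancel]
  have h5 := om_deg a'
  rw [h.quo_sp, h3, h4]
  have h6 := exact_eq h.tok.par (n := dg a') (m := mu a') (om_anti a') (om_red a') (by omega)
  have h7 := om_chi a'
  omega

theorem Cur.mul_quo (h : Cur d t w G) {n b : ℕ} {m : Fin 9 → ℕ} {F H : ℂ[X][X]}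
    (hF : F ∈ Sp (dg d + 1) (fun i => gam (t i)) (mu d))
    (hH : H ∈ quo G (b + 1) (Sp n (fun i => gam (t i)) m)) :
    F * H ∈ quo G b (Sp n (fun i => gam (t i)) m) := by
  rw [h.quo_sp, mem_Sp] at hH ⊢
  obtain ⟨hF1, hF2⟩ := mem_Sp.1 hF
  obtain ⟨h1, h2⟩ := hH
  have e1 : (b + 1) * dg d = b * dg d + dg d := by ring
  refine ⟨?_, fun i => ?_⟩
  · rcases le_total n ((b + 1) * dg d) with hn | hn
    · rw [Nat.sub_eq_zero_of_le hn] at h1
      rw [InV_zero h1, mul_zero]
      intro i j _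
      simp
    · refine inV_mono ?_ (inV_mul hF1 h1)
      omega
  · have e2 : (b + 1) * mu d i = b * mu d i + mu d i := by ring
    refine mult_anti ?_ (mult_mul (hF2 i) (h2 i))
    show m i - b * mu d i ≤ mu d i + (m i - (b + 1) * mu d i)
    omega

end Pool.Agent.Lib.MP_6b2d39_agVn
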