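import Pool.Agent.Lib.MP_6b2d39_agVn.Strict

/-!
The rows of the system `a` with respect to the curve `G`.

PROOF. `f b = finrank (quo G b W)`, `f (b + 1) ≤ f b` (`finrank_quo_mulF`), `r b = f b - f (b + 1)`. For `b ≤ T = 2 M + 2`:
`a = (a' + (T - b) • d) + b • d`, so `2 f b = pr a_b a_b + sg a_b + 2` with `a_b = a' + (T - b) • d` (`Cur.finrank_quo`); hence for
`b < T`: `2 r b = 2 pr a_b d - pr d d + sg d = 2 pr a' d + (2 (T - b) - 1) pr d d + sg d`: affine in `b` with slope `pr d d`, and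
`r b ≥ pr a' d ≥ 9 M ^ 2 + 2 M`. `Cur.strict`: `1 ≤ r (b + 1) → r (b + 1) + 1 ≤ r b`, so `r` decreases strictly until it is zero and stays
zero; `f n = 0` for large `n` (`quo_sp`: `Sp 0`, since `dg d ≥ 1`). `H` = the number of the `b` with `r b ≥ 1` = the first zero of `r`
(`H ≥ 2 M + 2`), `f H = 0`, `∑_{b < H} r b = f 0`, `f 0 + ∑ (mu a i + 1).choose 2 = (dg a + 2).choose 2` (`Cur.finrank_quo` for `b = 0`,
`om_chi`).
-/

open Polynomial

set_option autoImplicit false

namespace Pool.Agent.Lib.MP_6b2d39_agVn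

open Pool.Agent.Lib.MP_6b2d39_ag Pool.Agent.Lib.MP_6b2d39_agHal Pool.Agent.Lib.MP_6b2d39_agNf

variable {d : Fin 10 → ℕ} {t : Fin 9 → ℂ} {w : ℂ} {G : ℂ[X][X]}

private theorem rowsV_pr (a' d : Fin 10 → ℕ) (n : ℕ) :
    pr (a' + n • d) (a' + n • d) = pr a' a' + 2 * n * pr a' d + n * n * pr d d := by
  rw [pr_add, pr_smul, pr_symm a' (a' + n • d), pr_symm d (a' + n • d), pr_add, pr_add, pr_smul,
    pr_smul, pr_symm d a']
  ring

private theorem rowsV_f (h : Cur d t w G) {T : ℕ} {a a' : Fin 10 → ℕ}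
    (ha : a = a' + T • d) (hs : 1 ≤ sg a') {b : ℕ} (hb : b ≤ T) :
    2 * Module.finrank ℂ (quo G b (Sp (dg a + 1) (fun i => gam (t i)) (mu a))) =
      pr a' a' + 2 * (T - b) * pr a' d + (T - b) * (T - b) * pr d d +
        (sg a' + (T - b) * sg d) + 2 := by
  have h1 : a = (a' + (T - b) • d) + b • d := by
    rw [ha, add_assoc, ← add_smul, Nat.sub_add_cancel hb]
  have h2 : sg (a' + (T - b) • d) = sg a' + (T - b) * sg d := by
    rw [sg_add, sg_smul]
  have h3 := h.finrank_quo h1 (by rw [h2]; omega)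
  rw [h3, h2, rowsV_pr]

private theorem rowsV_anti (h : Cur d t w G) (n : ℕ) (m : Fin 9 → ℕ) (b : ℕ) :
    Module.finrank ℂ (quo G (b + 1) (Sp n (fun i => gam (t i)) m)) ≤
      Module.finrank ℂ (quo G b (Sp n (fun i => gam (t i)) m)) := by
  have hG := h.ne_zero
  have hfin : FiniteDimensional ℂ (quo G b (Sp n (fun i => gam (t i)) m)) := quo_finite hG _ _
  rw [← finrank_quo_mulF hG b (Sp n (fun i => gam (t i)) m)]
  exact Submodule.finrank_mono inf_le_left

private theorem rowsV_zero (h : Cur d t w G) (n : ℕ) (m : Fin 9 → ℕ) :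
    Module.finrank ℂ (quo G n (Sp n (fun i => gam (t i)) m)) = 0 := by
  have h1 : n - n * dg d = 0 := by
    have h2 := h.deg
    have h3 : n * 1 ≤ n * dg d := Nat.mul_le_mul_left _ (by omega)
    omega
  have h2 : quo G n (Sp n (fun i => gam (t i)) m) = ⊥ := by
    rw [h.quo_sp, h1, Submodule.eq_bot_iff]
    intro F hF
    exact InV_zero (mem_Sp.1 hF).1
  rw [h2]
  exact finrank_bot ℂ _

/-- a sequence which decreases strictly until it is zero -/
private theorem rowsV_seq {f : ℕ → ℕ} {N : ℕ} (hN : f N = 0) (hanti : ∀ b, f (b + 1) ≤ f b)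
    (hst : ∀ b, f (b + 2) < f (b + 1) → 2 * f (b + 1) + 1 ≤ f b + f (b + 2)) :
    ∃ H : ℕ, f H = 0 ∧ (∀ b < H, f (b + 1) < f b) ∧
      ∑ b ∈ Finset.range H, (f b - f (b + 1)) = f 0 := by
  classical
  have hsum : ∀ n, ∑ b ∈ Finset.range n, (f b - f (b + 1)) + f n = f 0 := by
    intro n
    induction n with
    | zero => simp
    | succ n ih =>
      rw [Finset.sum_range_succ]
      have := hanti n
      omega
  have hex : ∃ n, ¬ f (n + 1) < f n := ⟨N, by omega⟩
  obtain ⟨H, hH⟩ : ∃ H, H = Nat.find hex := ⟨_, rfl⟩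
  have h1 : ¬ f (H + 1) < f H := by
    rw [hH]
    exact Nat.find_spec hex
  have h2 : ∀ b < H, f (b + 1) < f b := by
    intro b hb
    by_contra hcon
    rw [hH] at hb
    exact Nat.find_min hex hb hcon
  have h3 : ∀ k, ¬ f (H + k + 1) < f (H + k) := by
    intro k
    induction k with
    | zero => exact h1
    | succ k ih =>
      intro hcon
      have h4 := hst (H + k) hcon
      have h5 : f (H + k + 2) < f (H + k + 1) := hcon
      omega
  have h4 : ∀ k, f (H + k) = f H := by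
    intro k
    induction k with
    | zero => rfl
    | succ k ih =>
      have h5 := h3 k
      have h6 := hanti (H + k)
      have h7 : f (H + (k + 1)) = f (H + k + 1) := rfl
      omega
  have h5 : f H = 0 := by
    have h6 : ∀ k, f (N + k) = 0 := by
      intro k
      induction k with
      | zero => exact hN
      | succ k ih =>
        have h7 := hanti (N + k)
        have h8 : f (N + (k + 1)) = f (N + k + 1) := rfl
        omega
    have h7 := h4 N
    have h8 := h6 H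
    rw [Nat.add_comm] at h8
    omega
  refine ⟨H, h5, h2, ?_⟩
  have h6 := hsum H
  omega

theorem Cur.rows (h : Cur d t w G) {M : ℕ} (hM : 1 ≤ M) {a a' : Fin 10 → ℕ}
    (ha : a = a' + (2 * M + 2) • d) (hs : 1 ≤ sg a') (hlow : 9 * M ^ 2 + 2 * M ≤ pr a' d) :
    ∃ (H : ℕ) (r : ℕ → ℕ), Long M (2 * M + 1) H r ∧
      (∀ b < H, Module.finrank ℂ (quo G b (Sp (dg a + 1) (fun i => gam (t i)) (mu a))) ≤
        r b + Module.finrank ℂ (quo G (b + 1) (Sp (dg a + 1) (fun i => gam (t i)) (mu a)))) ∧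
      (∀ F : ℂ[X][X], G ^ H * F ∈ Sp (dg a + 1) (fun i => gam (t i)) (mu a) → F = 0) ∧
      ∑ b ∈ Finset.range H, r b + ∑ i, (mu a i + 1).choose 2 = (dg a + 2).choose 2 := by
  obtain ⟨f, hf⟩ : ∃ f : ℕ → ℕ, ∀ b, f b =
      Module.finrank ℂ (quo G b (Sp (dg a + 1) (fun i => gam (t i)) (mu a))) := ⟨_, fun _ => rfl⟩
  have hanti : ∀ b, f (b + 1) ≤ f b := by
    intro b
    rw [hf, hf]
    exact rowsV_anti h _ _ b
  have hst : ∀ b, f (b + 2) < f (b + 1) → 2 * f (b + 1) + 1 ≤ f b + f (b + 2) := by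
    intro b hb
    rw [hf, hf] at hb
    rw [hf, hf, hf]
    exact h.strict _ b _ hb
  have hN : f (dg a + 1) = 0 := by
    rw [hf]
    exact rowsV_zero h _ _
  obtain ⟨H, hfH, hpos, hsum⟩ := rowsV_seq hN hanti hst
  have hf2 : ∀ b, b ≤ 2 * M + 2 → 2 * f b =
      pr a' a' + 2 * (2 * M + 2 - b) * pr a' d + (2 * M + 2 - b) * (2 * M + 2 - b) * pr d d +
        (sg a' + (2 * M + 2 - b) * sg d) + 2 := by
    intro b hb
    rw [hf]
    exact rowsV_f h ha hs hb
  have hr2 : ∀ b, b ≤ 2 * M + 1 → 2 * f b =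
      2 * f (b + 1) + (2 * pr a' d + (2 * (2 * M + 1 - b) + 1) * pr d d + sg d) := by
    intro b hb
    obtain ⟨n, hn⟩ : ∃ n, n = 2 * M + 1 - b := ⟨_, rfl⟩
    have e1 := hf2 b (by omega)
    have e2 := hf2 (b + 1) (by omega)
    have e3 : 2 * M + 2 - b = n + 1 := by omega
    have e4 : 2 * M + 2 - (b + 1) = n := by omega
    rw [e3] at e1
    rw [e4] at e2
    rw [← hn, e1, e2]
    ring
  have hlong : ∀ b ≤ 2 * M + 1, 9 * M ^ 2 + 2 * M ≤ f b - f (b + 1) := by
    intro b hb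
    have e1 := hr2 b hb
    obtain ⟨x, hx⟩ : ∃ x, x = (2 * (2 * M + 1 - b) + 1) * pr d d := ⟨_, rfl⟩
    rw [← hx] at e1
    omega
  have hM2 : 1 ≤ 9 * M ^ 2 + 2 * M := by
    have : 1 ≤ 2 * M := by omega
    exact le_trans this (Nat.le_add_left _ _)
  have hH : 2 * M + 2 ≤ H := by
    by_contra hcon
    push Not at hcon
    have e1 := hlong H (by omega)
    omega
  refine ⟨H, fun b => f b - f (b + 1), ⟨hM, le_rfl, by omega, ?_, ?_, ?_, ?_, ?_⟩, ?_, ?_, ?_⟩
  · intro b _ hb
    have e1 := hpos (b + 1) hb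
    have e2 := hst b e1
    have e3 := hanti b
    have e4 : b + 1 + 1 = b + 2 := rfl
    beta_reduce
    rw [e4] at e1 ⊢
    omega
  · intro b hb
    have e1 := hpos (b + 1) hb
    have e2 := hst b e1
    have e3 := hanti b
    have e4 : b + 1 + 1 = b + 2 := rfl
    beta_reduce
    rw [e4] at e1 ⊢
    omega
  · intro b hb
    have e1 := hpos b hb
    show 1 ≤ f b - f (b + 1)
    omega
  · intro b hb _
    exact hlong b hb
  · refine ⟨pr d d, fun b hb => ?_⟩
    beta_reduce
    have e1 := hr2 b (by omega)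
    have e2 := hr2 0 (by omega)
    obtain ⟨n, hn⟩ : ∃ n, 2 * M + 1 = n + b := ⟨2 * M + 1 - b, by omega⟩
    have e3 : 2 * M + 1 - b = n := by omega
    have e4 : 2 * M + 1 - 0 = n + b := by omega
    rw [e3] at e1
    rw [e4] at e2
    have e5 : (2 * (n + b) + 1) * pr d d = (2 * n + 1) * pr d d + 2 * (pr d d * b) := by ring
    rw [e5] at e2
    have e6 := hanti b
    have e7 := hanti 0
    omega
  · intro b _
    beta_reduce
    rw [← hf, ← hf]
    have := hanti b
    omega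
  · intro F hF
    have hG := h.ne_zero
    have hfin : FiniteDimensional ℂ
        (quo G H (Sp (dg a + 1) (fun i => gam (t i)) (mu a))) := quo_finite hG _ _
    rw [hf] at hfH
    have e1 := Submodule.finrank_eq_zero.1 hfH
    have e2 : F ∈ quo G H (Sp (dg a + 1) (fun i => gam (t i)) (mu a)) := hF
    rw [e1] at e2
    exact (Submodule.mem_bot ℂ).1 e2
  · rw [hsum]
    have e1 := hf2 0 (by omega)
    have e2 := om_chi a
    have e3 : 2 * f 0 = pr a a + sg a + 2 := by
      rw [e1, ha, rowsV_pr, sg_add, sg_smul]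
      simp only [Nat.sub_zero]
    omega

end Pool.Agent.Lib.MP_6b2d39_agVn
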