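import Pool.Agent.Lib.MP_6b2d39_agVn.Hopf
import Pool.Agent.Lib.MP_6b2d39_agVn.QuoV
import Pool.Agent.Lib.MP_6b2d39_agVn.CurI

/-!
The rows decrease strictly.

PROOF. `V b = quo G b W`, `finrank (V b ⊓ mulF G) = finrank (V (b + 1))` (`finrank_quo_mulF`). `Λ = Sp (dg d + 1) (mu d)` has
dimension at least three (`h.finrank_quo` with `b = 0`, `a = a' = d`, and `h.dim`; or `low` and `om_chi`), and `Λ ⊓ mulF G` is spanned by
`G` (`quo_sp` with `b = 1`: `Sp 1 (fun _ => 0)`, the constants, dimension one): so there are `F₁`, `F₂` in `Λ` which are independent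
modulo `G` (the image of `Λ` in the quotient by `Λ ⊓ mulF G` has dimension at least two). `hopf` for `V (b + 1)`, `V b` with `mul_quo`;
`hV`: `V (b + 1) ⊓ mulF G ≠ V (b + 1)` since the dimensions `f (b + 2) < f (b + 1)` are different.
-/

open Polynomial

set_option autoImplicit false

namespace Pool.Agent.Lib.MP_6b2d39_agVn

open Pool.Agent.Lib.MP_6b2d39_ag Pool.Agent.Lib.MP_6b2d39_agHal

variable {d : Fin 10 → ℕ} {t : Fin 9 → ℂ} {w : ℂ} {G : ℂ[X][X]}

private theorem strict_one (h : Cur d t w G) :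
    Module.finrank ℂ ↥(Sp (dg d + 1) (fun i => gam (t i)) (mu d) ⊓ mulF G) ≤ 1 := by
  have h1 := finrank_quo_mulF h.ne_zero 0 (Sp (dg d + 1) (fun i => gam (t i)) (mu d))
  have h2 : quo G 0 (Sp (dg d + 1) (fun i => gam (t i)) (mu d)) =
      Sp (dg d + 1) (fun i => gam (t i)) (mu d) := by
    ext H
    rw [mem_quo, pow_zero, one_mul]
  rw [h2, h.quo_sp] at h1
  have h3 : (fun i => mu d i - (0 + 1) * mu d i) = fun _ : Fin 9 => 0 := by
    funext i
    rw [zero_add, one_mul, Nat.sub_self]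
  have h4 : dg d + 1 - (0 + 1) * dg d = 0 + 1 := by omega
  rw [h3, h4] at h1
  have h5 := exact_le h.tok.par 0 (fun _ => 0) (fun _ _ _ => le_rfl) (by simp) (Or.inl rfl)
  have h6 : ((0 + 2).choose 2) = 1 := by decide
  rw [h6] at h5
  rw [h1]
  exact le_trans (Nat.le_add_right _ _) h5

private theorem strict_dim (h : Cur d t w G) :
    3 ≤ Module.finrank ℂ (Sp (dg d + 1) (fun i => gam (t i)) (mu d)) := by
  have h1 := low (dg d) (fun i => gam (t i)) (mu d)
  have h2 := om_chi d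
  have h3 := h.dim
  omega

private theorem strict_pair (h : Cur d t w G) :
    ∃ F₁ ∈ Sp (dg d + 1) (fun i => gam (t i)) (mu d),
      ∃ F₂ ∈ Sp (dg d + 1) (fun i => gam (t i)) (mu d),
        ∀ a b : ℂ, G ∣ a • F₁ + b • F₂ → a = 0 ∧ b = 0 := by
  have hL := strict_dim h
  have hK := strict_one h
  generalize hLdef : Sp (dg d + 1) (fun i => gam (t i)) (mu d) = L at hL hK
  have hfin : FiniteDimensional ℂ L := by
    rw [← hLdef]
    exact Sp_finite _ _ _
  have hKfin : FiniteDimensional ℂ ↥(L ⊓ mulF G) :=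
    Submodule.finiteDimensional_of_le inf_le_left
  obtain ⟨F₁, hF₁, hF₁'⟩ : ∃ F ∈ L, F ∉ L ⊓ mulF G := by
    by_contra hcon
    push Not at hcon
    have h1 : Module.finrank ℂ L ≤ Module.finrank ℂ ↥(L ⊓ mulF G) := Submodule.finrank_mono hcon
    omega
  obtain ⟨F₂, hF₂, hF₂'⟩ : ∃ F ∈ L, F ∉ (L ⊓ mulF G) ⊔ Submodule.span ℂ {F₁} := by
    by_contra hcon
    push Not at hcon
    have h1 : Module.finrank ℂ L ≤
        Module.finrank ℂ ↥((L ⊓ mulF G) ⊔ Submodule.span ℂ {F₁}) := Submodule.finrank_mono hcon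
    have h2 := Submodule.finrank_add_le_finrank_add_finrank (L ⊓ mulF G)
      (Submodule.span ℂ {F₁})
    have h3 : Module.finrank ℂ (Submodule.span ℂ {F₁}) ≤ 1 :=
      (finrank_span_le_card ({F₁} : Set ℂ[X][X])).trans (by simp)
    omega
  refine ⟨F₁, hF₁, F₂, hF₂, fun a b hab => ?_⟩
  have h1 : a • F₁ + b • F₂ ∈ L ⊓ mulF G :=
    ⟨L.add_mem (L.smul_mem a hF₁) (L.smul_mem b hF₂), mem_mulF.2 hab⟩
  have hb : b = 0 := by
    by_contra hb
    apply hF₂'
    have h2 : F₂ = b⁻¹ • (a • F₁ + b • F₂) + (-(b⁻¹ * a)) • F₁ := by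
      rw [smul_add, smul_smul, smul_smul, inv_mul_cancel₀ hb, one_smul, neg_smul]
      abel
    rw [h2]
    exact Submodule.add_mem_sup (Submodule.smul_mem _ _ h1)
      (Submodule.smul_mem _ _ (Submodule.mem_span_singleton_self F₁))
  refine ⟨?_, hb⟩
  by_contra ha
  apply hF₁'
  have h2 : F₁ = a⁻¹ • (a • F₁ + b • F₂) := by
    rw [hb, zero_smul, add_zero, smul_smul, inv_mul_cancel₀ ha, one_smul]
  rw [h2]
  exact Submodule.smul_mem _ _ h1

theorem Cur.strict (h : Cur d t w G) (n b : ℕ) (m : Fin 9 → ℕ)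
    (hb : Module.finrank ℂ (quo G (b + 2) (Sp n (fun i => gam (t i)) m)) <
      Module.finrank ℂ (quo G (b + 1) (Sp n (fun i => gam (t i)) m))) :
    2 * Module.finrank ℂ (quo G (b + 1) (Sp n (fun i => gam (t i)) m)) + 1 ≤
      Module.finrank ℂ (quo G b (Sp n (fun i => gam (t i)) m)) +
        Module.finrank ℂ (quo G (b + 2) (Sp n (fun i => gam (t i)) m)) := by
  have hirr := h.irr
  have hG := h.ne_zero
  obtain ⟨F₁, hF₁, F₂, hF₂, hind⟩ := strict_pair h
  have hfin1 : FiniteDimensional ℂ (quo G (b + 1) (Sp n (fun i => gam (t i)) m)) :=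
    quo_finite hG _ _
  have hfin0 : FiniteDimensional ℂ (quo G b (Sp n (fun i => gam (t i)) m)) :=
    quo_finite hG _ _
  have h0 := finrank_quo_mulF hG b (Sp n (fun i => gam (t i)) m)
  have h1 := finrank_quo_mulF hG (b + 1) (Sp n (fun i => gam (t i)) m)
  have h2 := hopf hirr (V := quo G (b + 1) (Sp n (fun i => gam (t i)) m))
    (U := quo G b (Sp n (fun i => gam (t i)) m)) hind
    (fun H hH => h.mul_quo hF₁ hH) (fun H hH => h.mul_quo hF₂ hH) (by
      by_contra hcon
      push Not at hcon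
      have h3 : quo G (b + 1) (Sp n (fun i => gam (t i)) m) ⊓ mulF G =
          quo G (b + 1) (Sp n (fun i => gam (t i)) m) := by
        rw [inf_eq_left]
        exact fun H hH => mem_mulF.2 (hcon H hH)
      rw [h3] at h1
      have h4 : b + 1 + 1 = b + 2 := rfl
      rw [h4] at h1
      omega)
  rw [h0, h1] at h2
  have h4 : b + 1 + 1 = b + 2 := rfl
  rw [h4] at h2
  omega

end Pool.Agent.Lib.MP_6b2d39_agVn
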