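import Pool.Agent.Lib.MP_6b2d39_agVn.TwoV
import Pool.Agent.Lib.MP_6b2d39_agVn.Om

/-!
The restriction of the system `(δ; k)` to the nodal cubic is onto.

PROOF. `W = Sp (δ + 1) p k`. `finrank (W.map res) + finrank (W ⊓ ker res) = finrank W` (`rb_rank` in `Hal/RowB.lean`).
`finrank W + ∑ (k i + 1).choose 2 = (δ + 2).choose 2` (`exact_eq`, `hs`). `W ⊓ ker res` is contained in the image under
multiplication by `cub` of `Sp (δ + 1 - 3) p (k - 1) = Sp ((δ - 3) + 1) p (k - 1)` (`res_ker`, as in `row_le`), of dimension at most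
`(δ - 3 + 2).choose 2 - ∑ (k i - 1 + 1).choose 2`: `exact_le` for `δ - 3`, `k - 1` if `∑ (k i - 1) < 3 (δ - 3)` and `1 ≤ k 2`
(`k 0 - 1 + (k 1 - 1) + (k 2 - 1) ≤ δ - 3`), and `two_le_succ` with `i = 0`, `j = 1` if `k 2 = 0` (`k 0 - 1 + (k 1 - 1) ≤ δ - 3 + 1`: from
`k 0 + k 1 ≤ δ` if `k 1 ≥ 1`, from `k 0 < δ` if `k 1 = 0`; `ht.ord` gives different ordinates). Difference: `3 δ - ∑ k i = s`
(`rc_choose`, `rc_three` in `Hal/RowC.lean`). So `finrank (W.map res) ≥ s ≥ finrank (RowSp (3 δ) t k)` (`poly_row`), and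
`W.map res ≤ RowSp (3 δ) t k` (`res_mem`): equality (`Submodule.eq_of_le_of_finrank_le`).
-/

open Polynomial

set_option autoImplicit false

namespace Pool.Agent.Lib.MP_6b2d39_agVn

open Pool.Agent.Lib.MP_6b2d39_ag Pool.Agent.Lib.MP_6b2d39_agHal

private theorem surj_rank {K M N : Type} [Field K] [AddCommGroup M] [Module K M] [AddCommGroup N]
    [Module K N] (V : Submodule K M) [FiniteDimensional K V] (ρ : M →ₗ[K] N) :
    Module.finrank K (V.map ρ) + Module.finrank K (V ⊓ LinearMap.ker ρ : Submodule K M) =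
      Module.finrank K V := by
  have h1 := LinearMap.finrank_range_add_finrank_ker (ρ.comp V.subtype)
  rw [LinearMap.range_comp, Submodule.range_subtype] at h1
  rw [← h1, LinearMap.ker_comp, ← Submodule.finrank_map_subtype_eq V (Submodule.comap _ _),
    Submodule.map_comap_subtype]

private theorem surj_map {K M N : Type} [Field K] [AddCommGroup M] [Module K M] [AddCommGroup N]
    [Module K N] (V : Submodule K N) (W : Submodule K M) [FiniteDimensional K W] (μ : M →ₗ[K] N)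
    (h : V ≤ W.map μ) : Module.finrank K V ≤ Module.finrank K W :=
  (Submodule.finrank_mono h).trans (Submodule.finrank_map_le μ W)

private theorem surj_choose (a : ℕ) : (a + 1).choose 2 = a + (a - 1 + 1).choose 2 := by
  cases a with
  | zero => rfl
  | succ a =>
    rw [Nat.add_sub_cancel, Nat.choose_succ_succ' (a + 1) 1, Nat.choose_one_right]

private theorem surj_three (n : ℕ) :
    (n + 3 + 2).choose 2 = 3 * (n + 3) + (n + 2).choose 2 := by
  rw [Nat.choose_succ_succ' (n + 4) 1, Nat.choose_succ_succ' (n + 3) 1,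
    Nat.choose_succ_succ' (n + 2) 1, Nat.choose_one_right, Nat.choose_one_right,
    Nat.choose_one_right]
  ring

private theorem surj_two {k : Fin 9 → ℕ} (hk : Antitone k) (h2 : k 2 = 0) {i : Fin 9}
    (hi0 : i ≠ 0) (hi1 : i ≠ 1) : k i = 0 := by
  have h3 : (2 : Fin 9) ≤ i := by
    rw [Fin.le_def]
    have h4 : (i : ℕ) ≠ 0 := fun h => hi0 (Fin.ext h)
    have h5 : (i : ℕ) ≠ 1 := fun h => hi1 (Fin.ext h)
    change 2 ≤ (i : ℕ)
    omega
  have h4 := hk h3
  omega

/-- the kernel of the restriction -/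
private theorem surj_ker {d : ℕ} {t : Fin 9 → ℂ} (ht : Par t) (k : Fin 9 → ℕ) :
    Module.finrank ℂ (Sp (d + 3 + 1) (fun i => gam (t i)) k ⊓ LinearMap.ker res.toLinearMap :
      Submodule ℂ ℂ[X][X]) ≤
      Module.finrank ℂ (Sp (d + 1) (fun i => gam (t i)) (fun i => k i - 1)) := by
  refine surj_map (Sp (d + 3 + 1) (fun i => gam (t i)) k ⊓ LinearMap.ker res.toLinearMap)
    (Sp (d + 1) (fun i => gam (t i)) (fun i => k i - 1)) (LinearMap.mulLeft ℂ cub) ?_
  rintro x ⟨hx, hx'⟩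
  obtain ⟨G, hG, hG'⟩ := res_ker ht hx hx'
  exact ⟨G, hG, hG'.symm⟩

/-- dimension of the system of the kernel -/
private theorem surj_dim {d : ℕ} {t : Fin 9 → ℂ} (ht : Par t) {k : Fin 9 → ℕ} (hk : Antitone k)
    (hr : k 0 + k 1 + k 2 ≤ d + 3) (h0 : k 0 < d + 3)
    (h2 : k 2 = 0 ∨ ∑ i, (k i - 1) < 3 * d) :
    Module.finrank ℂ (Sp (d + 1) (fun i => gam (t i)) (fun i => k i - 1)) +
      ∑ i, (k i - 1 + 1).choose 2 ≤ (d + 2).choose 2 := by
  by_cases h3 : k 2 = 0
  · refine two_le_succ (i := 0) (j := 1) (m := fun i => k i - 1) (by decide) ?_ ?_ ?_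
    · intro i hi0 hi1
      have := surj_two hk h3 hi0 hi1
      change k i - 1 = 0
      omega
    · intro h4
      exact absurd (ht.ord h4) (by decide)
    · have h5 : k 1 ≤ k 0 := hk (by decide)
      change k 0 - 1 + (k 1 - 1) ≤ d + 1
      omega
  · have h4 : k 2 ≤ k 1 := hk (by decide)
    have h5 : k 1 ≤ k 0 := hk (by decide)
    refine exact_le ht d (fun i => k i - 1) (fun i j hij => Nat.sub_le_sub_right (hk hij) 1) ?_
      (Or.inr (h2.resolve_left h3))
    omega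

theorem surj {δ s : ℕ} {k : Fin 9 → ℕ} {t : Fin 9 → ℂ} (ht : Par t) (hk : Antitone k)
    (hr : k 0 + k 1 + k 2 ≤ δ) (hd : 3 * δ = ∑ i, k i + s) (hs : 1 ≤ s) (h3 : 3 ≤ δ)
    (h0 : k 0 < δ) (h2 : k 2 = 0 ∨ ∑ i, (k i - 1) < 3 * (δ - 3)) {q : ℂ[X]}
    (hq : q ∈ RowSp (3 * δ) t k) :
    ∃ F ∈ Sp (δ + 1) (fun i => gam (t i)) k, res F = q := by
  obtain ⟨d, rfl⟩ : ∃ d, δ = d + 3 := ⟨δ - 3, by omega⟩
  rw [Nat.add_sub_cancel] at h2
  have e1 := exact_eq ht hk hr (by omega)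
  have e2 := surj_rank (Sp (d + 3 + 1) (fun i => gam (t i)) k) res.toLinearMap
  have e3 := surj_ker (d := d) ht k
  have e4 := surj_dim ht hk hr h0 h2
  have e5 : ∑ i, (k i + 1).choose 2 = ∑ i, k i + ∑ i, (k i - 1 + 1).choose 2 := by
    rw [← Finset.sum_add_distrib]
    exact Finset.sum_congr rfl fun i _ => surj_choose (k i)
  have e6 := surj_three d
  have e7 := poly_row ht hs hd
  have := rowSp_finite (3 * (d + 3)) t k
  have e8 : (Sp (d + 3 + 1) (fun i => gam (t i)) k).map res.toLinearMap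
      ≤ RowSp (3 * (d + 3)) t k := by
    rintro _ ⟨x, hx, rfl⟩
    exact res_mem ht hx
  have e9 : (Sp (d + 3 + 1) (fun i => gam (t i)) k).map res.toLinearMap
      = RowSp (3 * (d + 3)) t k := by
    refine Submodule.eq_of_le_of_finrank_le e8 (e7.trans ?_)
    omega
  rw [← e9] at hq
  obtain ⟨F, hF, hF'⟩ := hq
  exact ⟨F, hF, hF'⟩

end Pool.Agent.Lib.MP_6b2d39_agVn
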