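import Pool.Agent.Lib.MP_6b2d39_agHal.Two

/-!
Systems with two points, `α + β ≤ n + 1` (one more than in `Hal/TwoA.lean`, `Hal/TwoB.lean`).

PROOF. Copy `Hal/TwoA.lean` (`twoQ`, `twoN`, `twoB`, `two_mem`, `two_vert`) and `Hal/TwoB.lean` (`two_le`) with the hypothesis
`α + β ≤ n + 1`: the only place where it is used is `twoN n α β a + (α - a) + (β - a) = n + 1 - a` for `a ≤ n`, still true
(`a = 0`: `α + β ≤ n + 1`; `a ≥ 1`: omega), and `α ≤ n + 1` in `two_sum`. The private lemmas have to be copied (other names).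
-/

open Polynomial

set_option autoImplicit false

namespace Pool.Agent.Lib.MP_6b2d39_agVn

open Pool.Agent.Lib.MP_6b2d39_ag Pool.Agent.Lib.MP_6b2d39_agHal

private noncomputable def TwoV_twoQ (α β : ℕ) (y₁ y₂ : ℂ) (a : ℕ) : ℂ[X] :=
  (X - C y₁) ^ (α - a) * (X - C y₂) ^ (β - a)

private def TwoV_twoN (n α β a : ℕ) : ℕ := n + 1 - a - (α - a) - (β - a)

private noncomputable def TwoV_twoB (n α β : ℕ) (y₁ y₂ : ℂ)
    (z : (a : Fin (n + 1)) × Fin (TwoV_twoN n α β a)) : ℂ[X][X] :=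
  monomial z.1.1 (TwoV_twoQ α β y₁ y₂ z.1.1 * X ^ z.2.1)

private theorem TwoV_twoQ_ne (α β : ℕ) (y₁ y₂ : ℂ) (a : ℕ) : TwoV_twoQ α β y₁ y₂ a ≠ 0 :=
  mul_ne_zero (pow_ne_zero _ (X_sub_C_ne_zero _)) (pow_ne_zero _ (X_sub_C_ne_zero _))

private theorem TwoV_twoQ_deg (α β : ℕ) (y₁ y₂ : ℂ) (a : ℕ) :
    (TwoV_twoQ α β y₁ y₂ a).natDegree = (α - a) + (β - a) := by
  unfold TwoV_twoQ
  rw [natDegree_mul (pow_ne_zero _ (X_sub_C_ne_zero _)) (pow_ne_zero _ (X_sub_C_ne_zero _)),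
    natDegree_pow, natDegree_pow, natDegree_X_sub_C, natDegree_X_sub_C, mul_one, mul_one]

private theorem TwoV_two_dvd {F : ℂ[X][X]} {α : ℕ} {y : ℂ} (h : Mult α (0, y) F) (a : ℕ) :
    (X - C y) ^ (α - a) ∣ F.coeff a := by
  have h1 := h a
  rw [colH_Icc_thick] at h1
  have h2 : taylor (C (0 : ℂ)) F = F := by
    rw [C_0, taylor_zero]
  have h3 : (taylor (C ((0 : ℂ), y).1) F) = F := h2
  rw [h3] at h1
  exact h1

private theorem TwoV_two_mem {n α β : ℕ} {y₁ y₂ : ℂ} (hy : y₁ ≠ y₂) {F : ℂ[X][X]}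
    (hF : F ∈ Sp (n + 1) ![((0 : ℂ), y₁), ((0 : ℂ), y₂)] ![α, β]) :
    F ∈ Submodule.span ℂ (Set.range (TwoV_twoB n α β y₁ y₂)) := by
  obtain ⟨hV, hM⟩ := hF
  have h1 : ∀ a, (X - C y₁) ^ (α - a) ∣ F.coeff a := TwoV_two_dvd (hM 0)
  have h2 : ∀ a, (X - C y₂) ^ (β - a) ∣ F.coeff a := TwoV_two_dvd (hM 1)
  have hc : ∀ a, IsCoprime ((X - C y₁) ^ (α - a)) ((X - C y₂) ^ (β - a)) := fun a =>
    (isCoprime_X_sub_C_of_isUnit_sub (isUnit_iff_ne_zero.2 (sub_ne_zero.2 hy))).pow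
  have hd : ∀ a, TwoV_twoQ α β y₁ y₂ a ∣ F.coeff a := fun a => (hc a).mul_dvd (h1 a) (h2 a)
  have hn : F.natDegree < n + 1 := by
    by_contra h3
    have h4 : F ≠ 0 := by
      rintro rfl
      rw [natDegree_zero] at h3
      omega
    have h5 : F.coeff F.natDegree = 0 := by
      ext b
      rw [coeff_zero]
      exact hV _ b (by omega)
    exact h4 (leadingCoeff_eq_zero.1 h5)
  rw [F.as_sum_range' (n + 1) hn]
  refine Submodule.sum_mem _ fun a ha => ?_
  rw [Finset.mem_range] at ha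
  obtain ⟨g, hg⟩ := hd a
  by_cases hg0 : g = 0
  · rw [hg, hg0, mul_zero, map_zero]
    exact Submodule.zero_mem _
  have hdeg : g.natDegree < TwoV_twoN n α β a := by
    have h3 : (F.coeff a).natDegree < n + 1 - a := by
      have h4 : F.coeff a ≠ 0 := by
        rw [hg]
        exact mul_ne_zero (TwoV_twoQ_ne _ _ _ _ _) hg0
      by_contra h5
      have h6 : (F.coeff a).coeff (F.coeff a).natDegree = 0 := hV a _ (by omega)
      exact h4 (leadingCoeff_eq_zero.1 h6)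
    rw [hg, natDegree_mul (TwoV_twoQ_ne _ _ _ _ _) hg0, TwoV_twoQ_deg] at h3
    unfold TwoV_twoN
    omega
  rw [hg, g.as_sum_range_C_mul_X_pow' hdeg, Finset.mul_sum, map_sum]
  refine Submodule.sum_mem _ fun j hj => ?_
  rw [Finset.mem_range] at hj
  have h7 : monomial a (TwoV_twoQ α β y₁ y₂ a * (C (g.coeff j) * X ^ j)) =
      g.coeff j • TwoV_twoB n α β y₁ y₂ ⟨⟨a, ha⟩, ⟨j, hj⟩⟩ := by
    change monomial a (TwoV_twoQ α β y₁ y₂ a * (C (g.coeff j) * X ^ j)) =
      g.coeff j • monomial a (TwoV_twoQ α β y₁ y₂ a * X ^ j)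
    rw [smul_monomial]
    congr 1
    rw [smul_eq_C_mul]
    ring
  rw [h7]
  exact Submodule.smul_mem _ _ (Submodule.subset_span ⟨_, rfl⟩)

private theorem TwoV_two_sum (k m : ℕ) (h : k ≤ m) :
    ∑ a ∈ Finset.range m, (k - a) = (k + 1).choose 2 := by
  induction k generalizing m with
  | zero =>
    rw [Finset.sum_eq_zero fun a _ => Nat.zero_sub a]
    rfl
  | succ k ih =>
    obtain ⟨m, rfl⟩ : ∃ c, m = c + 1 := ⟨m - 1, by omega⟩
    rw [Finset.sum_range_succ']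
    have h1 : ∀ a, k + 1 - (a + 1) = k - a := fun a => by omega
    have h2 : (k + 1 + 1).choose 2 = (k + 1).choose 1 + (k + 1).choose 2 :=
      Nat.choose_succ_succ (k + 1) 1
    rw [Finset.sum_congr rfl fun a _ => h1 a, ih m (by omega), h2, Nat.choose_one_right]
    omega

/-- the two points on the line `x = 0` -/
private theorem TwoV_two_vert {n α β : ℕ} {y₁ y₂ : ℂ} (hy : y₁ ≠ y₂) (h : α + β ≤ n + 1) :
    Module.finrank ℂ (Sp (n + 1) ![((0 : ℂ), y₁), ((0 : ℂ), y₂)] ![α, β]) +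
      ((α + 1).choose 2 + (β + 1).choose 2) ≤ (n + 2).choose 2 := by
  have h1 : Module.finrank ℂ (Sp (n + 1) ![((0 : ℂ), y₁), ((0 : ℂ), y₂)] ![α, β]) ≤
      Module.finrank ℂ (Submodule.span ℂ (Set.range (TwoV_twoB n α β y₁ y₂))) := by
    have : FiniteDimensional ℂ (Submodule.span ℂ (Set.range (TwoV_twoB n α β y₁ y₂))) :=
      FiniteDimensional.span_of_finite ℂ (Set.finite_range _)
    exact Submodule.finrank_mono fun F hF => TwoV_two_mem hy hF
  have h2 : Module.finrank ℂ (Submodule.span ℂ (Set.range (TwoV_twoB n α β y₁ y₂))) ≤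
      Fintype.card ((a : Fin (n + 1)) × Fin (TwoV_twoN n α β a)) := finrank_range_le_card _
  have h3 : Fintype.card ((a : Fin (n + 1)) × Fin (TwoV_twoN n α β a)) =
      ∑ a ∈ Finset.range (n + 1), TwoV_twoN n α β a := by
    rw [Fintype.card_sigma, ← Fin.sum_univ_eq_sum_range (fun a => TwoV_twoN n α β a)]
    exact Finset.sum_congr rfl fun a _ => Fintype.card_fin _
  have h4 : ∑ a ∈ Finset.range (n + 1), TwoV_twoN n α β a + (∑ a ∈ Finset.range (n + 1), (α - a) +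
      ∑ a ∈ Finset.range (n + 1), (β - a)) = ∑ a ∈ Finset.range (n + 1), (n + 1 - a) := by
    rw [← Finset.sum_add_distrib, ← Finset.sum_add_distrib]
    refine Finset.sum_congr rfl fun a ha => ?_
    rw [Finset.mem_range] at ha
    unfold TwoV_twoN
    omega
  rw [TwoV_two_sum α (n + 1) (by omega), TwoV_two_sum β (n + 1) (by omega),
    TwoV_two_sum (n + 1) (n + 1) le_rfl] at h4
  have h5 : (n + 1 + 1).choose 2 = (n + 2).choose 2 := rfl
  omega

private noncomputable def TwoV_twoT (l c : ℂ) : ℂ[X][X] →ₐ[ℂ] ℂ[X][X] :=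
  aevalAeval (C X) (X + C (C l * X + C c))

private theorem TwoV_twoT_X (l c : ℂ) : TwoV_twoT l c (C X) = C X := by
  unfold TwoV_twoT
  rw [aevalAeval_X]

private theorem TwoV_twoT_Y (l c : ℂ) : TwoV_twoT l c X = X + C (C l * X + C c) := by
  unfold TwoV_twoT
  rw [aevalAeval_Y]

private theorem TwoV_twoT_C (l c r : ℂ) : TwoV_twoT l c (C (C r)) = C (C r) := (TwoV_twoT l c).commutes r

private theorem TwoV_twoT_inj (l c : ℂ) : Function.Injective (TwoV_twoT l c) := by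
  have h1 : (TwoV_twoT (-l) (-c)).comp (TwoV_twoT l c) = AlgHom.id ℂ ℂ[X][X] := by
    refine Polynomial.algHom_ext' ?_ ?_
    · refine Polynomial.algHom_ext ?_
      change TwoV_twoT (-l) (-c) (TwoV_twoT l c (C X)) = C X
      rw [TwoV_twoT_X, TwoV_twoT_X]
    · change TwoV_twoT (-l) (-c) (TwoV_twoT l c X) = X
      rw [TwoV_twoT_Y, C_add, C_mul, map_add, map_add, map_mul, TwoV_twoT_C, TwoV_twoT_C, TwoV_twoT_X, TwoV_twoT_Y, C_add,
        C_mul, C_neg, C_neg, C_neg, C_neg]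
      ring
  intro F G hFG
  have h2 : ∀ F, TwoV_twoT (-l) (-c) (TwoV_twoT l c F) = F := fun F => congrArg (fun f => f F) h1
  rw [← h2 F, hFG, h2]

/-- the polynomials of bounded total degree -/
private noncomputable def TwoV_twoV (n : ℕ) : Submodule ℂ ℂ[X][X] :=
  Sp (ι := Empty) n (fun i => i.elim) (fun i => i.elim)

private theorem TwoV_mem_twoV {n : ℕ} {F : ℂ[X][X]} : F ∈ TwoV_twoV n ↔ InV n F :=
  ⟨fun h => h.1, fun h => ⟨h, fun i => i.elim⟩⟩

private theorem TwoV_inV_Y : InV 2 (X : ℂ[X][X]) := by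
  intro a b h
  rw [coeff_X]
  split_ifs with h1
  · rw [coeff_one, if_neg (by omega)]
  · rw [coeff_zero]

private theorem TwoV_inV_C {g : ℂ[X]} {n : ℕ} (hg : g.natDegree < n) : InV n (C g) := by
  intro a b h
  rw [coeff_C]
  split_ifs with h1
  · exact coeff_eq_zero_of_natDegree_lt (by omega)
  · rw [coeff_zero]

private theorem TwoV_inV_twoT {n : ℕ} {F : ℂ[X][X]} (l c : ℂ) (hF : InV n F) :
    InV n (TwoV_twoT l c F) := by
  rw [← TwoV_mem_twoV, F.as_sum_support, map_sum]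
  refine Submodule.sum_mem _ fun i _ => ?_
  rw [(F.coeff i).as_sum_support, map_sum, map_sum]
  refine Submodule.sum_mem _ fun j hj => ?_
  have h1 : i + j < n := by
    by_contra h2
    exact (mem_support_iff.1 hj) (hF i j (not_lt.1 h2))
  have h2 : monomial i (monomial j ((F.coeff i).coeff j)) =
      (C (C ((F.coeff i).coeff j)) * C X ^ j) * X ^ i := by
    rw [← C_mul_X_pow_eq_monomial, ← C_mul_X_pow_eq_monomial, C_mul, C_pow]
  rw [h2, map_mul, map_mul, map_pow, map_pow, TwoV_twoT_C, TwoV_twoT_X, TwoV_twoT_Y, TwoV_mem_twoV]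
  have h3 : InV 2 (X + C (C l * X + C c) : ℂ[X][X]) := by
    rw [← TwoV_mem_twoV]
    refine Submodule.add_mem _ (TwoV_mem_twoV.2 TwoV_inV_Y) (TwoV_mem_twoV.2 (TwoV_inV_C ?_))
    exact lt_of_le_of_lt natDegree_linear_le (by omega)
  have h4 : InV (j + 1) (C (C ((F.coeff i).coeff j)) * C X ^ j : ℂ[X][X]) := by
    rw [← C_pow, ← C_mul]
    exact TwoV_inV_C (Nat.lt_succ_of_le (natDegree_C_mul_X_pow_le _ _))
  have h5 := inV_mul h4 (inV_pow h3 i)
  exact inV_mono (by omega) h5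

theorem two_le_succ {ι : Type} [Fintype ι] {n : ℕ} {p : ι → ℂ × ℂ} {m : ι → ℕ} {i j : ι}
    (hij : i ≠ j) (h0 : ∀ k, k ≠ i → k ≠ j → m k = 0) (hp : (p i).2 ≠ (p j).2)
    (h : m i + m j ≤ n + 1) :
    Module.finrank ℂ (Sp (n + 1) p m) + ∑ k, (m k + 1).choose 2 ≤ (n + 2).choose 2 := by
  classical
  have hs : ∑ k, (m k + 1).choose 2 = (m i + 1).choose 2 + (m j + 1).choose 2 := by
    rw [← Finset.sum_pair (f := fun k => (m k + 1).choose 2) hij]
    symm
    refine Finset.sum_subset (Finset.subset_univ _) fun k _ hk => ?_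
    rw [Finset.mem_insert, Finset.mem_singleton, not_or] at hk
    rw [h0 k hk.1 hk.2]
    rfl
  have hd : (p i).2 - (p j).2 ≠ 0 := sub_ne_zero.2 hp
  obtain ⟨l, c, hi, hj⟩ : ∃ l c : ℂ, l * (p i).2 + c = (p i).1 ∧ l * (p j).2 + c = (p j).1 := by
    refine ⟨((p i).1 - (p j).1) / ((p i).2 - (p j).2),
      (p i).1 - ((p i).1 - (p j).1) / ((p i).2 - (p j).2) * (p i).2, by ring, ?_⟩
    field_simp
    ring
  have hev : ∀ k : ι, l * (p k).2 + c = (p k).1 → ∀ F, Mult (m k) (p k) F →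
      Mult (m k) ((0 : ℂ), (p k).2) (TwoV_twoT l c F) := by
    intro k hk F hF
    refine mult_comp _ _ ?_ ?_ hF
    · change aevalAeval (p k).2 (0 : ℂ) (C X) = (p k).2
      rw [aevalAeval_X]
    · change aevalAeval (p k).2 (0 : ℂ) (X + C (C l * X + C c)) = (p k).1
      rw [← hk, C_add, C_mul, map_add, map_add, map_mul, aevalAeval_Y, aevalAeval_X]
      have h1 : ∀ r : ℂ, aevalAeval (p k).2 (0 : ℂ) (C (C r)) = r := fun r =>
        (aevalAeval (p k).2 (0 : ℂ)).commutes r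
      rw [h1, h1, zero_add]
  let T : Sp (n + 1) p m →ₗ[ℂ]
      Sp (n + 1) ![((0 : ℂ), (p i).2), ((0 : ℂ), (p j).2)] ![m i, m j] :=
    (TwoV_twoT l c).toLinearMap.restrict (p := Sp (n + 1) p m)
      (q := Sp (n + 1) ![((0 : ℂ), (p i).2), ((0 : ℂ), (p j).2)] ![m i, m j]) fun F hF => by
        refine ⟨TwoV_inV_twoT l c hF.1, fun k => ?_⟩
        fin_cases k
        · exact hev i hi F (hF.2 i)
        · exact hev j hj F (hF.2 j)
  have hT : Function.Injective T := by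
    intro F G hFG
    refine Subtype.ext (TwoV_twoT_inj l c ?_)
    exact congrArg Subtype.val hFG
  have h1 := LinearMap.finrank_le_finrank_of_injective hT
  have h2 := TwoV_two_vert hp h
  rw [hs]
  omega

end Pool.Agent.Lib.MP_6b2d39_agVn
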